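import Mathlib
import Pool.Prelude.Def_F_c31e40fa
import Pool.Agent.W747.MB.Defs
import Pool.Agent.TH363.CD.Upper3

/-! # Project AZ: statements -/

set_option autoImplicit false
open Metric MeasureTheory Set Filter Topology

namespace Pool.Agent.N228.AZ

open Pool.Agent.W747.MB
open Pool.Agent.TH363.CD

/-- AVG: averaging over balls of slowly varying radius. -/
def P_AVG : Prop := ∀ (S F : Set ℂ) (r : ℂ → ℝ) (a K : ℝ), MeasurableSet S → Measurable r →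
  0 ≤ a → 1 ≤ K → (∀ x ∈ S, 0 < r x) →
  (∀ x ∈ S, ENNReal.ofReal a * volume (closedBall x (r x)) ≤ volume (F ∩ closedBall x (r x))) →
  (∀ x ∈ S, ∀ x' ∈ S, ∀ y, y ∈ closedBall x (r x) → y ∈ closedBall x' (r x') → r x ≤ K * r x') →
  ENNReal.ofReal a * volume S ≤ ENNReal.ofReal (K ^ 2) * volume F

/-- LIN: equidistribution of the phase on a disc. -/
def P_LIN : Prop := ∀ (c₀ w : ℂ) (r φ s : ℝ), 0 < r → 20 ≤ ‖w‖ * r → 0 ≤ s → s ≤ 1 →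
  ENNReal.ofReal ((1 - s) / 2 - 15 / (‖w‖ * r)) * volume (closedBall c₀ r) ≤
    volume {c | c ∈ closedBall c₀ r ∧ s ≤ Real.cos (φ + (w * (c - c₀)).re)}

/-- EXPL: a function with almost constant logarithmic derivative. -/
def P_EXPL : Prop := ∀ (g ℓ : ℂ → ℂ) (c₀ ℓ₀ : ℂ) (r κ : ℝ), 0 < r → 0 ≤ κ → κ ≤ 1 / 4 →
  g c₀ ≠ 0 → (∀ c ∈ closedBall c₀ r, HasDerivAt g (g c * ℓ c) c ∧ ‖ℓ c - ℓ₀‖ * r ≤ κ) →
  ∀ c ∈ closedBall c₀ r, ‖g c - g c₀ * Complex.exp (ℓ₀ * (c - c₀))‖ ≤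
    2 * κ * ‖g c₀ * Complex.exp (ℓ₀ * (c - c₀))‖

/-- ANU: two-sided bounds for the area of an annulus. -/
def P_ANU : Prop := ∀ ε : ℝ, 0 < ε → ∀ᶠ n : ℕ in atTop, ∀ a b : ℝ, 1 / 3 ≤ a → a ≤ b → b ≤ 2 * n →
  ENNReal.ofReal ((1 - ε) * (2 * Real.pi * Real.log (b / a) / n)) ≤
    volume {c : ℂ | a ≤ Y n c ∧ Y n c ≤ b} ∧
  volume {c : ℂ | a ≤ Y n c ∧ Y n c ≤ b} ≤
    ENNReal.ofReal ((1 + ε) * (2 * Real.pi * Real.log (b / a) / n))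

/-- MAIN: the area of the main component. -/
def P_MAIN : Prop := ∀ ε : ℝ, 0 < ε → ∀ᶠ n : ℕ in atTop,
  ENNReal.ofReal (Real.pi * (1 - (2 + ε) * Real.log n / n)) ≤
    volume {c : ℂ | ∃ z, N62a1eb23.IsAttractingCycle (f n c) 1 z} ∧
  volume {c : ℂ | ∃ z, N62a1eb23.IsAttractingCycle (f n c) 1 z} ≤
    ENNReal.ofReal (Real.pi * (1 - (2 - ε) * Real.log n / n))

/-- ESC: large modulus of the rescaled orbit means escape. -/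
def P_ESC : Prop := ∀ n : ℕ, 10 ^ 6 ≤ n → ∀ (c : ℂ) (j : ℕ), 1 ≤ Y n c →
  10 * n < ‖X n c (j + 1)‖ → c ∉ N62a1eb23.multibrotSet n

/-- WIN: windows for the iterated exponentials. -/
def P_WIN : Prop := ∀ (k : ℕ) (ε A : ℝ), 0 < ε → ∀ᶠ n : ℕ in atTop,
  (1 ≤ k → E2^[k] (Real.log^[k] (n:ℝ) / 10) ≤ ε * n) ∧
  ∀ η : ℝ, 0 < η → 8 ≤ η * A → 1 ≤ A →
    A * Real.log (n:ℝ) ≤ (fun R : ℝ => Real.exp (η * R / 4))^[k] (A * Real.log^[k + 1] (n:ℝ))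

end Pool.Agent.N228.AZ
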