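import Mathlib
import Pool.Agent.N228.AZ.Stm
import Pool.Agent.TH363.CD.Uniq

/-! # Project AZ: statements, part 2 -/

set_option autoImplicit false
open Metric MeasureTheory Set Filter Topology

namespace Pool.Agent.N228.AZ

open Pool.Agent.W747.MB
open Pool.Agent.TH363.CD

/-- the annulus -/
def Zn (n : ℕ) (a b : ℝ) : Set ℂ := {c : ℂ | a ≤ Y n c ∧ Y n c ≤ b}

/-- MEAS: measurability. -/
def P_MEAS : Prop := ∀ n : ℕ, 2 ≤ n → MeasurableSet (N62a1eb23.multibrotSet n) ∧ ∀ m : ℕ,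
  MeasurableSet (Ex n m) ∧ MeasurableSet {c : ℂ | ∃ z, N62a1eb23.IsAttractingCycle (f n c) m z}

/-- ZONE: lower bounds for the densities in the `k`-th zone. -/
def P_ZONE : Prop := ∀ (k : ℕ) (δ : ℝ), 1 ≤ k → 0 < δ → ∃ A : ℝ, 1 ≤ A ∧ ∀ᶠ n : ℕ in atTop,
  ∀ a b : ℝ, A * Real.log^[k] (n:ℝ) ≤ a → A * a ≤ b → b ≤ Real.log^[k - 1] (n:ℝ) / A →
    (∀ j, 1 ≤ j → j ≤ k → ENNReal.ofReal ((1 / 2) ^ j - δ) * volume (Zn n a b) ≤
      volume (Ex n (j + 1) ∩ Zn n a b)) ∧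
    ENNReal.ofReal ((1 / 2) ^ k - δ) * volume (Zn n a b) ≤
      volume (Zn n a b \ N62a1eb23.multibrotSet n)

/-- ZONE2: two-sided bounds for the densities in the `k`-th zone. -/
def P_ZONE2 : Prop := ∀ (k : ℕ) (δ : ℝ), 1 ≤ k → 0 < δ → ∃ A : ℝ, 1 ≤ A ∧ ∀ᶠ n : ℕ in atTop,
  ∀ a b : ℝ, A * Real.log^[k] (n:ℝ) ≤ a → A * a ≤ b → b ≤ Real.log^[k - 1] (n:ℝ) / A →
    (∀ j, 1 ≤ j → j ≤ k →
      |(volume (Ex n (j + 1) ∩ Zn n a b)).toReal / (volume (Zn n a b)).toReal - (1 / 2) ^ j| ≤ δ) ∧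
    |(volume (Zn n a b \ N62a1eb23.multibrotSet n)).toReal / (volume (Zn n a b)).toReal -
      (1 / 2) ^ k| ≤ δ

/-- LIM: the exact constants in the areas. -/
def P_LIM : Prop := ∀ k : ℕ, 1 ≤ k →
  Tendsto (fun n : ℕ => n * (volume (Ex n (k + 1))).toReal / Real.log^[k] (n:ℝ)) atTop
    (𝓝 (Real.pi / 2 ^ (k - 1))) ∧
  Tendsto (fun n : ℕ => n * (volume (NN n k)).toReal / Real.log^[k] (n:ℝ)) atTop
    (𝓝 (Real.pi / 2 ^ (k - 1)))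

/-- AREA: the area of the Multibrot sets. -/
def P_AREA : Prop :=
  Tendsto (fun n : ℕ => n * (Real.pi - (volume (N62a1eb23.multibrotSet n)).toReal) /
    Real.log (n:ℝ)) atTop (𝓝 Real.pi) ∧
  Tendsto (fun n : ℕ => n * (Real.pi - (volume (hyp n)).toReal) /
    Real.log (n:ℝ)) atTop (𝓝 Real.pi)

/-! The parts handed out. -/

def P_UP : Prop := P_MEAS → P_ZONE → P_ZONE2

def P_TOLIM : Prop := P_MEAS → P_ANU → P_ZONE → P_LIM

def P_TOAREA : Prop := P_MEAS → P_MAIN → P_LIM → P_AREA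

end Pool.Agent.N228.AZ
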