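import Mathlib
import Pool.Agent.N228.AZ.Stm2

/-! # Project AZ: statements, part 3 (asymptotic expansions) -/

set_option autoImplicit false
open Metric MeasureTheory Set Filter Topology

namespace Pool.Agent.N228.AZ

open Pool.Agent.W747.MB
open Pool.Agent.TH363.CD

/-- WAVG: weighted averaging over balls of slowly varying radius. -/
def P_WAVG : Prop := ∀ (S F : Set ℂ) (r a K : ℂ → ℝ), MeasurableSet S → Measurable r →
  Measurable a → Measurable K → (∀ x ∈ S, 0 < r x ∧ 0 ≤ a x ∧ 1 ≤ K x) →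
  (∀ x ∈ S, ENNReal.ofReal (a x) * volume (closedBall x (r x)) ≤
    volume (F ∩ closedBall x (r x))) →
  (∀ x ∈ S, ∀ x' ∈ S, ∀ y, y ∈ closedBall x (r x) → y ∈ closedBall x' (r x') →
    r x' ≤ K x * r x) →
  ∫⁻ x in S, ENNReal.ofReal (a x / K x ^ 2) ≤ volume F

/-- ROT: equidistribution of the argument of `c ^ (n - 1)` on circles, by rotations. -/
def P_ROT : Prop := ∀ (n : ℕ) (τ a b : ℝ) (h φ : ℝ → ℝ), 2 ≤ n → (τ = 1 ∨ τ = -1) →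
  Measurable h → Measurable φ → 0 < a →
  (∀ y, a ≤ y → y ≤ b → 0 ≤ h y ∧ h y ≤ 1 ∧ 0 ≤ φ y) →
  ∫⁻ c in Zn n a b, ENNReal.ofReal ((1 - h (Y n c)) / 2 * φ (Y n c)) ≤
    ∫⁻ c in {c : ℂ | c ∈ Zn n a b ∧ h (Y n c) * Y n c ≤ τ * ((n:ℂ) * c ^ (n - 1)).re},
      ENNReal.ofReal (φ (Y n c))

/-- RAD: an integral over an annulus. -/
def P_RAD : Prop := ∃ C : ℝ, 0 < C ∧ ∀ (n : ℕ) (a b : ℝ), 2 ≤ n → 1 ≤ a → a ≤ b → b ≤ 2 * n →
  ∫⁻ c in Zn n a b, ENNReal.ofReal ((Y n c) ^ (-(1 / 4) : ℝ) + Y n c / b + a / Y n c) ≤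
    ENNReal.ofReal (C / n)

/-- ANU2: the area of an annulus with error `O(1 / n)`. -/
def P_ANU2 : Prop := ∃ C : ℝ, 0 < C ∧ ∀ᶠ n : ℕ in atTop, ∀ a b : ℝ, 1 / 3 ≤ a → a ≤ b →
  b ≤ 2 * n → |n * (volume (Zn n a b)).toReal - 2 * Real.pi * Real.log (b / a)| ≤ C

/-- MAIN2: the area of the main component with error `O(1 / n)`. -/
def P_MAIN2 : Prop := ∃ C : ℝ, 0 < C ∧ ∀ᶠ n : ℕ in atTop,
  |n * (Real.pi - (volume {c : ℂ | ∃ z, N62a1eb23.IsAttractingCycle (f n c) 1 z}).toReal) -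
    2 * Real.pi * Real.log n| ≤ C

/-- SZ: lower bounds in the `k`-th zone with error `O(1 / n)`. -/
def P_SZ : Prop := ∀ k : ℕ, 1 ≤ k → ∃ C : ℝ, 0 < C ∧ ∀ᶠ n : ℕ in atTop,
  (∀ j, 1 ≤ j → j ≤ k → ENNReal.ofReal ((1 / 2) ^ j) *
      volume (Zn n (Real.log^[k] (n:ℝ)) (Real.log^[k - 1] (n:ℝ))) ≤
    volume (Ex n (j + 1) ∩ Zn n (Real.log^[k] (n:ℝ)) (Real.log^[k - 1] (n:ℝ))) +
      ENNReal.ofReal (C / n)) ∧
  ENNReal.ofReal ((1 / 2) ^ k) *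
      volume (Zn n (Real.log^[k] (n:ℝ)) (Real.log^[k - 1] (n:ℝ))) ≤
    volume (Zn n (Real.log^[k] (n:ℝ)) (Real.log^[k - 1] (n:ℝ)) \ N62a1eb23.multibrotSet n) +
      ENNReal.ofReal (C / n)

/-- FULL: the expansion of the area of the parameters of exact period `k + 1`. -/
def P_FULL : Prop := ∀ k K : ℕ, 1 ≤ k → ∃ C : ℝ, 0 < C ∧ ∀ᶠ n : ℕ in atTop,
  |n * (volume (Ex n (k + 1))).toReal - Real.pi / 2 ^ (k - 1) * Real.log^[k] (n:ℝ)| ≤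
    C * Real.log^[K] (n:ℝ)

/-- AREA2: the expansion of the area of the Multibrot sets. -/
def P_AREA2 : Prop := ∀ K : ℕ, ∃ C : ℝ, 0 < C ∧ ∀ᶠ n : ℕ in atTop,
  |n * (Real.pi - (volume (N62a1eb23.multibrotSet n)).toReal) -
    (2 * Real.pi * Real.log n -
      ∑ j ∈ Finset.range K, Real.pi / 2 ^ j * Real.log^[j + 1] (n:ℝ))| ≤
    C * Real.log^[K + 1] (n:ℝ) ∧
  |n * (Real.pi - (volume (hyp n)).toReal) -
    (2 * Real.pi * Real.log n -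
      ∑ j ∈ Finset.range K, Real.pi / 2 ^ j * Real.log^[j + 1] (n:ℝ))| ≤
    C * Real.log^[K + 1] (n:ℝ)

/-! The parts handed out. -/

def P_TOFULL : Prop := P_MEAS → P_ANU2 → P_SZ → P_FULL

def P_TOAREA2 : Prop := P_MEAS → P_MAIN2 → P_FULL → P_AREA2

end Pool.Agent.N228.AZ
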