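import Mathlib
import Pool.Agent.N228.AZ.Stm

/-! # Functions with almost constant logarithmic derivative -/

set_option autoImplicit false
open Metric MeasureTheory Set Filter Topology

namespace Pool.Agent.N228.AZ

theorem expl : P_EXPL := by
  intro g ℓ c₀ ℓ₀ r κ hr hκ0 hκ hg0 h c hc
  set B := closedBall c₀ r with hB
  have hc₀ : c₀ ∈ B := mem_closedBall_self hr.le
  set k : ℂ → ℂ := fun c => g c * Complex.exp (-(ℓ₀ * (c - c₀))) with hk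
  have hder : ∀ x ∈ B, HasDerivAt k (k x * (ℓ x - ℓ₀)) x := by
    intro x hx
    have h1 := (h x hx).1
    have h2 : HasDerivAt (fun c : ℂ => -(ℓ₀ * (c - c₀))) (-(ℓ₀ * 1)) x :=
      (((hasDerivAt_id x).sub_const c₀).const_mul ℓ₀).neg
    have h3 := h1.mul h2.cexp
    refine h3.congr_deriv ?_
    rw [hk]
    ring
  have hcont : ContinuousOn (fun x => ‖k x‖) B := fun x hx =>
    (hder x hx).continuousAt.norm.continuousWithinAt
  obtain ⟨y, hyB, hy⟩ := (isCompact_closedBall c₀ r).exists_isMaxOn ⟨c₀, hc₀⟩ hcont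
  have hk0 : k c₀ = g c₀ := by simp [hk]
  have hdiff : ∀ x ∈ B, ‖k x - k c₀‖ ≤ κ * ‖k y‖ := by
    intro x hx
    have h1 := (convex_closedBall c₀ r).norm_image_sub_le_of_norm_hasDerivWithin_le
      (f := k) (f' := fun x => k x * (ℓ x - ℓ₀)) (C := ‖k y‖ * (κ / r))
      (fun z hz => (hder z hz).hasDerivWithinAt) (fun z hz => by
        rw [norm_mul]
        have h2 : ‖ℓ z - ℓ₀‖ ≤ κ / r := by
          rw [le_div_iff₀ hr]; exact (h z hz).2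
        exact mul_le_mul (hy hz) h2 (norm_nonneg _) (norm_nonneg _)) hc₀ hx
    refine h1.trans ?_
    have h3 : ‖x - c₀‖ ≤ r := by rw [← dist_eq_norm]; exact hx
    calc ‖k y‖ * (κ / r) * ‖x - c₀‖ ≤ ‖k y‖ * (κ / r) * r := by gcongr
      _ = κ * ‖k y‖ := by field_simp
  have hmax : ‖k y‖ ≤ 4 / 3 * ‖g c₀‖ := by
    have h1 := hdiff y hyB
    have h2 : ‖k y‖ ≤ ‖k c₀‖ + ‖k y - k c₀‖ := by
      calc ‖k y‖ = ‖k c₀ + (k y - k c₀)‖ := by congr 1; ring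
        _ ≤ _ := norm_add_le _ _
    rw [hk0] at h2
    have h3 : κ * ‖k y‖ ≤ 1 / 4 * ‖k y‖ := mul_le_mul_of_nonneg_right hκ (norm_nonneg _)
    rw [hk0] at h1
    linarith
  have h1 := hdiff c hc
  rw [hk0] at h1
  have h2 : g c - g c₀ * Complex.exp (ℓ₀ * (c - c₀)) =
      (k c - g c₀) * Complex.exp (ℓ₀ * (c - c₀)) := by
    rw [sub_mul]
    congr 1
    rw [hk]
    simp only
    rw [mul_assoc, ← Complex.exp_add]
    simp
  rw [h2, norm_mul, norm_mul]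
  have h3 : 0 ≤ ‖Complex.exp (ℓ₀ * (c - c₀))‖ := norm_nonneg _
  calc ‖k c - g c₀‖ * ‖Complex.exp (ℓ₀ * (c - c₀))‖
      ≤ (κ * (4 / 3 * ‖g c₀‖)) * ‖Complex.exp (ℓ₀ * (c - c₀))‖ := by
        apply mul_le_mul_of_nonneg_right _ h3
        exact h1.trans (mul_le_mul_of_nonneg_left hmax hκ0)
    _ ≤ 2 * κ * (‖g c₀‖ * ‖Complex.exp (ℓ₀ * (c - c₀))‖) := by
        have : 0 ≤ κ * (‖g c₀‖ * ‖Complex.exp (ℓ₀ * (c - c₀))‖) := by positivity
        nlinarith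

/-- The direction of `g` in terms of the linear phase; `τ = 1` or `τ = -1`. -/
theorem phase {g ℓ : ℂ → ℂ} {c₀ ℓ₀ : ℂ} {r κ η τ : ℝ} (hr : 0 < r) (hκ0 : 0 ≤ κ) (hκ : κ ≤ 1 / 4)
    (hη0 : 0 ≤ η) (hη : η ≤ 1) (hτ : τ = 1 ∨ τ = -1)
    (hg0 : g c₀ ≠ 0)
    (h : ∀ c ∈ closedBall c₀ r, HasDerivAt g (g c * ℓ c) c ∧ ‖ℓ c - ℓ₀‖ * r ≤ κ) :
    ∃ φ : ℝ, ∀ c ∈ closedBall c₀ r,
      η + 6 * κ ≤ Real.cos (φ + (-(Complex.I * ℓ₀) * (c - c₀)).re) → η * ‖g c‖ ≤ τ * (g c).re := by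
  obtain ⟨ψ, hψ⟩ : ∃ ψ : ℝ, Complex.exp (ψ * Complex.I) = τ := by
    rcases hτ with rfl | rfl
    · exact ⟨0, by simp⟩
    · exact ⟨Real.pi, by simp [Complex.exp_pi_mul_I]⟩
  refine ⟨Complex.arg (g c₀) + ψ, fun c hc hcos => ?_⟩
  have h1 := expl g ℓ c₀ ℓ₀ r κ hr hκ0 hκ hg0 h c hc
  set E := g c₀ * Complex.exp (ℓ₀ * (c - c₀)) with hE
  have hnE : ‖E‖ = ‖g c₀‖ * Real.exp ((ℓ₀ * (c - c₀)).re) := by
    rw [hE, norm_mul, Complex.norm_exp]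
  have hEform : (τ : ℂ) * E = (‖E‖ : ℂ) *
      Complex.exp (((Complex.arg (g c₀) + ψ + (ℓ₀ * (c - c₀)).im : ℝ) : ℂ) * Complex.I) := by
    have h2 : g c₀ = ‖g c₀‖ * Complex.exp (Complex.arg (g c₀) * Complex.I) :=
      (Complex.norm_mul_exp_arg_mul_I _).symm
    have h3 : Complex.exp (ℓ₀ * (c - c₀)) = (Real.exp ((ℓ₀ * (c - c₀)).re) : ℂ) *
        Complex.exp (((ℓ₀ * (c - c₀)).im : ℂ) * Complex.I) := by
      rw [Complex.ofReal_exp, ← Complex.exp_add, Complex.re_add_im]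
    rw [hnE, ← hψ, hE]
    conv_lhs => rw [h2, h3]
    push_cast
    rw [add_mul, add_mul, Complex.exp_add, Complex.exp_add]
    ring
  have hre : (-(Complex.I * ℓ₀) * (c - c₀)).re = (ℓ₀ * (c - c₀)).im := by
    have : -(Complex.I * ℓ₀) * (c - c₀) = -(Complex.I * (ℓ₀ * (c - c₀))) := by ring
    rw [this, Complex.neg_re, Complex.I_mul_re]
    ring
  rw [hre] at hcos
  have hτE : τ * E.re = ‖E‖ * Real.cos (Complex.arg (g c₀) + ψ + (ℓ₀ * (c - c₀)).im) := by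
    have h2 := congrArg Complex.re hEform
    rw [Complex.re_ofReal_mul, Complex.re_ofReal_mul, Complex.exp_ofReal_mul_I_re] at h2
    exact h2
  have hE0 : 0 ≤ ‖E‖ := norm_nonneg _
  have hge : ‖E‖ * (η + 6 * κ) ≤ τ * E.re := by
    rw [hτE]
    exact mul_le_mul_of_nonneg_left hcos hE0
  have hdre : |(g c - E).re| ≤ 2 * κ * ‖E‖ := (Complex.abs_re_le_norm _).trans h1
  rw [Complex.sub_re] at hdre
  have h4 : τ * E.re - 2 * κ * ‖E‖ ≤ τ * (g c).re := by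
    rcases hτ with rfl | rfl
    · have := (abs_le.1 hdre).1
      linarith
    · have := (abs_le.1 hdre).2
      linarith
  have h5 : ‖g c‖ ≤ ‖E‖ + 2 * κ * ‖E‖ := by
    calc ‖g c‖ = ‖E + (g c - E)‖ := by congr 1; ring
      _ ≤ ‖E‖ + ‖g c - E‖ := norm_add_le _ _
      _ ≤ _ := by linarith
  have h6 : η * ‖g c‖ ≤ η * (‖E‖ + 2 * κ * ‖E‖) := mul_le_mul_of_nonneg_left h5 hη0
  have h7 : η * (2 * κ * ‖E‖) ≤ 2 * κ * ‖E‖ := by
    have : 0 ≤ 2 * κ * ‖E‖ := by positivity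
    nlinarith
  have h8 : ‖E‖ * (η + 6 * κ) = η * ‖E‖ + 6 * κ * ‖E‖ := by ring
  have h9 : 0 ≤ κ * ‖E‖ := by positivity
  nlinarith

end Pool.Agent.N228.AZ
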