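import Mathlib
import Pool.Agent.N228.AZ.Expl

/-! # One stage, for all parameters of a disc -/

set_option autoImplicit false
open Metric MeasureTheory Set Filter Topology

namespace Pool.Agent.N228.AZ

open Pool.Agent.W747.MB
open Pool.Agent.TH363.CD

theorem varX {n : ℕ} (hn : 2 ≤ n) {c₀ : ℂ} {j : ℕ} (hgeo : Geo n c₀ j) {c : ℂ}
    (hc : c ∈ DD n c₀ j) :
    ‖X n c j - X n c₀ j‖ ≤ 11 / 10 * ‖X n c₀ j‖ * ‖L n c₀ j‖ * ‖c - c₀‖ ∧
    ‖L n c j - L n c₀ j‖ ≤ 11 / 10 * ‖L n c₀ j‖ ^ 2 * ‖c - c₀‖ := by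
  have hl : 0 < ‖L n c₀ j‖ := norm_pos_iff.2 hgeo.L0
  have hc₀ : c₀ ∈ DD n c₀ j := mem_closedBall_self (by positivity)
  have hX : ∀ x ∈ DD n c₀ j, ‖X n x j‖ ≤ 51 / 50 * ‖X n c₀ j‖ ∧ ‖L n x j‖ ≤ 51 / 50 * ‖L n c₀ j‖ := by
    intro x hx
    obtain ⟨v1, v2, -⟩ := hVar n hn c₀ j hgeo x hx
    constructor
    · calc ‖X n x j‖ = ‖X n c₀ j + (X n x j - X n c₀ j)‖ := by congr 1; ring
        _ ≤ ‖X n c₀ j‖ + ‖X n x j - X n c₀ j‖ := norm_add_le _ _
        _ ≤ _ := by linarith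
    · calc ‖L n x j‖ = ‖L n c₀ j + (L n x j - L n c₀ j)‖ := by congr 1; ring
        _ ≤ ‖L n c₀ j‖ + ‖L n x j - L n c₀ j‖ := norm_add_le _ _
        _ ≤ _ := by linarith
  have hder := fun x (hx : x ∈ DD n c₀ j) =>
    Pool.Agent.W366.MB.main n hn x j (hgeo.nz x hx).1 (hgeo.nz x hx).2
  constructor
  · refine (convex_closedBall c₀ _).norm_image_sub_le_of_norm_hasDerivWithin_le
      (f := fun c => X n c j) (f' := fun x => X n x j * L n x j)
      (C := 11 / 10 * ‖X n c₀ j‖ * ‖L n c₀ j‖)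
      (fun z hz => (hder z hz).1.hasDerivWithinAt) (fun z hz => ?_) hc₀ hc
    rw [norm_mul]
    obtain ⟨h1, h2⟩ := hX z hz
    calc ‖X n z j‖ * ‖L n z j‖ ≤ (51 / 50 * ‖X n c₀ j‖) * (51 / 50 * ‖L n c₀ j‖) := by gcongr
      _ ≤ 11 / 10 * ‖X n c₀ j‖ * ‖L n c₀ j‖ := by
        have : 0 ≤ ‖X n c₀ j‖ * ‖L n c₀ j‖ := by positivity
        nlinarith
  · refine (convex_closedBall c₀ _).norm_image_sub_le_of_norm_hasDerivWithin_le
      (f := fun c => L n c j) (f' := fun x => M n x j)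
      (C := 11 / 10 * ‖L n c₀ j‖ ^ 2)
      (fun z hz => (hder z hz).2.hasDerivWithinAt) (fun z hz => ?_) hc₀ hc
    refine (hgeo.nu z hz).trans ?_
    obtain ⟨h1, h2⟩ := hX z hz
    calc ‖L n z j‖ ^ 2 ≤ (51 / 50 * ‖L n c₀ j‖) ^ 2 := by gcongr
      _ ≤ 11 / 10 * ‖L n c₀ j‖ ^ 2 := by nlinarith [sq_nonneg ‖L n c₀ j‖]

/-- numerical consequences of the size condition -/
theorem big_num {η R : ℝ} (hη0 : 0 < η) (hη : η ≤ 1) (hR : 10 ^ 40 ≤ η ^ 2 * R) :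
    10 ^ 40 ≤ R ∧ 10 ^ 39 ≤ η * R / 4 ∧ R ≤ (η * R / 4) ^ 2 ∧ R ^ 8 ≤ Real.exp (η * R / 4) := by
  have h1 : (10:ℝ) ^ 40 ≤ R := by
    have h2 : η ^ 2 ≤ 1 := by nlinarith
    have hR0 : 0 ≤ R := by
      by_contra h
      push Not at h
      nlinarith [sq_nonneg η]
    nlinarith
  have hR0 : 0 < R := lt_of_lt_of_le (by norm_num) h1
  have h2 : (10:ℝ) ^ 40 ≤ η * R := by
    have : η ^ 2 * R ≤ η * R := by
      have : η ^ 2 ≤ η := by nlinarith
      gcongr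
    linarith
  have h3 : (10:ℝ) ^ 39 ≤ η * R / 4 := by linarith
  have h4 : R ≤ (η * R / 4) ^ 2 := by
    have h5 : (η * R / 4) ^ 2 = (η ^ 2 * R) * R / 16 := by ring
    rw [h5]
    nlinarith
  refine ⟨h1, h3, h4, ?_⟩
  set x := η * R / 4 with hx
  have hx0 : 0 < x := lt_of_lt_of_le (by norm_num) h3
  have h6 : R ^ 8 ≤ x ^ 16 := by
    calc R ^ 8 ≤ (x ^ 2) ^ 8 := pow_le_pow_left₀ hR0.le h4 8
      _ = x ^ 16 := by ring
  refine h6.trans ?_
  -- `x ≤ exp (x / 16)`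
  have h7 : x ≤ Real.exp (x / 16) := by
    have h8 := Real.quadratic_le_exp_of_nonneg (x := x / 16) (by positivity)
    have h9 : x ≤ (x / 16) ^ 2 / 2 := by nlinarith
    linarith [show 0 ≤ x / 16 by positivity]
  calc x ^ 16 ≤ Real.exp (x / 16) ^ 16 := pow_le_pow_left₀ hx0.le h7 16
    _ = Real.exp x := by
      rw [← Real.exp_nat_mul]
      congr 1
      push_cast
      ring

/-- From level `j` to level `j + 1`. -/
theorem next {n : ℕ} (hn : 10 ^ 6 ≤ n) {c₀ : ℂ} {j : ℕ} {D R η : ℝ} (cf : Cf n c₀ j D)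
    (hη0 : 0 < η) (hη : η ≤ 1) (hX : ‖X n c₀ j‖ = R) (hbig : 10 ^ 40 ≤ η ^ 2 * R) (hRn : R ≤ n / 10)
    (hlog : Real.log D ^ 4 ≤ R) (hY : Y n c₀ ≤ 2 * R) (hexp : Real.exp (2 * R) ≤ 3 * n) {c₁ : ℂ}
    (hc₁ : c₁ ∈ dd n c₀ j) (hre : η / 2 * R ≤ (X n c₁ j).re) :
    Real.exp (η * R / 4) ≤ ‖X n c₁ (j + 1)‖ ∧ ‖X n c₁ (j + 1)‖ ≤ Real.exp (2 * R) ∧
      Cf n c₁ (j + 1) (2 * ‖X n c₁ (j + 1)‖ * D) ∧
      Real.log (2 * ‖X n c₁ (j + 1)‖ * D) ^ 4 ≤ ‖X n c₁ (j + 1)‖ ∧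
      Y n c₁ ≤ 2 * ‖X n c₁ (j + 1)‖ ∧
      4 / 5 * (R * ‖L n c₀ j‖) ≤ ‖L n c₁ (j + 1)‖ ∧
      ‖L n c₁ (j + 1)‖ ≤ 6 / 5 * (R * ‖L n c₀ j‖) := by
  obtain ⟨hR40, hx39, hRx, hR8⟩ := big_num hη0 hη hbig
  have hR : (10:ℝ) ^ 20 ≤ R := le_trans (by norm_num) hR40
  have hn' : (10:ℝ) ^ 6 ≤ n := by exact_mod_cast hn
  have hn0 : (0:ℝ) < n := by linarith
  have hn2 : 2 ≤ n := le_trans (by norm_num) hn
  have hR0 : 0 < R := lt_of_lt_of_le (by norm_num) hR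
  have hR6 : (10:ℝ) ^ 6 ≤ R := le_trans (by norm_num) hR
  have hD0 : 0 < D := by linarith [cf.D1]
  set l : ℝ := ‖L n c₀ j‖ with hl
  have hl0 : 0 < l := norm_pos_iff.2 cf.geo.L0
  have hDDdef : DD n c₀ j = closedBall c₀ (1 / (100 * l)) := rfl
  have hsub2 : dd n c₀ j ⊆ DD n c₀ j := by
    rw [hDDdef]
    apply closedBall_subset_closedBall
    gcongr
    norm_num
  set ℓ₀ : ℂ := X n c₀ j * L n c₀ j with hℓ₀
  have hℓn : ‖ℓ₀‖ = R * l := by rw [hℓ₀, norm_mul, hX]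
  have hRl : 0 < R * l := by positivity
  have hc₁D : c₁ ∈ DD n c₀ j := hsub2 hc₁
  obtain ⟨v1, v2, v3⟩ := hVar n hn2 c₀ j cf.geo c₁ hc₁D
  rw [hX] at v2
  set t := ‖X n c₁ (j + 1)‖ with htd
  have hteq : t = Y n c₁ * ‖A n c₁ j‖ ^ n := Pool.Agent.W12.MB.norm_X n c₁ j
  have hY1 : 1 ≤ Y n c₁ := cf.y1 c₁ hc₁D
  have hY0 : 1 ≤ Y n c₀ := cf.y1 c₀ (mem_closedBall_self (by positivity))
  have hY2 : Y n c₁ ≤ 3 * R := by
    have := (abs_le.1 v3).2
    linarith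
  have h100 := exp_big (R := R) (by linarith)
  -- upper bound
  have hXle : ‖X n c₁ j‖ ≤ 51 / 50 * R := by
    have h2 : ‖X n c₁ j‖ ≤ ‖X n c₀ j‖ + ‖X n c₁ j - X n c₀ j‖ := by
      calc ‖X n c₁ j‖ = ‖X n c₀ j + (X n c₁ j - X n c₀ j)‖ := by congr 1; ring
        _ ≤ _ := norm_add_le _ _
    linarith
  have hup : t ≤ Real.exp (2 * R) := by
    have h1 : ‖A n c₁ j‖ ≤ Real.exp (51 / 50 * R / n) := by
      have h2 := Real.add_one_le_exp (51 / 50 * R / n)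
      have h3 : ‖A n c₁ j‖ ≤ 1 + ‖X n c₁ j‖ / n := by
        unfold A
        refine (norm_add_le _ _).trans ?_
        rw [norm_one, norm_div, Complex.norm_natCast]
      have h4 : ‖X n c₁ j‖ / n ≤ 51 / 50 * R / n := by gcongr
      linarith
    have h2 : ‖A n c₁ j‖ ^ n ≤ Real.exp (51 / 50 * R) := by
      calc ‖A n c₁ j‖ ^ n ≤ Real.exp (51 / 50 * R / n) ^ n :=
            pow_le_pow_left₀ (norm_nonneg _) h1 _
        _ = Real.exp (51 / 50 * R) := by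
            rw [← Real.exp_nat_mul]
            congr 1
            field_simp
    rw [hteq]
    calc Y n c₁ * ‖A n c₁ j‖ ^ n ≤ (3 * R) * Real.exp (51 / 50 * R) := by gcongr
      _ ≤ Real.exp (R / 2) * Real.exp (51 / 50 * R) := by
          apply mul_le_mul_of_nonneg_right _ (Real.exp_pos _).le
          linarith
      _ ≤ Real.exp (2 * R) := by
          rw [← Real.exp_add]
          apply Real.exp_le_exp.2
          linarith
  -- lower bound
  have hlow : Real.exp (η * R / 4) ≤ t := by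
    set v := η * R / (4 * n) with hv
    have hv0 : 0 < v := by positivity
    have hv1 : v ≤ 1 / 40 := by
      rw [hv, div_le_iff₀ (by positivity)]
      nlinarith
    have h1 : Real.exp v ≤ ‖A n c₁ j‖ := by
      have h2 : Real.exp v ≤ 1 / (1 - v) := by
        have h3 := Real.add_one_le_exp (-v)
        rw [Real.exp_neg] at h3
        rw [le_div_iff₀ (by linarith)]
        have h4 := Real.exp_pos v
        calc Real.exp v * (1 - v) ≤ Real.exp v * (Real.exp v)⁻¹ := by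
              apply mul_le_mul_of_nonneg_left _ h4.le
              linarith
          _ = 1 := mul_inv_cancel₀ h4.ne'
      have h3 : 1 / (1 - v) ≤ 1 + 2 * v := by
        rw [div_le_iff₀ (by linarith)]
        nlinarith
      have h4 : (A n c₁ j).re = 1 + (X n c₁ j).re / n := by
        unfold A
        rw [Complex.add_re, Complex.one_re, Complex.div_natCast_re]
      have h5 : (A n c₁ j).re ≤ ‖A n c₁ j‖ := Complex.re_le_norm _
      have h6 : η / 2 * R / n ≤ (X n c₁ j).re / n := by gcongr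
      have h7 : η / 2 * R / n = 2 * v := by rw [hv]; field_simp; norm_num
      linarith
    have h2 : Real.exp (η * R / 4) ≤ ‖A n c₁ j‖ ^ n := by
      calc Real.exp (η * R / 4) = Real.exp v ^ n := by
            rw [← Real.exp_nat_mul]
            congr 1
            rw [hv]
            field_simp
        _ ≤ _ := pow_le_pow_left₀ (Real.exp_pos _).le h1 _
    rw [hteq]
    nlinarith [Real.exp_pos (η * R / 4)]
  have hR8t : R ^ 8 ≤ t := hR8.trans hlow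
  have hRt : 2 * R ≤ t := by
    have h1 : R ^ 8 = R * R ^ 7 := by ring
    have h2 : (2:ℝ) ≤ R ^ 7 := by
      have : (1:ℝ) ≤ R ^ 6 := one_le_pow₀ (by linarith)
      have h3 : R ^ 7 = R * R ^ 6 := by ring
      rw [h3]
      nlinarith
    nlinarith
  have ht0 : 0 < t := by linarith
  have ht1 : 1 ≤ t := by linarith
  have ht3 : t ≤ 3 * n := hup.trans hexp
  obtain ⟨g1, g2, g3⟩ := hStg n hn c₀ c₁ j cf.geo (by rw [hX]; exact le_trans (by norm_num) hR)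
    (by rw [hX]; linarith) (by linarith) (by linarith) hc₁ ht1 ht3
  have hDD' : D ≤ 2 * t * D := by nlinarith
  have hL1 := (Lnext hn cf hX hR hRn hc₁D).2
  have hL1' : 4 / 5 * (R * l) ≤ ‖L n c₁ (j + 1)‖ ∧ ‖L n c₁ (j + 1)‖ ≤ 6 / 5 * (R * l) := by
    rw [← hℓ₀, ← hl] at hL1
    have h2 : ‖ℓ₀‖ ≤ ‖L n c₁ (j + 1)‖ + ‖L n c₁ (j + 1) - ℓ₀‖ := by
      calc ‖ℓ₀‖ = ‖L n c₁ (j + 1) - (L n c₁ (j + 1) - ℓ₀)‖ := by congr 1; ring
        _ ≤ _ := norm_sub_le _ _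
    have h3 : ‖L n c₁ (j + 1)‖ ≤ ‖ℓ₀‖ + ‖L n c₁ (j + 1) - ℓ₀‖ := by
      calc ‖L n c₁ (j + 1)‖ = ‖ℓ₀ + (L n c₁ (j + 1) - ℓ₀)‖ := by congr 1; ring
        _ ≤ _ := norm_add_le _ _
    rw [hℓn] at h2 h3
    constructor <;> linarith
  refine ⟨hlow, hup, ⟨g1, by nlinarith [cf.D1], ?_, ?_, ?_⟩, ?_, by linarith, hL1'.1, hL1'.2⟩
  · intro c hc i hi1 hi2
    have hcD := g2 hc
    rcases Nat.lt_or_ge j i with h | h
    · obtain rfl : i = j + 1 := by omega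
      have hv := (hVar n hn2 c₁ (j + 1) g1 c hc).2.1
      rw [← htd] at hv
      have hX2 : ‖X n c (j + 1)‖ ≤ 51 / 50 * t := by
        have h2 : ‖X n c (j + 1)‖ ≤ ‖X n c₁ (j + 1)‖ + ‖X n c (j + 1) - X n c₁ (j + 1)‖ := by
          calc ‖X n c (j + 1)‖ = ‖X n c₁ (j + 1) + (X n c (j + 1) - X n c₁ (j + 1))‖ := by
                congr 1; ring
            _ ≤ _ := norm_add_le _ _
        linarith
      refine hPhs n hn2 c j D _ (cf.geo.nz c hcD).1 cf.D1 hDD'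
        (cf.ph c hcD j cf.geo.j1 le_rfl) (g3 c hc) ?_
      calc 3 / 2 * ‖X n c (j + 1)‖ * D ≤ 3 / 2 * (51 / 50 * t) * D := by gcongr
        _ ≤ 2 * t * D := by
            have : 0 ≤ t * D := by positivity
            nlinarith
    · exact PhAt.mono (by omega) (cf.ph c hcD i hi1 h) hD0 hDD'
  · intro c hc i hi1 hi2
    have hcD := g2 hc
    rcases Nat.lt_or_ge j i with h | h
    · obtain rfl : i = j + 1 := by omega
      have hv := (hVar n hn2 c₁ (j + 1) g1 c hc).2.1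
      rw [← htd] at hv
      have h2 : ‖X n c₁ (j + 1)‖ ≤ ‖X n c (j + 1)‖ + ‖X n c (j + 1) - X n c₁ (j + 1)‖ := by
        calc ‖X n c₁ (j + 1)‖ = ‖X n c (j + 1) - (X n c (j + 1) - X n c₁ (j + 1))‖ := by
              congr 1; ring
          _ ≤ _ := norm_sub_le _ _
      rw [← htd] at h2
      linarith
    · exact cf.far c hcD i hi1 h
  · intro c hc
    exact cf.y1 c (g2 hc)
  · have h1 := num1 (D := D) (u := Real.log t) cf.D1 ?_
    · rw [Real.exp_log ht0] at h1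
      exact h1
    · refine (umin_le cf.D1).trans ?_
      have h3 : η * R / 4 ≤ Real.log t := (Real.le_log_iff_exp_le ht0).2 hlow
      refine le_trans ?_ h3
      -- `47 + 8 log D ≤ η R / 4`
      have h4 : Real.log D ≤ (η * R / 4) / 16 := by
        by_contra hcon
        push Not at hcon
        set x := η * R / 4 with hx
        have hx0 : 0 < x := lt_of_lt_of_le (by norm_num) hx39
        have h5 : (x / 16) ^ 4 ≤ Real.log D ^ 4 := pow_le_pow_left₀ (by positivity) hcon.le 4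
        have h6 : (x / 16) ^ 4 = x ^ 2 * (x ^ 2 / 65536) := by ring
        have h7 : (2:ℝ) ≤ x ^ 2 / 65536 := by
          rw [le_div_iff₀ (by norm_num)]
          nlinarith
        have h8 : 0 < x ^ 2 := by positivity
        nlinarith
      linarith

end Pool.Agent.N228.AZ
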