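import Mathlib
import Pool.Agent.N228.AZ.Next

/-! # The local law of the next level -/

set_option autoImplicit false
open Metric MeasureTheory Set Filter Topology

namespace Pool.Agent.N228.AZ

open Pool.Agent.W747.MB
open Pool.Agent.TH363.CD

/-- the radius at level `j` -/
noncomputable def rad (n : ℕ) (c : ℂ) (j : ℕ) : ℝ :=
  ‖X n c j‖ ^ (1 / 4 : ℝ) / (‖X n c j‖ * ‖L n c j‖)

theorem half_disc (hLIN : P_LIN) {g ℓ : ℂ → ℂ} {c₀ ℓ₀ : ℂ} {r κ η τ : ℝ} (hr : 0 < r)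
    (hκ0 : 0 ≤ κ) (hη0 : 0 ≤ η) (hηκ : η + 6 * κ ≤ 1) (hτ : τ = 1 ∨ τ = -1) (hg0 : g c₀ ≠ 0)
    (hρ : 20 ≤ ‖ℓ₀‖ * r)
    (h : ∀ c ∈ closedBall c₀ r, HasDerivAt g (g c * ℓ c) c ∧ ‖ℓ c - ℓ₀‖ * r ≤ κ) :
    ENNReal.ofReal ((1 - (η + 6 * κ)) / 2 - 15 / (‖ℓ₀‖ * r)) * volume (closedBall c₀ r) ≤
      volume {c | c ∈ closedBall c₀ r ∧ η * ‖g c‖ ≤ τ * (g c).re} := by
  have hκ : κ ≤ 1 / 4 := by linarith
  have hη : η ≤ 1 := by linarith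
  obtain ⟨φ, hφ⟩ := phase hr hκ0 hκ hη0 hη hτ hg0 h
  have hw : ‖-(Complex.I * ℓ₀)‖ = ‖ℓ₀‖ := by
    rw [norm_neg, norm_mul, Complex.norm_I, one_mul]
  have h1 := hLIN c₀ (-(Complex.I * ℓ₀)) r φ (η + 6 * κ) hr (by rw [hw]; exact hρ)
    (by positivity) hηκ
  rw [hw] at h1
  refine h1.trans (measure_mono ?_)
  rintro c ⟨hc, h2⟩
  exact ⟨hc, hφ c hc h2⟩

/-- numerical consequences of the size condition -/
theorem rho_num {η R : ℝ} (hη0 : 0 < η) (hη : η ≤ 1) (hR : 10 ^ 40 ≤ η ^ 4 * R) :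
    10 ^ 40 ≤ η ^ 2 * R ∧ 10 ^ 10 / η ≤ R ^ (1 / 4 : ℝ) ∧ (R ^ (1 / 4 : ℝ)) ^ 4 = R ∧
      10 ^ 10 ≤ R ^ (1 / 4 : ℝ) := by
  have hR0 : 0 < R := by
    by_contra h
    push Not at h
    have : 0 < η ^ 4 := by positivity
    nlinarith
  have h1 : (10:ℝ) ^ 40 ≤ η ^ 2 * R := by
    have h2 : η ^ 4 ≤ η ^ 2 := pow_le_pow_of_le_one hη0.le hη (by norm_num)
    nlinarith
  have h4 : (R ^ (1 / 4 : ℝ)) ^ 4 = R := by
    rw [← Real.rpow_natCast, ← Real.rpow_mul hR0.le]; norm_num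
  have h5 : 10 ^ 10 / η ≤ R ^ (1 / 4 : ℝ) := by
    apply le_of_pow_le_pow_left₀ (n := 4) (by norm_num) (by positivity)
    rw [h4, div_pow, div_le_iff₀ (by positivity)]
    calc ((10:ℝ) ^ 10) ^ 4 = 10 ^ 40 := by norm_num
      _ ≤ η ^ 4 * R := hR
      _ = _ := by ring
  refine ⟨h1, h5, h4, le_trans ?_ h5⟩
  rw [le_div_iff₀ hη0]
  nlinarith

theorem rad_facts {n : ℕ} {c₀ : ℂ} {j : ℕ} {η R : ℝ} (hL : L n c₀ j ≠ 0)
    (hη0 : 0 < η) (hη : η ≤ 1) (hX : ‖X n c₀ j‖ = R) (hbig : 10 ^ 40 ≤ η ^ 4 * R) :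
    0 < rad n c₀ j ∧ rad n c₀ j * (R * ‖L n c₀ j‖) = R ^ (1 / 4 : ℝ) ∧
      rad n c₀ j ≤ 1 / (10 ^ 9 * ‖L n c₀ j‖) ∧ closedBall c₀ (rad n c₀ j) ⊆ dd n c₀ j := by
  obtain ⟨h1, h2, h3, h10⟩ := rho_num hη0 hη hbig
  obtain ⟨hR40, -, -, -⟩ := big_num hη0 hη h1
  have hR0 : 0 < R := lt_of_lt_of_le (by norm_num) hR40
  have hl : 0 < ‖L n c₀ j‖ := norm_pos_iff.2 hL
  have hρ0 : 0 < R ^ (1 / 4 : ℝ) := Real.rpow_pos_of_pos hR0 _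
  have hrad : rad n c₀ j = R ^ (1 / 4 : ℝ) / (R * ‖L n c₀ j‖) := by rw [rad, hX]
  have h4 : rad n c₀ j ≤ 1 / (10 ^ 9 * ‖L n c₀ j‖) := by
    rw [hrad, div_le_div_iff₀ (by positivity) (by positivity)]
    have h5 : 10 ^ 9 * R ^ (1 / 4 : ℝ) ≤ R := by
      set ρ := R ^ (1 / 4 : ℝ) with hρ
      have h6 : (10:ℝ) ^ 9 ≤ ρ ^ 3 := by
        have : (1:ℝ) ≤ ρ := by linarith
        have h7 : ρ ≤ ρ ^ 3 := le_self_pow₀ this (by norm_num)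
        linarith
      calc 10 ^ 9 * ρ ≤ ρ ^ 3 * ρ := by gcongr
        _ = R := by rw [← h3]; ring
    calc R ^ (1 / 4 : ℝ) * (10 ^ 9 * ‖L n c₀ j‖) = (10 ^ 9 * R ^ (1 / 4 : ℝ)) * ‖L n c₀ j‖ := by ring
      _ ≤ R * ‖L n c₀ j‖ := by gcongr
      _ = _ := by ring
  refine ⟨by rw [hrad]; positivity, by rw [hrad]; field_simp, h4, ?_⟩
  unfold dd
  apply closedBall_subset_closedBall
  refine h4.trans ?_
  gcongr
  norm_num

theorem dd_sub {n : ℕ} {c₀ : ℂ} {j : ℕ} (hL : L n c₀ j ≠ 0) : dd n c₀ j ⊆ DD n c₀ j := by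
  have hl : 0 < ‖L n c₀ j‖ := norm_pos_iff.2 hL
  unfold dd DD
  apply closedBall_subset_closedBall
  gcongr
  norm_num

/-- the variation on the disc of radius `rad` -/
theorem var_rad {n : ℕ} (hn : 10 ^ 6 ≤ n) {c₀ : ℂ} {j : ℕ} {D R η : ℝ} (cf : Cf n c₀ j D)
    (hη0 : 0 < η) (hη : η ≤ 1) (hX : ‖X n c₀ j‖ = R) (hbig : 10 ^ 40 ≤ η ^ 4 * R) {c : ℂ}
    (hc : c ∈ closedBall c₀ (rad n c₀ j)) :
    ‖X n c j - X n c₀ j‖ ≤ 11 / 10 * R ^ (1 / 4 : ℝ) ∧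
    ‖L n c j - L n c₀ j‖ * R ≤ 11 / 10 * ‖L n c₀ j‖ * R ^ (1 / 4 : ℝ) ∧
    11 / 10 * R ^ (1 / 4 : ℝ) ≤ η * R / 10 := by
  have hn2 : 2 ≤ n := le_trans (by norm_num) hn
  obtain ⟨h1, h2, h3, h10⟩ := rho_num hη0 hη hbig
  obtain ⟨hR40, hx, -, -⟩ := big_num hη0 hη h1
  have hR0 : 0 < R := lt_of_lt_of_le (by norm_num) hR40
  obtain ⟨r1, r2, r3, r4⟩ := rad_facts cf.geo.L0 hη0 hη hX hbig
  obtain ⟨v1, v2⟩ := varX hn2 cf.geo (dd_sub cf.geo.L0 (r4 hc))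
  rw [mem_closedBall, dist_eq_norm] at hc
  rw [hX] at v1
  have hl : 0 < ‖L n c₀ j‖ := norm_pos_iff.2 cf.geo.L0
  refine ⟨?_, ?_, ?_⟩
  · calc ‖X n c j - X n c₀ j‖ ≤ 11 / 10 * R * ‖L n c₀ j‖ * ‖c - c₀‖ := v1
      _ ≤ 11 / 10 * R * ‖L n c₀ j‖ * rad n c₀ j := by gcongr
      _ = 11 / 10 * (rad n c₀ j * (R * ‖L n c₀ j‖)) := by ring
      _ = _ := by rw [r2]
  · calc ‖L n c j - L n c₀ j‖ * R ≤ (11 / 10 * ‖L n c₀ j‖ ^ 2 * ‖c - c₀‖) * R := by gcongr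
      _ ≤ (11 / 10 * ‖L n c₀ j‖ ^ 2 * rad n c₀ j) * R := by gcongr
      _ = 11 / 10 * ‖L n c₀ j‖ * (rad n c₀ j * (R * ‖L n c₀ j‖)) := by ring
      _ = _ := by rw [r2]
  · set ρ := R ^ (1 / 4 : ℝ) with hρ
    have h5 : 10 ^ 10 ≤ ρ * η := by rwa [div_le_iff₀ hη0] at h2
    have h6 : 0 < ρ := by linarith
    have h7 : η * R = (ρ * η) * ρ ^ 2 * ρ := by rw [← h3]; ring
    have h8 : (1:ℝ) ≤ ρ ^ 2 := one_le_pow₀ (by linarith)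
    have h9 : 11 ≤ (ρ * η) * ρ ^ 2 := by nlinarith
    rw [h7]
    nlinarith

/-- the logarithmic derivative of the next level is almost constant -/
theorem L_next_var {n : ℕ} (hn : 10 ^ 6 ≤ n) {c₀ : ℂ} {j : ℕ} {D R η : ℝ} (cf : Cf n c₀ j D)
    (hη0 : 0 < η) (hη : η ≤ 1) (hX : ‖X n c₀ j‖ = R) (hbig : 10 ^ 40 ≤ η ^ 4 * R)
    (hRn : R ≤ n / 10) {c : ℂ} (hc : c ∈ closedBall c₀ (rad n c₀ j)) :
    ‖L n c (j + 1) - L n c₀ (j + 1)‖ ≤ 5 * R ^ (1 / 4 : ℝ) * ‖L n c₀ j‖ := by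
  have hn2 : 2 ≤ n := le_trans (by norm_num) hn
  have hn' : (10:ℝ) ^ 6 ≤ n := by exact_mod_cast hn
  have hn0 : (0:ℝ) < n := by linarith
  obtain ⟨h1, h2, h3, h10⟩ := rho_num hη0 hη hbig
  obtain ⟨hR40, hx, -, -⟩ := big_num hη0 hη h1
  have hR0 : 0 < R := lt_of_lt_of_le (by norm_num) hR40
  have hR20 : (10:ℝ) ^ 20 ≤ R := le_trans (by norm_num) hR40
  obtain ⟨r1, r2, r3, r4⟩ := rad_facts cf.geo.L0 hη0 hη hX hbig
  have hcD := dd_sub cf.geo.L0 (r4 hc)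
  have hl : 0 < ‖L n c₀ j‖ := norm_pos_iff.2 cf.geo.L0
  set l := ‖L n c₀ j‖ with hld
  have hc₀D : c₀ ∈ DD n c₀ j := mem_closedBall_self (by positivity)
  obtain ⟨v1, v2, v3⟩ := var_rad hn cf hη0 hη hX hbig hc
  set ρ := R ^ (1 / 4 : ℝ) with hρ
  have hρ0 : 0 < ρ := by linarith
  obtain ⟨a1, -⟩ := Lnext hn cf hX hR20 hRn hcD
  obtain ⟨a2, -⟩ := Lnext hn cf hX hR20 hRn hc₀D
  have hA : ∀ A : ℂ, ‖A - 1‖ ≤ 102 / 1000 → 898 / 1000 ≤ ‖A‖ := by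
    intro A hA
    have h5 : (1:ℝ) ≤ ‖A‖ + ‖A - 1‖ := by
      calc (1:ℝ) = ‖A - (A - 1)‖ := by simp
        _ ≤ _ := norm_sub_le _ _
    linarith
  have b1 := hA _ a1
  have b2 := hA _ a2
  have hAc : A n c j ≠ 0 := by
    intro h; rw [h, norm_zero] at b1; norm_num at b1
  have hA0 : A n c₀ j ≠ 0 := by
    intro h; rw [h, norm_zero] at b2; norm_num at b2
  have hbigL : ∀ x ∈ DD n c₀ j, ‖((n:ℂ) - 1) / x‖ ≤ 51 / 50 * l := by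
    intro x hx
    rw [norm_div, Pool.Agent.W216.MB.BAS.nm1 hn2]
    refine (cf.geo.big x hx).trans ?_
    obtain ⟨w1, -, -⟩ := hVar n hn2 c₀ j cf.geo x hx
    calc ‖L n x j‖ = ‖L n c₀ j + (L n x j - L n c₀ j)‖ := by congr 1; ring
      _ ≤ ‖L n c₀ j‖ + ‖L n x j - L n c₀ j‖ := norm_add_le _ _
      _ ≤ _ := by rw [← hld] at w1 ⊢; linarith
  have c1 := hbigL c hcD
  have c2 := hbigL c₀ hc₀D
  obtain ⟨w1, -, -⟩ := hVar n hn2 c₀ j cf.geo c hcD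
  have hLc : ‖L n c j‖ ≤ 51 / 50 * l := by
    calc ‖L n c j‖ = ‖L n c₀ j + (L n c j - L n c₀ j)‖ := by congr 1; ring
      _ ≤ ‖L n c₀ j‖ + ‖L n c j - L n c₀ j‖ := norm_add_le _ _
      _ ≤ _ := by rw [← hld] at w1 ⊢; linarith
  have e1 : L n c (j + 1) = ((n:ℂ) - 1) / c + X n c j * L n c j / A n c j := rfl
  have e2 : L n c₀ (j + 1) = ((n:ℂ) - 1) / c₀ + X n c₀ j * L n c₀ j / A n c₀ j := rfl
  have e3 : L n c (j + 1) - L n c₀ (j + 1) = ((n:ℂ) - 1) / c - ((n:ℂ) - 1) / c₀ +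
      (((X n c j - X n c₀ j) * L n c j + X n c₀ j * (L n c j - L n c₀ j)) / A n c j -
        X n c₀ j * L n c₀ j * (A n c j - A n c₀ j) / (A n c j * A n c₀ j)) := by
    rw [e1, e2]
    field_simp
    ring
  have e4 : A n c j - A n c₀ j = (X n c j - X n c₀ j) / n := by
    unfold A; ring
  have f1 : ‖(X n c j - X n c₀ j) * L n c j + X n c₀ j * (L n c j - L n c₀ j)‖ ≤ 223 / 100 * (ρ * l) := by
    refine (norm_add_le _ _).trans ?_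
    rw [norm_mul, norm_mul, hX]
    have g1 : ‖X n c j - X n c₀ j‖ * ‖L n c j‖ ≤ (11 / 10 * ρ) * (51 / 50 * l) := by gcongr
    have g2 : R * ‖L n c j - L n c₀ j‖ ≤ 11 / 10 * l * ρ := by rw [mul_comm]; exact v2
    have : 0 ≤ ρ * l := by positivity
    nlinarith
  have f2 : ‖((X n c j - X n c₀ j) * L n c j + X n c₀ j * (L n c j - L n c₀ j)) / A n c j‖ ≤
      25 / 10 * (ρ * l) := by
    rw [norm_div, div_le_iff₀ (by linarith)]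
    have : 0 ≤ ρ * l := by positivity
    nlinarith
  have f3 : ‖X n c₀ j * L n c₀ j * (A n c j - A n c₀ j) / (A n c j * A n c₀ j)‖ ≤
      2 / 10 * (ρ * l) := by
    rw [norm_div, norm_mul, norm_mul, norm_mul, hX, e4, norm_div, Complex.norm_natCast]
    have g0 : 8 / 10 ≤ ‖A n c j‖ * ‖A n c₀ j‖ := by nlinarith
    rw [div_le_iff₀ (by linarith)]
    have g1 : ‖X n c j - X n c₀ j‖ / n ≤ (11 / 10 * ρ) / n := by gcongr
    have g2 : R * l * (‖X n c j - X n c₀ j‖ / n) ≤ 11 / 100 * (ρ * l) := by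
      calc R * l * (‖X n c j - X n c₀ j‖ / n) ≤ (n / 10) * l * ((11 / 10 * ρ) / n) := by gcongr
        _ = _ := by field_simp; norm_num
    have g3 : 0 ≤ ρ * l := by positivity
    nlinarith
  have f4 : l ≤ 1 / 100 * (ρ * l) := by
    nlinarith
  rw [e3]
  calc _ ≤ ‖((n:ℂ) - 1) / c - ((n:ℂ) - 1) / c₀‖ +
        ‖((X n c j - X n c₀ j) * L n c j + X n c₀ j * (L n c j - L n c₀ j)) / A n c j -
        X n c₀ j * L n c₀ j * (A n c j - A n c₀ j) / (A n c j * A n c₀ j)‖ := norm_add_le _ _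
    _ ≤ (51 / 50 * l + 51 / 50 * l) + (25 / 10 * (ρ * l) + 2 / 10 * (ρ * l)) := by
        refine add_le_add ((norm_sub_le _ _).trans (add_le_add c1 c2))
          ((norm_sub_le _ _).trans (add_le_add f2 f3))
    _ ≤ 5 * ρ * l := by
        have : 0 ≤ ρ * l := by positivity
        nlinarith

/-- the local law -/
theorem loc (hLIN : P_LIN) {n : ℕ} (hn : 10 ^ 6 ≤ n) {c₀ : ℂ} {j : ℕ} {D R η τ : ℝ}
    (cf : Cf n c₀ j D)
    (hη0 : 0 < η) (hη : η ≤ 1 / 100) (hτ : τ = 1 ∨ τ = -1) (hX : ‖X n c₀ j‖ = R)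
    (hbig : 10 ^ 40 ≤ η ^ 4 * R) (hRn : R ≤ n / 10) {r : ℝ} (hr1 : rad n c₀ j / 2 ≤ r)
    (hr2 : r ≤ rad n c₀ j) :
    ENNReal.ofReal (1 / 2 - η) * volume (closedBall c₀ r) ≤
      volume {c | c ∈ closedBall c₀ r ∧ η * ‖X n c (j + 1)‖ ≤ τ * (X n c (j + 1)).re} := by
  have hη1 : η ≤ 1 := by linarith
  have hn2 : 2 ≤ n := le_trans (by norm_num) hn
  have hn' : (10:ℝ) ^ 6 ≤ n := by exact_mod_cast hn
  have hn0 : (0:ℝ) < n := by linarith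
  obtain ⟨h1, h2, h3, h10⟩ := rho_num hη0 hη1 hbig
  obtain ⟨hR40, hx, -, -⟩ := big_num hη0 hη1 h1
  have hR0 : 0 < R := lt_of_lt_of_le (by norm_num) hR40
  have hR20 : (10:ℝ) ^ 20 ≤ R := le_trans (by norm_num) hR40
  obtain ⟨r1, r2, r3, r4⟩ := rad_facts cf.geo.L0 hη0 hη1 hX hbig
  have hl : 0 < ‖L n c₀ j‖ := norm_pos_iff.2 cf.geo.L0
  have hr0 : 0 < r := by linarith
  have hc₀D : c₀ ∈ DD n c₀ j := mem_closedBall_self (by positivity)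
  obtain ⟨-, hLn⟩ := Lnext hn cf hX hR20 hRn hc₀D
  set l := ‖L n c₀ j‖ with hld
  set ρ := R ^ (1 / 4 : ℝ) with hρ
  have hρ0 : 0 < ρ := by linarith
  have hRl : 0 < R * l := by positivity
  have hL1 : 4 / 5 * (R * l) ≤ ‖L n c₀ (j + 1)‖ := by
    have h5 : ‖X n c₀ j * L n c₀ j‖ = R * l := by rw [norm_mul, hX]
    have h6 : ‖X n c₀ j * L n c₀ j‖ ≤ ‖L n c₀ (j + 1)‖ + ‖L n c₀ (j + 1) - X n c₀ j * L n c₀ j‖ := by
      calc ‖X n c₀ j * L n c₀ j‖ = ‖L n c₀ (j + 1) - (L n c₀ (j + 1) - X n c₀ j * L n c₀ j)‖ := by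
            congr 1; ring
        _ ≤ _ := norm_sub_le _ _
    rw [h5] at h6
    linarith
  set κ : ℝ := 5 / ρ ^ 2 with hκ
  have hκ0 : 0 ≤ κ := by positivity
  have hρη : 10 ^ 10 ≤ ρ * η := by rwa [div_le_iff₀ hη0] at h2
  have hκη : 6 * κ ≤ η / 100 := by
    rw [hκ, mul_div_assoc', div_le_div_iff₀ (by positivity) (by norm_num)]
    nlinarith
  have hρr : 2 / 5 * ρ ≤ ‖L n c₀ (j + 1)‖ * r := by
    calc 2 / 5 * ρ = (4 / 5 * (R * l)) * (rad n c₀ j / 2) := by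
          rw [← r2]; ring
      _ ≤ ‖L n c₀ (j + 1)‖ * r := by gcongr
  have hX0 : X n c₀ (j + 1) ≠ 0 := by
    have hA0 : A n c₀ j ≠ 0 := by
      intro h0
      have h5 := (Lnext hn cf hX hR20 hRn hc₀D).1
      rw [h0, zero_sub, norm_neg, norm_one] at h5
      norm_num at h5
    have h5 : X n c₀ (j + 1) = n * c₀ ^ (n - 1) * A n c₀ j ^ n := rfl
    rw [h5]
    refine mul_ne_zero (mul_ne_zero ?_ (pow_ne_zero _ (cf.geo.nz c₀ hc₀D).1)) (pow_ne_zero _ hA0)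
    exact_mod_cast hn0.ne'
  have hgood : ∀ c ∈ closedBall c₀ r,
      HasDerivAt (fun c => X n c (j + 1)) (X n c (j + 1) * L n c (j + 1)) c ∧
      ‖L n c (j + 1) - L n c₀ (j + 1)‖ * r ≤ κ := by
    intro c hc
    have hcr : c ∈ closedBall c₀ (rad n c₀ j) := closedBall_subset_closedBall hr2 hc
    have hcD : c ∈ DD n c₀ j := dd_sub cf.geo.L0 (r4 hcr)
    obtain ⟨hc0, hAi⟩ := cf.geo.nz c hcD
    have hall : ∀ i < j + 1, A n c i ≠ 0 := by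
      intro i hi
      rcases Nat.lt_succ_iff_lt_or_eq.1 hi with h | h
      · exact hAi i h
      · rw [h]
        intro h0
        have h5 := (Lnext hn cf hX hR20 hRn hcD).1
        rw [h0, zero_sub, norm_neg, norm_one] at h5
        norm_num at h5
    refine ⟨(Pool.Agent.W366.MB.main n hn2 c (j + 1) hc0 hall).1, ?_⟩
    have h5 := L_next_var hn cf hη0 hη1 hX hbig hRn hcr
    calc ‖L n c (j + 1) - L n c₀ (j + 1)‖ * r ≤ (5 * ρ * l) * rad n c₀ j := by gcongr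
      _ = 5 * ρ * (rad n c₀ j * (R * l)) / R := by field_simp
      _ = 5 * ρ * ρ / R := by rw [r2]
      _ = κ := by rw [hκ, ← h3]; field_simp
  have hmain := half_disc hLIN (g := fun c => X n c (j + 1)) (ℓ := fun c => L n c (j + 1))
    (ℓ₀ := L n c₀ (j + 1)) hr0 hκ0 hη0.le (by linarith) hτ hX0 (by linarith) hgood
  refine le_trans ?_ hmain
  gcongr ENNReal.ofReal ?_ * _
  have h6 : 15 / (‖L n c₀ (j + 1)‖ * r) ≤ η / 100 := by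
    rw [div_le_div_iff₀ (by linarith) (by norm_num)]
    have h7 : η * (2 / 5 * ρ) ≤ η * (‖L n c₀ (j + 1)‖ * r) := by gcongr
    nlinarith
  linarith

end Pool.Agent.N228.AZ
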