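import Mathlib
import Pool.Agent.N228.AZ.Loc

/-! # The induction on the number of remaining stages -/

set_option autoImplicit false
open Metric MeasureTheory Set Filter Topology

namespace Pool.Agent.N228.AZ

open Pool.Agent.W747.MB
open Pool.Agent.TH363.CD

theorem cont_X (n j : ℕ) : Continuous fun c : ℂ => X n c j := by
  induction j with
  | zero => exact continuous_const
  | succ j ih =>
    have : (fun c : ℂ => X n c (j + 1)) = fun c => n * c ^ (n - 1) * (1 + X n c j / n) ^ n := rfl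
    rw [this]
    fun_prop

theorem meas_L (n j : ℕ) : Measurable fun c : ℂ => L n c j := by
  induction j with
  | zero => exact measurable_const
  | succ j ih =>
    have h1 : (fun c : ℂ => L n c (j + 1)) = fun c => ((n:ℂ) - 1) / c +
      X n c j * L n c j / (1 + X n c j / n) := rfl
    rw [h1]
    have hX := (cont_X n j).measurable
    exact (measurable_const.div measurable_id).add
      ((hX.mul ih).div (measurable_const.add (hX.div_const _)))

theorem meas_rad (n j : ℕ) : Measurable fun c : ℂ => rad n c j := by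
  unfold rad
  have hX := (cont_X n j).measurable
  exact (hX.norm.pow_const _).div (hX.norm.mul (meas_L n j).norm)

/-- radii of discs with a common point are comparable -/
theorem comp {n : ℕ} (hn : 10 ^ 6 ≤ n) {x x' y : ℂ} {m : ℕ} {D η : ℝ} (cf : Cf n x m D)
    (hη0 : 0 < η) (hη : η ≤ 1) (hbig : 10 ^ 40 ≤ η ^ 4 * ‖X n x m‖) (hpos : 0 < rad n x' m)
    (h1 : y ∈ closedBall x (rad n x m)) (h2 : y ∈ closedBall x' (rad n x' m)) :
    rad n x m ≤ (1 + η) * rad n x' m := by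
  have hn2 : 2 ≤ n := le_trans (by norm_num) hn
  rcases le_or_gt (rad n x m) (rad n x' m) with h | h
  · nlinarith
  set R := ‖X n x m‖ with hR
  obtain ⟨q1, q2, q3, q10⟩ := rho_num hη0 hη hbig
  obtain ⟨hR40, -, -, -⟩ := big_num hη0 hη q1
  have hR0 : 0 < R := lt_of_lt_of_le (by norm_num) hR40
  obtain ⟨r1, r2, r3, r4⟩ := rad_facts cf.geo.L0 hη0 hη hR.symm hbig
  have hl : 0 < ‖L n x m‖ := norm_pos_iff.2 cf.geo.L0
  set l := ‖L n x m‖ with hld
  have hd : ‖x' - x‖ ≤ 2 * rad n x m := by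
    rw [mem_closedBall] at h1 h2
    rw [← dist_eq_norm]
    have := dist_triangle x' y x
    rw [dist_comm x' y] at this
    linarith
  have hx'D : x' ∈ DD n x m := by
    unfold DD
    rw [mem_closedBall, dist_eq_norm]
    refine hd.trans ?_
    have h3 : 2 * (1 / (10 ^ 9 * l)) ≤ 1 / (100 * l) := by
      rw [mul_one_div, div_le_div_iff₀ (by positivity) (by positivity)]
      nlinarith
    linarith
  obtain ⟨v1, v2⟩ := varX hn2 cf.geo hx'D
  rw [← hR, ← hld] at v1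
  rw [← hld] at v2
  set ρ := R ^ (1 / 4 : ℝ) with hρ
  have hρ0 : 0 < ρ := by linarith
  have hρη : 10 ^ 10 ≤ ρ * η := by rwa [div_le_iff₀ hη0] at q2
  set R' := ‖X n x' m‖ with hR'
  set l' := ‖L n x' m‖ with hl'
  have hrad' : rad n x' m = R' ^ (1 / 4 : ℝ) / (R' * l') := rfl
  have hrad : rad n x m = ρ / (R * l) := rfl
  have hXd : R' ≤ R + 22 / 10 * ρ := by
    have h3 : R' ≤ R + ‖X n x' m - X n x m‖ := by
      calc R' = ‖X n x m + (X n x' m - X n x m)‖ := by rw [hR']; congr 1; ring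
        _ ≤ _ := norm_add_le _ _
    have h4 : ‖X n x' m - X n x m‖ ≤ 22 / 10 * ρ := by
      calc ‖X n x' m - X n x m‖ ≤ 11 / 10 * R * l * ‖x' - x‖ := v1
        _ ≤ 11 / 10 * R * l * (2 * rad n x m) := by gcongr
        _ = 22 / 10 * (rad n x m * (R * l)) := by ring
        _ = _ := by rw [r2]
    linarith
  have hLd : l' * R ≤ l * (R + 22 / 10 * ρ) := by
    have h3 : l' ≤ l + ‖L n x' m - L n x m‖ := by
      calc l' = ‖L n x m + (L n x' m - L n x m)‖ := by rw [hl']; congr 1; ring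
        _ ≤ _ := norm_add_le _ _
    have h4 : ‖L n x' m - L n x m‖ * R ≤ 22 / 10 * l * ρ := by
      calc ‖L n x' m - L n x m‖ * R ≤ (11 / 10 * l ^ 2 * ‖x' - x‖) * R := by gcongr
        _ ≤ (11 / 10 * l ^ 2 * (2 * rad n x m)) * R := by gcongr
        _ = 22 / 10 * l * (rad n x m * (R * l)) := by ring
        _ = _ := by rw [r2]
    nlinarith
  -- the relative variation
  set u := 22 / 10 * ρ / R with hu
  have hu0 : 0 < u := by positivity
  have hu1 : u ≤ η / 3 := by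
    rw [hu, div_le_div_iff₀ hR0 (by norm_num), ← q3]
    have h3 : (1:ℝ) ≤ ρ ^ 2 := one_le_pow₀ (by linarith)
    have h4 : η * ρ ^ 4 = (ρ * η) * ρ ^ 2 * ρ := by ring
    rw [h4]
    have h5 : 7 ≤ (ρ * η) * ρ ^ 2 := by nlinarith
    nlinarith
  have hXd' : R' ≤ R * (1 + u) := by
    have : R * (1 + u) = R + 22 / 10 * ρ := by rw [hu]; field_simp
    rw [this]; exact hXd
  have hLd' : l' ≤ l * (1 + u) := by
    have h3 : l * (1 + u) = l * (R + 22 / 10 * ρ) / R := by rw [hu]; field_simp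
    rw [h3, le_div_iff₀ hR0]; exact hLd
  have hR'0 : 0 < R' := by
    rcases (norm_nonneg (X n x' m)).lt_or_eq with h3 | h3
    · exact h3
    · exfalso
      rw [hrad', hR', ← h3] at hpos
      simp at hpos
  have hl'0 : 0 < l' := by
    rcases (norm_nonneg (L n x' m)).lt_or_eq with h3 | h3
    · exact h3
    · exfalso
      rw [hrad', hl', ← h3] at hpos
      simp at hpos
  set ρ' := R' ^ (1 / 4 : ℝ) with hρ'
  have hρ'0 : 0 < ρ' := Real.rpow_pos_of_pos hR'0 _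
  have hρ'4 : ρ' ^ 4 = R' := by
    rw [hρ', ← Real.rpow_natCast, ← Real.rpow_mul hR'0.le]; norm_num
  rw [hrad, hrad', mul_div_assoc', div_le_div_iff₀ (by positivity) (by positivity)]
  have hkey : ρ * R' ≤ (1 + u) * (ρ' * R) := by
    rcases le_or_gt R' R with h3 | h3
    · have h4 : ρ' ≤ ρ := Real.rpow_le_rpow hR'0.le h3 (by norm_num)
      have h5 : ρ * R' ≤ ρ' * R := by
        rw [← hρ'4, ← q3]
        have h6 : ρ' ^ 3 ≤ ρ ^ 3 := pow_le_pow_left₀ hρ'0.le h4 3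
        have h7 : 0 < ρ * ρ' := by positivity
        calc ρ * ρ' ^ 4 = (ρ * ρ') * ρ' ^ 3 := by ring
          _ ≤ (ρ * ρ') * ρ ^ 3 := by gcongr
          _ = ρ' * ρ ^ 4 := by ring
      have h6 : 0 < ρ' * R := by positivity
      nlinarith
    · have h4 : ρ ≤ ρ' := Real.rpow_le_rpow hR0.le h3.le (by norm_num)
      calc ρ * R' ≤ ρ' * (R * (1 + u)) := by gcongr
        _ = _ := by ring
  calc ρ * (R' * l') = (ρ * R') * l' := by ring
    _ ≤ ((1 + u) * (ρ' * R)) * (l * (1 + u)) := by gcongr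
    _ = (1 + u) ^ 2 * (ρ' * (R * l)) := by ring
    _ ≤ (1 + η) * (ρ' * (R * l)) := by
        gcongr
        nlinarith
    _ = _ := by ring

/-- cancellation in `ENNReal` -/
theorem cancel {a b K : ℝ} (ha : 0 < K) {U V : ENNReal} (hab : K * a ≤ b)
    (h : ENNReal.ofReal b * U ≤ ENNReal.ofReal K * V) : ENNReal.ofReal a * U ≤ V := by
  have h1 : ENNReal.ofReal K * (ENNReal.ofReal a * U) ≤ ENNReal.ofReal K * V := by
    rw [← mul_assoc, ← ENNReal.ofReal_mul ha.le]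
    refine le_trans ?_ h
    gcongr ENNReal.ofReal ?_ * _
  have h2 : ENNReal.ofReal K ≠ 0 := by
    rw [ne_eq, ENNReal.ofReal_eq_zero, not_le]; exact ha
  exact (ENNReal.mul_le_mul_iff_right h2 ENNReal.ofReal_ne_top).1 h1

theorem vol_shrink (c : ℂ) {t r : ℝ} (ht : 0 ≤ t) :
    volume (closedBall c (t * r)) = ENNReal.ofReal (t ^ 2) * volume (closedBall c r) := by
  rw [Complex.volume_closedBall, Complex.volume_closedBall, ENNReal.ofReal_mul ht, mul_pow,
    ENNReal.ofReal_pow ht, mul_assoc]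

/-- one step of the induction -/
theorem step (hAVG : P_AVG) (hLIN : P_LIN) {n : ℕ} (hn : 10 ^ 6 ≤ n) {c₀ : ℂ} {j : ℕ}
    {D R η τ a : ℝ} {F : Set ℂ} (cf : Cf n c₀ j D)
    (hη0 : 0 < η) (hη : η ≤ 1 / 100) (hτ : τ = 1 ∨ τ = -1) (hX : ‖X n c₀ j‖ = R)
    (hbig : 10 ^ 40 ≤ η ^ 4 * R) (hRn : R ≤ n / 10) (hlog : Real.log D ^ 4 ≤ R)
    (hY : Y n c₀ ≤ 2 * R) (hexp : Real.exp (2 * R) ≤ 3 * n) (hre : η * R ≤ (X n c₀ j).re)
    (ha : 0 ≤ a)
    (hnext : ∀ c₁ ∈ closedBall c₀ (rad n c₀ j), ∀ D₁ : ℝ, Cf n c₁ (j + 1) D₁ →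
      Real.exp (η * R / 4) ≤ ‖X n c₁ (j + 1)‖ → ‖X n c₁ (j + 1)‖ ≤ Real.exp (2 * R) →
      Real.log D₁ ^ 4 ≤ ‖X n c₁ (j + 1)‖ → Y n c₁ ≤ 2 * ‖X n c₁ (j + 1)‖ →
      η * ‖X n c₁ (j + 1)‖ ≤ τ * (X n c₁ (j + 1)).re →
      ENNReal.ofReal a * volume (closedBall c₁ (rad n c₁ (j + 1))) ≤
        volume (F ∩ closedBall c₁ (rad n c₁ (j + 1)))) :
    ENNReal.ofReal (a * (1 / 2) * (1 - 7 * η)) * volume (closedBall c₀ (rad n c₀ j)) ≤
      volume (F ∩ closedBall c₀ (rad n c₀ j)) := by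
  have hη1 : η ≤ 1 := by linarith
  obtain ⟨h1, h2, h3, h10⟩ := rho_num hη0 hη1 hbig
  obtain ⟨hR40, hx, hRx, hR8⟩ := big_num hη0 hη1 h1
  have hR0 : 0 < R := lt_of_lt_of_le (by norm_num) hR40
  obtain ⟨r1, r2, r3, r4⟩ := rad_facts cf.geo.L0 hη0 hη1 hX hbig
  have hl : 0 < ‖L n c₀ j‖ := norm_pos_iff.2 cf.geo.L0
  set l := ‖L n c₀ j‖ with hld
  set ρ := R ^ (1 / 4 : ℝ) with hρ
  have hρη : 10 ^ 10 ≤ ρ * η := by rwa [div_le_iff₀ hη0] at h2
  have hRl : 0 < R * l := by positivity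
  set r := rad n c₀ j with hr
  have hrρ : r = ρ / (R * l) := by rw [← r2]; field_simp
  -- the next level
  have hnx : ∀ c₁ ∈ closedBall c₀ r, Real.exp (η * R / 4) ≤ ‖X n c₁ (j + 1)‖ ∧
      ‖X n c₁ (j + 1)‖ ≤ Real.exp (2 * R) ∧
      Cf n c₁ (j + 1) (2 * ‖X n c₁ (j + 1)‖ * D) ∧
      Real.log (2 * ‖X n c₁ (j + 1)‖ * D) ^ 4 ≤ ‖X n c₁ (j + 1)‖ ∧
      Y n c₁ ≤ 2 * ‖X n c₁ (j + 1)‖ ∧
      4 / 5 * (R * l) ≤ ‖L n c₁ (j + 1)‖ ∧ ‖L n c₁ (j + 1)‖ ≤ 6 / 5 * (R * l) := by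
    intro c₁ hc₁
    refine next hn cf hη0 hη1 hX h1 hRn hlog hY hexp (r4 hc₁) ?_
    obtain ⟨v1, -, v3⟩ := var_rad hn cf hη0 hη1 hX hbig hc₁
    have v4 := (abs_le.1 ((Complex.abs_re_le_norm _).trans v1)).1
    rw [Complex.sub_re] at v4
    linarith
  have hbig1 : ∀ c₁ ∈ closedBall c₀ r, 10 ^ 40 ≤ η ^ 4 * ‖X n c₁ (j + 1)‖ := by
    intro c₁ hc₁
    have h5 := (hnx c₁ hc₁).1
    have h6 : R ≤ R ^ 8 := le_self_pow₀ (by linarith) (by norm_num)
    have h7 : 0 < η ^ 4 := by positivity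
    nlinarith
  set S : Set ℂ := {c | c ∈ closedBall c₀ ((1 - η) * r) ∧ η * ‖X n c (j + 1)‖ ≤ τ * (X n c (j + 1)).re}
    with hS
  have hSB : ∀ x ∈ S, x ∈ closedBall c₀ r := fun x hx =>
    closedBall_subset_closedBall (by nlinarith) hx.1
  have hSm : MeasurableSet S := by
    have h5 : IsClosed {c : ℂ | η * ‖X n c (j + 1)‖ ≤ τ * (X n c (j + 1)).re} := by
      apply isClosed_le
      · exact continuous_const.mul (cont_X n (j + 1)).norm
      · exact continuous_const.mul (Complex.continuous_re.comp (cont_X n (j + 1)))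
    exact (isClosed_closedBall.inter h5).measurableSet
  have hrx : ∀ x ∈ S, 0 < rad n x (j + 1) ∧ closedBall x (rad n x (j + 1)) ⊆ closedBall c₀ r := by
    intro x hx
    obtain ⟨n1, n2, n3, n4, n5, n6, n7⟩ := hnx x (hSB x hx)
    obtain ⟨s1, -, s3, -⟩ := rad_facts n3.geo.L0 hη0 hη1 rfl (hbig1 x (hSB x hx))
    refine ⟨s1, ?_⟩
    have h5 : rad n x (j + 1) ≤ η * r := by
      refine s3.trans ?_
      rw [hrρ, mul_div_assoc', div_le_div_iff₀ (by
        have : 0 < ‖L n x (j + 1)‖ := norm_pos_iff.2 n3.geo.L0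
        positivity) hRl]
      have h6 : 1 * (R * l) ≤ (5 / 4) * ‖L n x (j + 1)‖ := by linarith
      have h7 : 5 / 4 * ‖L n x (j + 1)‖ ≤ η * ρ * (10 ^ 9 * ‖L n x (j + 1)‖) := by
        have : 0 ≤ ‖L n x (j + 1)‖ := norm_nonneg _
        nlinarith
      linarith
    intro y hy
    have h6 := hx.1
    rw [mem_closedBall] at hy h6 ⊢
    have := dist_triangle y x c₀
    nlinarith
  have hav := hAVG S (F ∩ closedBall c₀ r) (fun c => rad n c (j + 1)) a (1 + η) hSm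
    (meas_rad n (j + 1)) ha (by linarith) (fun x hx => (hrx x hx).1) ?_ ?_
  · have hvS : ENNReal.ofReal ((1 / 2 - η) * (1 - η) ^ 2) * volume (closedBall c₀ r) ≤ volume S := by
      have h5 := loc hLIN hn cf hη0 hη hτ hX hbig hRn (r := (1 - η) * r) (by nlinarith) (by nlinarith)
      rw [vol_shrink c₀ (by linarith), ← mul_assoc, ← ENNReal.ofReal_mul (by linarith)] at h5
      exact h5
    have h6 : ENNReal.ofReal (a * ((1 / 2 - η) * (1 - η) ^ 2)) * volume (closedBall c₀ r) ≤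
        ENNReal.ofReal ((1 + η) ^ 2) * volume (F ∩ closedBall c₀ r) := by
      rw [ENNReal.ofReal_mul ha, mul_assoc]
      refine le_trans ?_ hav
      gcongr
    refine cancel (K := (1 + η) ^ 2) (by positivity) ?_ h6
    have h7 : (1 + η) ^ 2 * (a * (1 / 2) * (1 - 7 * η)) =
      a * ((1 + η) ^ 2 * (1 / 2) * (1 - 7 * η)) := by ring
    rw [h7]
    apply mul_le_mul_of_nonneg_left _ ha
    nlinarith [sq_nonneg η, mul_pos hη0 (mul_pos hη0 hη0)]
  · intro x hx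
    obtain ⟨n1, n2, n3, n4, n5, n6, n7⟩ := hnx x (hSB x hx)
    have h5 := hnext x (hSB x hx) _ n3 n1 n2 n4 n5 hx.2
    refine h5.trans (measure_mono ?_)
    intro y hy
    exact ⟨⟨hy.1, (hrx x hx).2 hy.2⟩, hy.2⟩
  · intro x hx x' hx' y hy hy'
    obtain ⟨n1, n2, n3, n4, n5, n6, n7⟩ := hnx x (hSB x hx)
    exact comp hn n3 hη0 hη1 (hbig1 x (hSB x hx)) (hrx x' hx').1 hy hy'

/-- the final direction and the earlier ones -/
def dirσ (σ : ℝ) : ℕ → ℝ
  | 0 => σ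
  | _ + 1 => 1

/-- lower bound of the growth -/
noncomputable def G (η R : ℝ) : ℝ := Real.exp (η * R / 4)

theorem G_mono {η : ℝ} (hη : 0 < η) : Monotone (G η) := by
  intro a b h
  exact Real.exp_le_exp.2 (by nlinarith)

/-- the property of the last stage -/
def Last (n : ℕ) (η T σ : ℝ) (F : ℕ → Set ℂ) : Prop := ∀ (c₀ : ℂ) (j : ℕ) (D : ℝ), Cf n c₀ j D →
  10 ^ 40 ≤ η ^ 4 * ‖X n c₀ j‖ → T ≤ ‖X n c₀ j‖ → ‖X n c₀ j‖ ≤ η / 100 * n →
  Real.log D ^ 4 ≤ ‖X n c₀ j‖ → Y n c₀ ≤ 2 * ‖X n c₀ j‖ →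
  η * ‖X n c₀ j‖ ≤ σ * (X n c₀ j).re → closedBall c₀ (rad n c₀ j) ⊆ F j

/-- the local law with `i` stages left -/
theorem SB (hAVG : P_AVG) (hLIN : P_LIN) {n : ℕ} (hn : 10 ^ 6 ≤ n) {η T σ : ℝ} {F : ℕ → Set ℂ}
    (hη0 : 0 < η) (hη : η ≤ 1 / 100) (hσ : σ = 1 ∨ σ = -1) (hF : Last n η T σ F) (i : ℕ) :
    ∀ (c₀ : ℂ) (j : ℕ) (D R : ℝ), Cf n c₀ j D → ‖X n c₀ j‖ = R → 10 ^ 40 ≤ η ^ 4 * R →
      T ≤ (G η)^[i] R → E2^[i] R ≤ η / 100 * n → Real.log D ^ 4 ≤ R → Y n c₀ ≤ 2 * R →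
      η * R ≤ dirσ σ i * (X n c₀ j).re →
      ENNReal.ofReal ((1 / 2) ^ i * (1 - 8 * i * η)) * volume (closedBall c₀ (rad n c₀ j)) ≤
        volume (F (j + i) ∩ closedBall c₀ (rad n c₀ j)) := by
  induction i with
  | zero =>
    intro c₀ j D R cf hX hbig hT hE hlog hY hre
    have h1 := hF c₀ j D cf (by rw [hX]; exact hbig) (by rw [hX]; exact hT) (by rw [hX]; exact hE)
      (by rw [hX]; exact hlog) (by rw [hX]; exact hY) (by rw [hX]; exact hre)
    rw [add_zero, inter_eq_self_of_subset_right h1]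
    simp
  | succ i ih =>
    intro c₀ j D R cf hX hbig hT hE hlog hY hre
    rw [Function.iterate_succ_apply] at hT hE
    have hn' : (10:ℝ) ^ 6 ≤ n := by exact_mod_cast hn
    have hηn : η / 100 * (n:ℝ) ≤ n / 10 := by nlinarith
    have hE2 : E2 R ≤ η / 100 * n := (le_iter i _).trans hE
    have hRE : R ≤ E2 R := le_E2 R
    have hexp : Real.exp (2 * R) ≤ 3 * n := by
      have : E2 R = Real.exp (2 * R) := rfl
      linarith
    have hre' : η * R ≤ (X n c₀ j).re := by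
      have : dirσ σ (i + 1) = 1 := rfl
      rw [this, one_mul] at hre
      exact hre
    rcases le_or_gt (1 - 8 * ((i + 1 : ℕ) : ℝ) * η) 0 with h0 | h0
    · have h1 : ENNReal.ofReal ((1 / 2) ^ (i + 1) * (1 - 8 * ((i + 1 : ℕ) : ℝ) * η)) = 0 := by
        rw [ENNReal.ofReal_eq_zero]
        exact mul_nonpos_of_nonneg_of_nonpos (by positivity) h0
      rw [h1, zero_mul]
      exact bot_le
    have hi0 : 0 ≤ 1 - 8 * (i : ℝ) * η := by
      push_cast at h0
      nlinarith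
    set a : ℝ := (1 / 2) ^ i * (1 - 8 * i * η) with ha
    have ha0 : 0 ≤ a := by positivity
    have hτ : dirσ σ i = 1 ∨ dirσ σ i = -1 := by
      cases i with
      | zero => exact hσ
      | succ i => exact Or.inl rfl
    have hst := step hAVG hLIN hn (τ := dirσ σ i) (a := a) (F := F (j + (i + 1))) cf hη0 hη hτ hX
      hbig (by linarith) hlog hY hexp hre' ha0 ?_
    · refine le_trans ?_ hst
      gcongr ENNReal.ofReal ?_ * _
      have h1 : (1 / 2 : ℝ) ^ (i + 1) = (1 / 2) ^ i * (1 / 2) := pow_succ _ _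
      rw [ha, h1]
      have h2 : (1 / 2 : ℝ) ^ i * (1 - 8 * i * η) * (1 / 2) * (1 - 7 * η) =
        (1 / 2) ^ i * (1 / 2) * ((1 - 8 * i * η) * (1 - 7 * η)) := by ring
      rw [h2]
      apply mul_le_mul_of_nonneg_left _ (by positivity)
      push_cast
      have h3 : 0 ≤ (i:ℝ) * η := by positivity
      nlinarith
    · intro c₁ hc₁ D₁ cf₁ hlo hup hlog₁ hY₁ hdir
      have hbig1 : 10 ^ 40 ≤ η ^ 4 * ‖X n c₁ (j + 1)‖ := by
        obtain ⟨h1, -, -, -⟩ := rho_num hη0 (by linarith) hbig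
        obtain ⟨hR40, -, -, hR8⟩ := big_num hη0 (by linarith) h1
        have h6 : R ≤ R ^ 8 := le_self_pow₀ (by linarith) (by norm_num)
        have h7 : 0 < η ^ 4 := by positivity
        nlinarith
      have h1 := ih c₁ (j + 1) D₁ _ cf₁ rfl hbig1
        (hT.trans (((G_mono hη0).iterate i) hlo))
        (((E2_mono.iterate i) hup).trans hE) hlog₁ hY₁ hdir
      have h2 : j + 1 + i = j + (i + 1) := by ring
      rw [h2] at h1
      exact h1

end Pool.Agent.N228.AZ
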