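import Mathlib
import Pool.Agent.N228.AZ.Ind

/-! # The last stage: attracting cycles and escape -/

set_option autoImplicit false
open Metric MeasureTheory Set Filter Topology

namespace Pool.Agent.N228.AZ

open Pool.Agent.W747.MB
open Pool.Agent.TH363.CD

theorem lastAtt {n : ℕ} (hn : 10 ^ 6 ≤ n) {η : ℝ} (hη0 : 0 < η) (hη : η ≤ 1 / 100) :
    Last n η 0 (-1) (fun j => Ex n (j + 1)) := by
  intro c₀ j D cf hbig _ hRn hlog hY hre c hc
  set R := ‖X n c₀ j‖ with hR
  have hη1 : η ≤ 1 := by linarith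
  have hn' : (10:ℝ) ^ 6 ≤ n := by exact_mod_cast hn
  have hn0 : (0:ℝ) < n := by linarith
  have hn2 : 2 ≤ n := le_trans (by norm_num) hn
  obtain ⟨h1, h2, h3, h10⟩ := rho_num hη0 hη1 hbig
  obtain ⟨hR40, hx39, hRx, hR8⟩ := big_num hη0 hη1 h1
  have hR0 : 0 < R := lt_of_lt_of_le (by norm_num) hR40
  obtain ⟨r1, r2, r3, r4⟩ := rad_facts cf.geo.L0 hη0 hη1 hR.symm hbig
  obtain ⟨v1, -, v3⟩ := var_rad hn cf hη0 hη1 hR.symm hbig hc
  have hcD : c ∈ DD n c₀ j := dd_sub cf.geo.L0 (r4 hc)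
  have hD0 : 0 < D := by linarith [cf.D1]
  obtain ⟨-, -, w3⟩ := hVar n hn2 c₀ j cf.geo c hcD
  have hY1 := cf.y1 c hcD
  have hY0 : 1 ≤ Y n c₀ := cf.y1 c₀ (mem_closedBall_self (by
    have : 0 < ‖L n c₀ j‖ := norm_pos_iff.2 cf.geo.L0
    positivity))
  have hY2 : Y n c ≤ 3 * R := by
    have := abs_le.1 w3
    linarith [this.2]
  refine att_exact hn2 cf.geo.j1 hY1 cf.D1 (cf.ph c hcD) (cf.far c hcD) ?_
  set x := η * R / 4 with hx
  have hx0 : 0 < x := lt_of_lt_of_le (by norm_num) hx39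
  -- the real part
  have hreX : (X n c j).re ≤ -(9 / 10 * (η * R)) := by
    have h4 := (abs_le.1 ((Complex.abs_re_le_norm _).trans v1)).2
    rw [Complex.sub_re] at h4
    linarith
  have hnX : ‖X n c j‖ ≤ 11 / 10 * R := by
    have h4 : ‖X n c j‖ ≤ ‖X n c₀ j‖ + ‖X n c j - X n c₀ j‖ := by
      calc ‖X n c j‖ = ‖X n c₀ j + (X n c j - X n c₀ j)‖ := by congr 1; ring
        _ ≤ _ := norm_add_le _ _
    rw [← hR] at h4
    nlinarith
  have hA : ‖A n c j‖ ≤ 1 - 88 / 100 * (η * R / n) := by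
    have h4 : ‖A n c j‖ ^ 2 = 1 + 2 * (X n c j).re / n + ‖X n c j‖ ^ 2 / n ^ 2 := by
      have e1 : (A n c j).re = 1 + (X n c j).re / n := by
        unfold A
        rw [Complex.add_re, Complex.one_re, Complex.div_natCast_re]
      have e2 : (A n c j).im = (X n c j).im / n := by
        unfold A
        rw [Complex.add_im, Complex.one_im, Complex.div_natCast_im, zero_add]
      rw [← Complex.normSq_eq_norm_sq, ← Complex.normSq_eq_norm_sq, Complex.normSq_apply,
        Complex.normSq_apply, e1, e2]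
      field_simp
      ring
    set v := η * R / n with hv
    have hv0 : 0 < v := by positivity
    have hv1 : v ≤ 1 / 10000 := by
      rw [hv, div_le_iff₀ hn0]
      nlinarith
    have h5 : 2 * (X n c j).re / n ≤ -(18 / 10 * v) := by
      rw [hv, div_le_iff₀ hn0]
      have : -(18 / 10 * (η * R / n)) * n = -(18 / 10 * (η * R)) := by field_simp
      rw [this]
      linarith
    have h6 : ‖X n c j‖ ^ 2 / n ^ 2 ≤ 2 / 100 * v := by
      rw [hv, div_le_iff₀ (by positivity)]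
      have e1 : 2 / 100 * (η * R / n) * n ^ 2 = 2 * R * (η / 100 * n) := by
        field_simp
      rw [e1]
      calc ‖X n c j‖ ^ 2 ≤ (11 / 10 * R) ^ 2 := pow_le_pow_left₀ (norm_nonneg _) hnX 2
        _ ≤ 2 * R * R := by nlinarith
        _ ≤ _ := by gcongr
    have h7 : ‖A n c j‖ ^ 2 ≤ (1 - 88 / 100 * v) ^ 2 := by
      rw [h4]
      nlinarith [sq_nonneg v]
    exact le_of_sq_le_sq h7 (by linarith)
  have hcast : ((n - 1 : ℕ) : ℝ) = n - 1 := by
    rw [Nat.cast_sub (by omega)]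
    simp
  have hbase : ‖A n c j‖ + 1 / (10 * n) ≤ Real.exp (-(85 / 100 * (η * R / n))) := by
    have h4 := Real.add_one_le_exp (-(85 / 100 * (η * R / n)))
    have h5 : 1 / (10 * (n:ℝ)) ≤ 3 / 100 * (η * R / n) := by
      rw [show 1 / (10 * (n:ℝ)) = (1 / 10) / n by field_simp, ← mul_div_assoc]
      gcongr
      linarith
    linarith
  have hpow : (‖A n c j‖ + 1 / (10 * n)) ^ (n - 1) ≤ Real.exp (-(3 * x)) := by
    have h0 : 0 ≤ ‖A n c j‖ + 1 / (10 * (n:ℝ)) := by positivity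
    calc (‖A n c j‖ + 1 / (10 * n)) ^ (n - 1) ≤ (Real.exp (-(85 / 100 * (η * R / n)))) ^ (n - 1) :=
          pow_le_pow_left₀ h0 hbase _
      _ = Real.exp (((n:ℝ) - 1) * -(85 / 100 * (η * R / n))) := by
          rw [← Real.exp_nat_mul, hcast]
      _ ≤ Real.exp (-(3 * x)) := by
          apply Real.exp_le_exp.2
          have h4 : ((n:ℝ) - 1) * -(85 / 100 * (η * R / n)) =
              -(85 / 100 * (η * R)) * (1 - 1 / n) := by
            field_simp
          have h5 : 1 / (n:ℝ) ≤ 1 / 100 := by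
            apply one_div_le_one_div_of_le (by norm_num)
            linarith
          rw [h4, hx]
          have h6 : 0 < η * R := by positivity
          nlinarith
  have hDe : D ≤ Real.exp (x / 16) := by
    rw [← Real.log_le_iff_le_exp hD0]
    by_contra hcon
    push Not at hcon
    have h5 : (x / 16) ^ 4 ≤ Real.log D ^ 4 := pow_le_pow_left₀ (by positivity) hcon.le 4
    have h6 : (x / 16) ^ 4 = x ^ 2 * (x ^ 2 / 65536) := by ring
    have h7 : (2:ℝ) ≤ x ^ 2 / 65536 := by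
      rw [le_div_iff₀ (by norm_num)]
      nlinarith
    have h8 : 0 < x ^ 2 := by positivity
    nlinarith
  have h120 : 120 * R ≤ Real.exp x := by
    refine le_trans ?_ hR8
    have h4 : R ^ 8 = R ^ 7 * R := by ring
    have h5 : (120:ℝ) ≤ R ^ 7 := by
      have : R ≤ R ^ 7 := le_self_pow₀ (by linarith) (by norm_num)
      linarith
    rw [h4]
    gcongr
  rw [le_div_iff₀ (by positivity)]
  calc Y n c * (‖A n c j‖ + 1 / (10 * n)) ^ (n - 1) * (40 * D)
      ≤ (3 * R) * Real.exp (-(3 * x)) * (40 * Real.exp (x / 16)) := by gcongr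
    _ = (120 * R) * (Real.exp (-(3 * x)) * Real.exp (x / 16)) := by ring
    _ ≤ Real.exp x * (Real.exp (-(3 * x)) * Real.exp (x / 16)) := by gcongr
    _ = Real.exp (x + (-(3 * x) + x / 16)) := by rw [Real.exp_add, Real.exp_add]
    _ ≤ 1 := by
        rw [Real.exp_le_one_iff]
        linarith

theorem lastEsc (hESC : P_ESC) {n : ℕ} (hn : 10 ^ 6 ≤ n) {η : ℝ} (hη0 : 0 < η)
    (hη : η ≤ 1 / 100) :
    Last n η (8 / η * Real.log n) 1 (fun _ => (N62a1eb23.multibrotSet n)ᶜ) := by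
  intro c₀ j D cf hbig hT hRn hlog hY hre c hc
  set R := ‖X n c₀ j‖ with hR
  have hη1 : η ≤ 1 := by linarith
  have hn' : (10:ℝ) ^ 6 ≤ n := by exact_mod_cast hn
  have hn0 : (0:ℝ) < n := by linarith
  have hn2 : 2 ≤ n := le_trans (by norm_num) hn
  obtain ⟨h1, h2, h3, h10⟩ := rho_num hη0 hη1 hbig
  obtain ⟨hR40, hx39, hRx, hR8⟩ := big_num hη0 hη1 h1
  have hR0 : 0 < R := lt_of_lt_of_le (by norm_num) hR40
  obtain ⟨r1, r2, r3, r4⟩ := rad_facts cf.geo.L0 hη0 hη1 hR.symm hbig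
  obtain ⟨v1, -, v3⟩ := var_rad hn cf hη0 hη1 hR.symm hbig hc
  have hcD : c ∈ DD n c₀ j := dd_sub cf.geo.L0 (r4 hc)
  have hY1 := cf.y1 c hcD
  have hreX : 9 / 10 * (η * R) ≤ (X n c j).re := by
    have h4 := (abs_le.1 ((Complex.abs_re_le_norm _).trans v1)).1
    rw [Complex.sub_re] at h4
    linarith
  refine hESC n hn c j hY1 ?_
  rw [Pool.Agent.W12.MB.norm_X n c j]
  set v := 45 / 100 * (η * R / n) with hv
  have hv0 : 0 < v := by positivity
  have hv1 : v ≤ 1 / 40 := by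
    have : η * R / n ≤ 1 / 10000 := by
      rw [div_le_iff₀ hn0]
      nlinarith
    linarith
  have h5 : Real.exp v ≤ ‖A n c j‖ := by
    have h2 : Real.exp v ≤ 1 / (1 - v) := by
      have h3 := Real.add_one_le_exp (-v)
      rw [Real.exp_neg] at h3
      rw [le_div_iff₀ (by linarith)]
      have h4 := Real.exp_pos v
      calc Real.exp v * (1 - v) ≤ Real.exp v * (Real.exp v)⁻¹ := by
            apply mul_le_mul_of_nonneg_left _ h4.le
            linarith
        _ = 1 := mul_inv_cancel₀ h4.ne'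
    have h3 : 1 / (1 - v) ≤ 1 + 2 * v := by
      rw [div_le_iff₀ (by linarith)]
      nlinarith
    have h4 : (A n c j).re = 1 + (X n c j).re / n := by
      unfold A
      rw [Complex.add_re, Complex.one_re, Complex.div_natCast_re]
    have h5 : (A n c j).re ≤ ‖A n c j‖ := Complex.re_le_norm _
    have h6 : 9 / 10 * (η * R) / n ≤ (X n c j).re / n := by gcongr
    have h7 : 9 / 10 * (η * R) / n = 2 * v := by rw [hv]; ring
    linarith
  have h6 : Real.exp (45 / 100 * (η * R)) ≤ ‖A n c j‖ ^ n := by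
    calc Real.exp (45 / 100 * (η * R)) = Real.exp v ^ n := by
          rw [← Real.exp_nat_mul]
          congr 1
          rw [hv]
          field_simp
      _ ≤ _ := pow_le_pow_left₀ (Real.exp_pos _).le h5 _
  have h7 : 3 * Real.log n ≤ 45 / 100 * (η * R) := by
    have h8 : 8 * Real.log n ≤ η * R := by
      calc 8 * Real.log n = η * (8 / η * Real.log n) := by field_simp
        _ ≤ η * R := by gcongr
    have h9 : 0 ≤ Real.log n := Real.log_nonneg (by linarith)
    linarith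
  have h8 : (n:ℝ) ^ 3 ≤ ‖A n c j‖ ^ n := by
    refine le_trans ?_ ((Real.exp_le_exp.2 h7).trans h6)
    have : Real.exp (3 * Real.log n) = (n:ℝ) ^ 3 := by
      rw [show 3 * Real.log (n:ℝ) = ((3:ℕ):ℝ) * Real.log n by norm_num, Real.exp_nat_mul,
        Real.exp_log hn0]
    exact this.symm.le
  have h9 : 10 * (n:ℝ) < n ^ 3 := by
    have : (n:ℝ) ^ 3 = n * n ^ 2 := by ring
    rw [this]
    nlinarith
  nlinarith [norm_nonneg (A n c j)]

end Pool.Agent.N228.AZ
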