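import Mathlib
import Pool.Agent.N228.AZ.LastStep

/-! # The first stage: from the annulus to the discs of level one -/

set_option autoImplicit false
open Metric MeasureTheory Set Filter Topology

namespace Pool.Agent.N228.AZ

open Pool.Agent.W747.MB
open Pool.Agent.TH363.CD

theorem cont_Y (n : ℕ) : Continuous fun c : ℂ => Y n c := by
  unfold Y
  fun_prop

/-- numerical facts on `u = ρ₀ / (n - 1)`, `ρ₀ = 100 / η` -/
theorem u_num {η N : ℝ} (hη0 : 0 < η) (hη : η ≤ 1 / 100) (hN : 10 ^ 41 ≤ η ^ 5 * N) :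
    0 < N ∧ 0 < 100 / η / N ∧ 100 / η / N ≤ η / 100000 ∧ 100 / η * (100 / η / N) ≤ η / 100000 := by
  have hN0 : 0 < N := by
    by_contra h
    push Not at h
    have : 0 < η ^ 5 := by positivity
    nlinarith
  have h4 : η ^ 4 ≤ 1 := pow_le_one₀ hη0.le (by linarith)
  have h3 : η ^ 5 ≤ η ^ 3 := pow_le_pow_of_le_one hη0.le (by linarith) (by norm_num)
  have h2 : η ^ 5 ≤ η ^ 2 := pow_le_pow_of_le_one hη0.le (by linarith) (by norm_num)
  refine ⟨hN0, by positivity, ?_, ?_⟩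
  · rw [div_div, div_le_div_iff₀ (by positivity) (by norm_num)]
    have : η ^ 5 * N ≤ η ^ 2 * N := by gcongr
    nlinarith
  · rw [div_div, div_mul_div_comm, div_le_div_iff₀ (by positivity) (by norm_num)]
    have : η ^ 5 * N ≤ η ^ 3 * N := by gcongr
    nlinarith

theorem yr {n : ℕ} (hn : 2 ≤ n) {x c : ℂ} {ρ : ℝ} (hρ : 0 ≤ ρ) (hu : ρ / ((n:ℝ) - 1) ≤ 1 / 2)
    (h : ‖c - x‖ ≤ ‖x‖ * (ρ / ((n : ℝ) - 1))) :
    Real.exp (-(2 * ρ)) * Y n x ≤ Y n c ∧ Y n c ≤ Real.exp ρ * Y n x := by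
  have hn' : (2 : ℝ) ≤ n := by exact_mod_cast hn
  have hN : (0 : ℝ) < (n : ℝ) - 1 := by linarith
  have hcast : ((n - 1 : ℕ) : ℝ) = (n : ℝ) - 1 := by
    rw [Nat.cast_sub (by omega)]; simp
  set u := ρ / ((n:ℝ) - 1) with hu'
  have hu0 : 0 ≤ u := by positivity
  have hρu : ((n:ℝ) - 1) * u = ρ := by rw [hu']; field_simp
  have hx := norm_nonneg x
  have hup : ‖c‖ ≤ ‖x‖ * Real.exp u := by
    have h2 : ‖c‖ ≤ ‖c - x‖ + ‖x‖ := by
      have := norm_add_le (c - x) x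
      rwa [sub_add_cancel] at this
    have h3 := Real.add_one_le_exp u
    nlinarith
  have hlo : ‖x‖ * Real.exp (-(2 * u)) ≤ ‖c‖ := by
    have h2 : ‖x‖ ≤ ‖c - x‖ + ‖c‖ := by
      have := norm_add_le (x - c) c
      rw [sub_add_cancel, norm_sub_rev] at this
      exact this
    have h3 : Real.exp (-(2 * u)) ≤ 1 - u := by
      have h4 := Real.add_one_le_exp (2 * u)
      rw [Real.exp_neg, inv_le_comm₀ (Real.exp_pos _) (by linarith)]
      refine le_trans ?_ h4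
      rw [inv_le_comm₀ (by linarith) (by linarith)]
      rw [inv_le_iff_one_le_mul₀ (by linarith)]
      nlinarith
    nlinarith
  have hn0 : (0:ℝ) ≤ n := by linarith
  have hYx : Y n x = n * ‖x‖ ^ (n - 1) := rfl
  have hYc : Y n c = n * ‖c‖ ^ (n - 1) := rfl
  constructor
  · have h2 : (‖x‖ * Real.exp (-(2 * u))) ^ (n - 1) ≤ ‖c‖ ^ (n - 1) :=
      pow_le_pow_left₀ (by positivity) hlo _
    rw [mul_pow, ← Real.exp_nat_mul, hcast] at h2
    have h3 : ((n:ℝ) - 1) * -(2 * u) = -(2 * ρ) := by rw [← hρu]; ring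
    rw [h3] at h2
    rw [hYx, hYc]
    calc Real.exp (-(2 * ρ)) * (n * ‖x‖ ^ (n - 1)) = n * (‖x‖ ^ (n - 1) * Real.exp (-(2 * ρ))) := by
          ring
      _ ≤ _ := by gcongr
  · have h2 : ‖c‖ ^ (n - 1) ≤ (‖x‖ * Real.exp u) ^ (n - 1) :=
      pow_le_pow_left₀ (norm_nonneg _) hup _
    rw [mul_pow, ← Real.exp_nat_mul, hcast, hρu] at h2
    rw [hYx, hYc]
    calc n * ‖c‖ ^ (n - 1) ≤ n * (‖x‖ ^ (n - 1) * Real.exp ρ) := by gcongr
      _ = _ := by ring

/-- the radius of the discs for the first averaging -/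
noncomputable def rr (n : ℕ) (η : ℝ) (x : ℂ) : ℝ := ‖x‖ * (100 / η / ((n:ℝ) - 1))

theorem alpha (hLIN : P_LIN) {n : ℕ} (hn : 10 ^ 6 ≤ n) {η τ : ℝ} (hη0 : 0 < η)
    (hη : η ≤ 1 / 100) (hnη : 10 ^ 42 ≤ η ^ 5 * n) (hτ : τ = 1 ∨ τ = -1) {x : ℂ} (hx : x ≠ 0) :
    ENNReal.ofReal (1 / 2 - η) * volume (closedBall x (rr n η x)) ≤
      volume {c | c ∈ closedBall x (rr n η x) ∧ η * ‖X n c 1‖ ≤ τ * (X n c 1).re} := by
  have hn2 : 2 ≤ n := le_trans (by norm_num) hn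
  have hn' : (10:ℝ) ^ 6 ≤ n := by exact_mod_cast hn
  have hn0 : (0:ℝ) < n := by linarith
  set N : ℝ := (n:ℝ) - 1 with hN
  have hη5 : η ^ 5 ≤ 1 := pow_le_one₀ hη0.le (by linarith)
  obtain ⟨hN0, u0, u1, u2⟩ := u_num hη0 hη (N := N) (by rw [hN]; nlinarith)
  have hx0 : 0 < ‖x‖ := norm_pos_iff.2 hx
  have hrr : rr n η x = ‖x‖ * (100 / η / N) := rfl
  set u := 100 / η / N with hu
  have hr0 : 0 < rr n η x := by rw [hrr]; positivity
  set ℓ₀ : ℂ := ((n:ℂ) - 1) / x with hℓ₀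
  have hℓn : ‖ℓ₀‖ = N / ‖x‖ := by
    rw [hℓ₀, norm_div, Pool.Agent.W216.MB.BAS.nm1 hn2]
  have hρ : ‖ℓ₀‖ * rr n η x = 100 / η := by
    rw [hℓn, hrr, hu]; field_simp
  have hcx : ∀ c ∈ closedBall x (rr n η x), ‖x‖ / 2 ≤ ‖c‖ := by
    intro c hc
    rw [mem_closedBall, dist_eq_norm, hrr] at hc
    have h2 : ‖x‖ ≤ ‖c‖ + ‖c - x‖ := by
      calc ‖x‖ = ‖c - (c - x)‖ := by congr 1; ring
        _ ≤ _ := norm_sub_le _ _
    have h3 : ‖x‖ * u ≤ ‖x‖ * (1 / 2) := by gcongr; linarith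
    linarith
  have hgood : ∀ c ∈ closedBall x (rr n η x),
      HasDerivAt (fun c => X n c 1) (X n c 1 * L n c 1) c ∧
      ‖L n c 1 - ℓ₀‖ * rr n η x ≤ 2 * (100 / η * u) := by
    intro c hc
    have h1 := hcx c hc
    have hc0 : 0 < ‖c‖ := by linarith
    have hcne : c ≠ 0 := norm_pos_iff.1 hc0
    obtain ⟨d1, -⟩ := Pool.Agent.W366.MB.main n hn2 c 1 hcne (by
      intro i hi
      obtain rfl : i = 0 := by omega
      simp [A, X])
    refine ⟨d1, ?_⟩
    have h3 : L n c 1 - ℓ₀ = ℓ₀ * ((x - c) / c) := by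
      rw [Pool.Agent.W216.MB.BAS.L1, hℓ₀]
      field_simp
    have h4 : ‖(x - c) / c‖ ≤ 2 * u := by
      rw [norm_div, norm_sub_rev, div_le_iff₀ hc0]
      rw [mem_closedBall, dist_eq_norm, hrr] at hc
      nlinarith
    rw [h3, norm_mul]
    calc ‖ℓ₀‖ * ‖(x - c) / c‖ * rr n η x = (‖ℓ₀‖ * rr n η x) * ‖(x - c) / c‖ := by ring
      _ ≤ (100 / η) * (2 * u) := by rw [hρ]; gcongr
      _ = _ := by ring
  have hg0 : X n x 1 ≠ 0 := by
    rw [Pool.Agent.W216.MB.BAS.X1]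
    refine mul_ne_zero ?_ (pow_ne_zero _ hx)
    exact_mod_cast hn0.ne'
  have h20 : 10000 ≤ 100 / η := by
    rw [le_div_iff₀ hη0]; linarith
  have hmain := half_disc hLIN (g := fun c => X n c 1) (ℓ := fun c => L n c 1) (ℓ₀ := ℓ₀)
    (κ := 2 * (100 / η * u)) hr0 (by positivity) hη0.le (by linarith) hτ hg0
    (by rw [hρ]; linarith) hgood
  refine le_trans ?_ hmain
  gcongr ENNReal.ofReal ?_ * _
  rw [hρ]
  have h15 : 15 / (100 / η) = 15 / 100 * η := by field_simp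
  rw [h15]
  linarith

/-- the configuration of level one -/
theorem cf1 {n : ℕ} (hn : 2 ≤ n) {c₁ : ℂ} (ht : 10 ^ 20 ≤ Y n c₁) :
    Cf n c₁ 1 (2 * Y n c₁) ∧ L n c₁ 1 = (n - 1) / c₁ ∧ ‖X n c₁ 1‖ = Y n c₁ := by
  obtain ⟨cfg, hL, hXn⟩ := Pool.Agent.W216.MB.BAS.main n hn c₁ (le_trans (by norm_num) ht)
  have hy1 : ∀ c ∈ DD n c₁ 1, 1 ≤ Y n c := by
    intro c hc
    have := (abs_le.1 (hVar n hn c₁ 1 cfg.geo c hc).2.2).1
    have h5 : (2:ℝ) ≤ Y n c₁ := le_trans (by norm_num) ht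
    linarith
  refine ⟨⟨cfg.geo, by linarith, ?_, ?_, hy1⟩, hL, hXn⟩
  · intro c hc i hi1 hi2
    obtain rfl : i = 1 := by omega
    exact cfg.ph c hc
  · intro c hc i hi1 hi2
    obtain rfl : i = 1 := by omega
    rw [Pool.Agent.W216.MB.BAS.X1, norm_mul, norm_pow, Complex.norm_natCast]
    exact hy1 c hc

theorem first (hAVG : P_AVG) (hLIN : P_LIN) {n : ℕ} (hn : 10 ^ 6 ≤ n) {η T σ : ℝ}
    {F : ℕ → Set ℂ} (hη0 : 0 < η) (hη : η ≤ 1 / 100) (hσ : σ = 1 ∨ σ = -1)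
    (hF : Last n η T σ F) (i : ℕ) (hnη : 10 ^ 42 ≤ η ^ 5 * n) {a b : ℝ}
    (ha : 10 ^ 40 ≤ η ^ 4 * a) (hT : T ≤ (G η)^[i] a) (hb : E2^[i] b ≤ η / 100 * n) :
    ENNReal.ofReal ((1 / 2) ^ (i + 1) * (1 - 8 * (i + 1) * η)) *
      volume {c : ℂ | Real.exp (201 / η) * a ≤ Y n c ∧ Real.exp (201 / η) * Y n c ≤ b} ≤
      volume (F (1 + i) ∩ {c : ℂ | a ≤ Y n c ∧ Y n c ≤ b}) := by
  rcases le_or_gt (1 - 8 * ((i : ℝ) + 1) * η) 0 with h0 | h0
  · have h1 : ENNReal.ofReal ((1 / 2) ^ (i + 1) * (1 - 8 * ((i : ℝ) + 1) * η)) = 0 := by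
      rw [ENNReal.ofReal_eq_zero]
      exact mul_nonpos_of_nonneg_of_nonpos (by positivity) h0
    rw [h1, zero_mul]
    exact bot_le
  have hη1 : η ≤ 1 := by linarith
  have hn2 : 2 ≤ n := le_trans (by norm_num) hn
  have hn' : (10:ℝ) ^ 6 ≤ n := by exact_mod_cast hn
  have hn0 : (0:ℝ) < n := by linarith
  set N : ℝ := (n:ℝ) - 1 with hN
  have hη5 : η ^ 5 ≤ 1 := pow_le_one₀ hη0.le (by linarith)
  obtain ⟨hN0, u0, u1, u2⟩ := u_num hη0 hη (N := N) (by rw [hN]; nlinarith)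
  set u := 100 / η / N with hu
  obtain ⟨ha2, -, -, -⟩ := rho_num hη0 hη1 ha
  obtain ⟨ha40, -, -, -⟩ := big_num hη0 hη1 ha2
  have ha0 : 0 < a := lt_of_lt_of_le (by norm_num) ha40
  have h100 : 100 ≤ 1 / η := by
    rw [le_div_iff₀ hη0]; linarith
  have he : 2 ≤ Real.exp (1 / η) := by
    have := Real.add_one_le_exp (1 / η)
    linarith
  set ai : ℝ := (1 / 2) ^ i * (1 - 8 * i * η) with hai
  have hi0 : 0 ≤ 1 - 8 * (i : ℝ) * η := by nlinarith
  have hai0 : 0 ≤ ai := by positivity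
  have hτ : dirσ σ i = 1 ∨ dirσ σ i = -1 := by
    cases i with
    | zero => exact hσ
    | succ i => exact Or.inl rfl
  set S₂ : Set ℂ := {c : ℂ | Real.exp (201 / η) * a ≤ Y n c ∧ Real.exp (201 / η) * Y n c ≤ b}
    with hS₂
  set S₁ : Set ℂ := {c : ℂ | (2 * a ≤ Y n c ∧ 2 * Y n c ≤ b) ∧
    η * ‖X n c 1‖ ≤ dirσ σ i * (X n c 1).re} with hS₁
  have hYc := cont_Y n
  have hS₂m : MeasurableSet S₂ :=
    ((isClosed_le continuous_const hYc).inter
      (isClosed_le (continuous_const.mul hYc) continuous_const)).measurableSet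
  have hS₁m : MeasurableSet S₁ :=
    (((isClosed_le continuous_const hYc).inter
      (isClosed_le (continuous_const.mul hYc) continuous_const)).inter
      (isClosed_le (continuous_const.mul (cont_X n 1).norm)
        (continuous_const.mul (Complex.continuous_re.comp (cont_X n 1))))).measurableSet
  have hne : ∀ x : ℂ, a ≤ Y n x → x ≠ 0 := by
    rintro x hx rfl
    unfold Y at hx
    rw [norm_zero, zero_pow (by omega), mul_zero] at hx
    linarith
  -- the second averaging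
  have hA1 : ENNReal.ofReal ai * volume S₁ ≤ ENNReal.ofReal ((1 + η) ^ 2) *
      volume (F (1 + i) ∩ {c : ℂ | a ≤ Y n c ∧ Y n c ≤ b}) := by
    have hfac : ∀ x ∈ S₁, Cf n x 1 (2 * Y n x) ∧ ‖X n x 1‖ = Y n x ∧
        10 ^ 40 ≤ η ^ 4 * ‖X n x 1‖ ∧ 0 < rad n x 1 ∧ closedBall x (rad n x 1) ⊆
          {c : ℂ | a ≤ Y n c ∧ Y n c ≤ b} := by
      rintro x ⟨⟨x1, x2⟩, x3⟩
      have hYx : 10 ^ 20 ≤ Y n x := le_trans (le_trans (by norm_num) ha40) (by linarith)
      obtain ⟨cf, hL, hXn⟩ := cf1 hn2 hYx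
      have hbig : 10 ^ 40 ≤ η ^ 4 * ‖X n x 1‖ := by
        rw [hXn]
        refine ha.trans ?_
        gcongr
        linarith
      obtain ⟨r1, r2, r3, r4⟩ := rad_facts cf.geo.L0 hη0 hη1 rfl hbig
      refine ⟨cf, hXn, hbig, r1, ?_⟩
      intro c hc
      rw [mem_closedBall, dist_eq_norm] at hc
      have hLn : ‖L n x 1‖ = N / ‖x‖ := by
        rw [hL, norm_div, Pool.Agent.W216.MB.BAS.nm1 hn2]
      have hx0 : 0 < ‖x‖ := norm_pos_iff.2 (hne x (by linarith))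
      have h5 : ‖c - x‖ ≤ ‖x‖ * (1 / 10 ^ 9 / ((n:ℝ) - 1)) := by
        refine (hc.trans r3).trans (le_of_eq ?_)
        rw [hLn, ← hN]
        field_simp
      obtain ⟨y1, y2⟩ := Pool.Agent.W230.MB.Y_ratio hn2 (by norm_num) (by norm_num) h5
      have h6 : Real.exp (1 / 10 ^ 9) ≤ 2 := by
        have h3 : Real.exp (1 / 10 ^ 9 : ℝ) ≤ Real.exp (Real.log 2) :=
          Real.exp_le_exp.2 (by linarith [Real.log_two_gt_d9])
        rwa [Real.exp_log (by norm_num)] at h3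
      constructor
      · show a ≤ Y n c
        linarith
      · show Y n c ≤ b
        have : Real.exp (1 / 10 ^ 9) * Y n x ≤ 2 * Y n x :=
          mul_le_mul_of_nonneg_right h6 (by linarith)
        linarith
    refine hAVG S₁ _ (fun c => rad n c 1) ai (1 + η) hS₁m (meas_rad n 1) hai0 (by linarith)
      (fun x hx => (hfac x hx).2.2.2.1) ?_ ?_
    · intro x hx
      obtain ⟨cf, hXn, hbig, r1, hsub⟩ := hfac x hx
      obtain ⟨⟨x1, x2⟩, x3⟩ := hx
      have hYx : 10 ^ 20 ≤ Y n x := le_trans (le_trans (by norm_num) ha40) (by linarith)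
      have hSB := SB hAVG hLIN hn hη0 hη hσ hF i x 1 (2 * Y n x) (Y n x) cf hXn
        (by rw [hXn] at hbig; exact hbig)
        (hT.trans (((G_mono hη0).iterate i) (by linarith)))
        ((((E2_mono.iterate i) (by linarith))).trans hb)
        (log_two_four hYx) (by linarith)
        (by rw [hXn] at x3; exact x3)
      refine hSB.trans (measure_mono ?_)
      intro y hy
      exact ⟨⟨hy.1, hsub hy.2⟩, hy.2⟩
    · intro x hx x' hx' y hy hy'
      obtain ⟨cf, hXn, hbig, r1, hsub⟩ := hfac x hx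
      exact comp hn cf hη0 hη1 hbig (hfac x' hx').2.2.2.1 hy hy'
  -- the first averaging
  have hA2 : ENNReal.ofReal (1 / 2 - η) * volume S₂ ≤ ENNReal.ofReal ((1 + η) ^ 2) *
      volume S₁ := by
    have hYb : ∀ x ∈ S₂, ∀ y ∈ closedBall x (rr n η x), 2 * a ≤ Y n y ∧ 2 * Y n y ≤ b := by
      rintro x ⟨x1, x2⟩ y hy
      rw [mem_closedBall, dist_eq_norm] at hy
      obtain ⟨y1, y2⟩ := yr hn2 (ρ := 100 / η) (by positivity) (by rw [← hN, ← hu]; linarith) hy
      have hYx0 : 0 ≤ Y n x := by unfold Y; positivity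
      constructor
      · calc 2 * a ≤ Real.exp (1 / η) * a := by gcongr
          _ = Real.exp (-(2 * (100 / η))) * (Real.exp (201 / η) * a) := by
              rw [← mul_assoc, ← Real.exp_add]
              congr 2
              ring
          _ ≤ Real.exp (-(2 * (100 / η))) * Y n x := by gcongr
          _ ≤ _ := y1
      · calc 2 * Y n y ≤ Real.exp (1 / η) * (Real.exp (100 / η) * Y n x) := by
              gcongr
              unfold Y
              positivity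
          _ = Real.exp (101 / η) * Y n x := by
              rw [← mul_assoc, ← Real.exp_add]
              congr 2
              ring
          _ ≤ Real.exp (201 / η) * Y n x := by
              gcongr
              norm_num
          _ ≤ b := x2
    have hexp1 : 1 ≤ Real.exp (201 / η) := Real.one_le_exp (by positivity)
    have hS₂ne : ∀ x ∈ S₂, x ≠ 0 := fun x hx => hne x (by
      have := hx.1
      nlinarith)
    have hrm : Measurable fun x : ℂ => rr n η x := by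
      unfold rr
      exact measurable_norm.mul_const _
    refine hAVG S₂ S₁ (fun x => rr n η x) (1 / 2 - η) (1 + η) hS₂m hrm (by linarith)
      (by linarith) ?_ ?_ ?_
    · intro x hx
      have := norm_pos_iff.2 (hS₂ne x hx)
      show 0 < ‖x‖ * (100 / η / N)
      positivity
    · intro x hx
      refine (alpha hLIN hn hη0 hη hnη hτ (hS₂ne x hx)).trans (measure_mono ?_)
      rintro c ⟨hc1, hc2⟩
      exact ⟨⟨hYb x hx c hc1, hc2⟩, hc1⟩
    · intro x hx x' hx' y hy hy'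
      rw [mem_closedBall, dist_eq_norm] at hy hy'
      have e1 : rr n η x = ‖x‖ * u := rfl
      have e2 : rr n η x' = ‖x'‖ * u := rfl
      show rr n η x ≤ (1 + η) * rr n η x'
      rw [e1] at hy
      rw [e2] at hy'
      rw [e1, e2]
      have h2 : ‖x‖ ≤ ‖y - x‖ + ‖y‖ := by
        have := norm_add_le (x - y) y
        rw [sub_add_cancel, norm_sub_rev] at this
        exact this
      have h3 : ‖y‖ ≤ ‖y - x'‖ + ‖x'‖ := by
        have := norm_add_le (y - x') x'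
        rwa [sub_add_cancel] at this
      have h4 : ‖x‖ * (1 - u) ≤ ‖x'‖ * (1 + u) := by nlinarith
      have h5 : ‖x‖ ≤ (1 + η) * ‖x'‖ := by
        have h6 : (1 + u) ≤ (1 + η) * (1 - u) := by nlinarith
        have h7 : ‖x‖ * (1 - u) ≤ (1 + η) * ‖x'‖ * (1 - u) := by
          calc ‖x‖ * (1 - u) ≤ ‖x'‖ * (1 + u) := h4
            _ ≤ ‖x'‖ * ((1 + η) * (1 - u)) := by gcongr
            _ = _ := by ring
        exact le_of_mul_le_mul_right h7 (by linarith)
      nlinarith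
  -- conclusion
  refine cancel (K := (1 + η) ^ 4) (b := ai * (1 / 2 - η)) (by positivity) ?_ ?_
  · have h6 : (1 + η) ^ 4 ≤ 1 + 5 * η := by
      have h7 : (1 + η) ^ 4 = 1 + 4 * η + η * (6 * η + 4 * η ^ 2 + η ^ 3) := by ring
      rw [h7]
      have h8 : 6 * η + 4 * η ^ 2 + η ^ 3 ≤ 1 := by
        have h9 : η ^ 2 ≤ η := by nlinarith
        have h10 : η ^ 3 ≤ η := by
          have : η ^ 3 = η ^ 2 * η := by ring
          nlinarith
        linarith
      nlinarith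
    have e1 : (1 + η) ^ 4 * ((1 / 2) ^ (i + 1) * (1 - 8 * ((i:ℝ) + 1) * η)) =
        (1 / 2) ^ (i + 1) * ((1 + η) ^ 4 * (1 - 8 * ((i:ℝ) + 1) * η)) := by ring
    have e2 : ai * (1 / 2 - η) = (1 / 2) ^ (i + 1) * ((1 - 8 * i * η) * (1 - 2 * η)) := by
      rw [hai, pow_succ]; ring
    rw [e1, e2]
    apply mul_le_mul_of_nonneg_left _ (by positivity)
    calc (1 + η) ^ 4 * (1 - 8 * ((i:ℝ) + 1) * η) ≤ (1 + 5 * η) * (1 - 8 * ((i:ℝ) + 1) * η) := by
          gcongr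
      _ ≤ _ := by
          have : 0 ≤ (i:ℝ) * η := by positivity
          nlinarith
  · calc ENNReal.ofReal (ai * (1 / 2 - η)) * volume S₂
        = ENNReal.ofReal ai * (ENNReal.ofReal (1 / 2 - η) * volume S₂) := by
          rw [ENNReal.ofReal_mul hai0, mul_assoc]
      _ ≤ ENNReal.ofReal ai * (ENNReal.ofReal ((1 + η) ^ 2) * volume S₁) := by gcongr
      _ = ENNReal.ofReal ((1 + η) ^ 2) * (ENNReal.ofReal ai * volume S₁) := by ring
      _ ≤ ENNReal.ofReal ((1 + η) ^ 2) * (ENNReal.ofReal ((1 + η) ^ 2) *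
          volume (F (1 + i) ∩ {c : ℂ | a ≤ Y n c ∧ Y n c ≤ b})) := by gcongr
      _ = _ := by
          rw [← mul_assoc, ← ENNReal.ofReal_mul (by positivity)]
          congr 2
          ring

end Pool.Agent.N228.AZ
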