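import Mathlib
import Pool.Agent.N228.AZ.First
import Pool.Agent.N228.AZ.Stm3

/-! # Windows with a margin depending on the modulus -/

set_option autoImplicit false
open Metric MeasureTheory Set Filter Topology

namespace Pool.Agent.N228.AZ

open Pool.Agent.W747.MB
open Pool.Agent.TH363.CD

/-- the margin -/
noncomputable def hh (a b y : ℝ) : ℝ :=
  10 ^ 10 * y ^ (-(1 / 4) : ℝ) + 1 / 1000 * (y / b) + 1 / 1000 * (a / y)

theorem meas_hh (a b : ℝ) : Measurable (hh a b) := by
  unfold hh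
  exact ((((measurable_id.pow_const _).const_mul _)).add
    ((measurable_id.div_const b).const_mul _)).add ((measurable_const.div measurable_id).const_mul _)

theorem hh_facts {a b y : ℝ} (ha : 10 ^ 60 ≤ a) (hay : a ≤ y) (hyb : y ≤ b) :
    0 < hh a b y ∧ hh a b y ≤ 1 / 100 ∧ 10 ^ 40 ≤ hh a b y ^ 4 * y ∧
      1 / 1000 * (y / b) ≤ hh a b y ∧ 1 / 1000 * (a / y) ≤ hh a b y ∧
      10 ^ 10 * y ^ (-(1 / 4) : ℝ) ≤ hh a b y ∧
      hh a b y ≤ 10 ^ 10 * (y ^ (-(1 / 4) : ℝ) + y / b + a / y) := by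
  have ha0 : 0 < a := lt_of_lt_of_le (by norm_num) ha
  have hy0 : 0 < y := by linarith
  have hb0 : 0 < b := by linarith
  have h1 : 0 < y ^ (-(1 / 4) : ℝ) := Real.rpow_pos_of_pos hy0 _
  have h2 : 0 < y / b := by positivity
  have h3 : 0 < a / y := by positivity
  have h2' : y / b ≤ 1 := by rw [div_le_one hb0]; exact hyb
  have h3' : a / y ≤ 1 := by rw [div_le_one hy0]; exact hay
  have h4 : y ^ (-(1 / 4) : ℝ) ≤ 1 / 10 ^ 15 := by
    calc y ^ (-(1 / 4) : ℝ) ≤ ((10:ℝ) ^ 60) ^ (-(1 / 4) : ℝ) :=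
          Real.rpow_le_rpow_of_nonpos (by norm_num) (ha.trans hay) (by norm_num)
      _ = 1 / 10 ^ 15 := by
          have e1 : ((10:ℝ) ^ 60) ^ ((1 / 4) : ℝ) = 10 ^ 15 := by
            rw [show (10:ℝ) ^ 60 = (10 ^ 15) ^ 4 by norm_num, ← Real.rpow_natCast (10 ^ 15) 4,
              ← Real.rpow_mul (by positivity)]
            norm_num
          rw [Real.rpow_neg (by positivity), e1, one_div]
  have h5 : (y ^ (-(1 / 4) : ℝ)) ^ 4 = 1 / y := by
    rw [← Real.rpow_natCast, ← Real.rpow_mul hy0.le,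
      show (-(1 / 4) : ℝ) * ((4:ℕ):ℝ) = -1 by norm_num, Real.rpow_neg_one, one_div]
  have h6 : 10 ^ 10 * y ^ (-(1 / 4) : ℝ) ≤ hh a b y := by
    unfold hh
    linarith
  refine ⟨by unfold hh; positivity, ?_, ?_, ?_, ?_, h6, ?_⟩
  · unfold hh
    linarith
  · have h7 : (10 ^ 10 * y ^ (-(1 / 4) : ℝ)) ^ 4 ≤ hh a b y ^ 4 :=
      pow_le_pow_left₀ (by positivity) h6 4
    rw [mul_pow, h5] at h7
    calc (10:ℝ) ^ 40 = ((10 ^ 10) ^ 4 * (1 / y)) * y := by
          field_simp
      _ ≤ _ := by gcongr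
  · unfold hh
    have : 0 ≤ 1 / 1000 * (a / y) := by positivity
    have : 0 ≤ 10 ^ 10 * y ^ (-(1 / 4) : ℝ) := by positivity
    linarith
  · unfold hh
    have : 0 ≤ 1 / 1000 * (y / b) := by positivity
    have : 0 ≤ 10 ^ 10 * y ^ (-(1 / 4) : ℝ) := by positivity
    linarith
  · unfold hh
    linarith

theorem iterlog_le (m : ℕ) : ∀ᶠ n : ℕ in atTop, Real.log^[m] (n:ℝ) ≤ n := by
  induction m with
  | zero => exact Eventually.of_forall fun n => le_refl _
  | succ m ih =>
    filter_upwards [ih, (tendsto_iterlog m).eventually_ge_atTop 0] with n h1 h2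
    rw [Function.iterate_succ_apply']
    exact (Real.log_le_self h2).trans h1

theorem iterlog_le_log {m : ℕ} (hm : 1 ≤ m) : ∀ᶠ n : ℕ in atTop,
    Real.log^[m] (n:ℝ) ≤ Real.log n := by
  induction m, hm using Nat.le_induction with
  | base => exact Eventually.of_forall fun n => le_refl _
  | succ m hm ih =>
    filter_upwards [ih, (tendsto_iterlog m).eventually_ge_atTop 0] with n h1 h2
    rw [Function.iterate_succ_apply']
    exact (Real.log_le_self h2).trans h1

theorem win_up {m : ℕ} (hm : 1 ≤ m) : ∀ᶠ n : ℕ in atTop,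
    E2^[m] (Real.log^[m] (n:ℝ) / 10) ≤ Real.exp (Real.log n / 5) := by
  induction m, hm using Nat.le_induction with
  | base =>
    refine Eventually.of_forall fun n => ?_
    rw [Function.iterate_one, Function.iterate_one]
    unfold E2
    apply Real.exp_le_exp.2
    linarith
  | succ m hm ih =>
    filter_upwards [ih, (tendsto_iterlog m).eventually_ge_atTop 100] with n h1 h2
    rw [Function.iterate_succ_apply, Function.iterate_succ_apply' Real.log]
    exact (E2_mono.iterate m (E2_log h2)).trans h1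

/-- the growth -/
theorem grow (m : ℕ) : ∀ᶠ n : ℕ in atTop, ∀ η : ℝ, 0 < η → ∀ R : ℝ,
    128 ≤ η * R → 1 ≤ η * Real.exp (η * R / 8) → 16 * Real.log^[m + 1] (n:ℝ) ≤ η * R →
    16 * Real.log n ≤ η * (G η)^[m] R := by
  induction m with
  | zero =>
    refine Eventually.of_forall fun n η hη R h1 h2 h3 => ?_
    exact h3
  | succ m ih =>
    filter_upwards [ih, (tendsto_iterlog (m + 1)).eventually_ge_atTop 16] with n ih hs
    intro η hη R h1 h2 h3
    rw [Function.iterate_succ_apply]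
    rw [Function.iterate_succ_apply' Real.log] at h3
    set s := Real.log^[m + 1] (n:ℝ) with hs'
    have hs0 : 0 < s := by linarith
    have e1 : G η R = Real.exp (η * R / 8) * Real.exp (η * R / 8) := by
      unfold G
      rw [← Real.exp_add]
      congr 1
      ring
    have h4 : Real.exp (η * R / 8) ≤ η * G η R := by
      rw [e1]
      have := Real.exp_pos (η * R / 8)
      nlinarith
    have h5 : 16 * s ≤ η * G η R := by
      refine le_trans ?_ h4
      calc 16 * s ≤ s * s := by nlinarith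
        _ = Real.exp (2 * Real.log s) := by
            rw [two_mul, Real.exp_add, Real.exp_log hs0]
        _ ≤ Real.exp (η * R / 8) := by
            apply Real.exp_le_exp.2
            linarith
    have h6 : η * R ≤ η * G η R := by
      refine le_trans ?_ h4
      have := Real.quadratic_le_exp_of_nonneg (x := η * R / 8) (by linarith)
      nlinarith
    refine ih η hη (G η R) (h1.trans h6) (h2.trans ?_) h5
    gcongr

/-- the window for the escape -/
theorem win_esc {a b y : ℝ} (ha : 10 ^ 60 ≤ a) (hay : a ≤ y) (hyb : y ≤ b) :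
    128 ≤ hh a b y * y ∧ 1 ≤ hh a b y * Real.exp (hh a b y * y / 8) ∧
      a / 1000 ≤ hh a b y * y := by
  obtain ⟨h0, h1, h2, h3, h4, h5, h6⟩ := hh_facts ha hay hyb
  have ha0 : 0 < a := lt_of_lt_of_le (by norm_num) ha
  have hy0 : 0 < y := by linarith
  have h7 : a / 1000 ≤ hh a b y * y := by
    calc a / 1000 = (1 / 1000 * (a / y)) * y := by field_simp
      _ ≤ _ := by gcongr
  have h8 : (128:ℝ) ≤ a / 1000 := by
    rw [le_div_iff₀ (by norm_num)]
    refine le_trans ?_ ha
    norm_num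
  refine ⟨h8.trans h7, ?_, h7⟩
  -- `1 ≤ η exp (η y / 8)`
  set η := hh a b y with hη
  have h9 := Real.quadratic_le_exp_of_nonneg (x := η * y / 8) (by positivity)
  have h10 : (η * y / 8) ^ 2 / 2 ≤ Real.exp (η * y / 8) := by
    have : 0 ≤ η * y / 8 := by positivity
    linarith
  -- `η ^ 3 y ^ 2 / 128 ≥ 1`
  have h11 : 1 ≤ η * ((η * y / 8) ^ 2 / 2) := by
    have h12 : η * ((η * y / 8) ^ 2 / 2) = (η ^ 3 * y) * y / 128 := by ring
    have h13 : η ^ 4 * y ≤ η ^ 3 * y := by
      have : η ^ 4 ≤ η ^ 3 := pow_le_pow_of_le_one h0.le (by linarith) (by norm_num)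
      gcongr
    rw [h12, le_div_iff₀ (by norm_num)]
    have h14 : (10:ℝ) ^ 40 ≤ η ^ 3 * y := h2.trans h13
    have h15 : (10:ℝ) ^ 60 ≤ y := ha.trans hay
    nlinarith
  exact h11.trans (mul_le_mul_of_nonneg_left h10 h0.le)

end Pool.Agent.N228.AZ
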