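import Mathlib
import Pool.Agent.N228.AZ.SharpWin

/-! # The annulus step with a margin depending on the modulus -/

set_option autoImplicit false
open Metric MeasureTheory Set Filter Topology

namespace Pool.Agent.N228.AZ

open Pool.Agent.W747.MB
open Pool.Agent.TH363.CD

theorem ofReal_max0 (t : ℝ) : ENNReal.ofReal (max 0 t) = ENNReal.ofReal t := by
  rcases le_total 0 t with h | h
  · rw [max_eq_right h]
  · rw [max_eq_left h, ENNReal.ofReal_zero, ENNReal.ofReal_of_nonpos h]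

/-- the modulus on the discs of level one -/
theorem disc1 {n : ℕ} (hn : 10 ^ 6 ≤ n) {x : ℂ} (hx : 10 ^ 40 ≤ Y n x) {η : ℝ} (hη0 : 0 < η)
    (hη : η ≤ 1) (hbig : 10 ^ 40 ≤ η ^ 4 * Y n x) :
    0 < rad n x 1 ∧ ∀ c ∈ closedBall x (rad n x 1),
      99 / 100 * Y n x ≤ Y n c ∧ Y n c ≤ 101 / 100 * Y n x := by
  have hn2 : 2 ≤ n := le_trans (by norm_num) hn
  have hn' : (10:ℝ) ^ 6 ≤ n := by exact_mod_cast hn
  have hn0 : (0:ℝ) < n := by linarith
  have hN0 : (0:ℝ) < (n:ℝ) - 1 := by linarith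
  obtain ⟨cf, hL, hXn⟩ := cf1 hn2 (le_trans (by norm_num) hx)
  have hbig' : 10 ^ 40 ≤ η ^ 4 * ‖X n x 1‖ := by rw [hXn]; exact hbig
  obtain ⟨r1, r2, r3, r4⟩ := rad_facts cf.geo.L0 hη0 hη rfl hbig'
  refine ⟨r1, ?_⟩
  intro c hc
  rw [mem_closedBall, dist_eq_norm] at hc
  have hLn : ‖L n x 1‖ = ((n:ℝ) - 1) / ‖x‖ := by
    rw [hL, norm_div, Pool.Agent.W216.MB.BAS.nm1 hn2]
  have hx0 : 0 < ‖x‖ := by
    rcases (norm_nonneg x).lt_or_eq with h | h
    · exact h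
    · exfalso
      have hYx : Y n x = n * ‖x‖ ^ (n - 1) := rfl
      rw [hYx, ← h, zero_pow (by omega), mul_zero] at hx
      norm_num at hx
  have h5 : ‖c - x‖ ≤ ‖x‖ * (1 / 10 ^ 9 / ((n:ℝ) - 1)) := by
    refine (hc.trans r3).trans (le_of_eq ?_)
    rw [hLn]
    field_simp
  obtain ⟨y1, y2⟩ := Pool.Agent.W230.MB.Y_ratio hn2 (by norm_num) (by norm_num) h5
  have hYx0 : 0 < Y n x := lt_of_lt_of_le (by norm_num) hx
  have h6 : Real.exp (1 / 10 ^ 9) ≤ 101 / 100 := by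
    have h7 := Real.add_one_le_exp (-(1 / 10 ^ 9 : ℝ))
    rw [Real.exp_neg] at h7
    have h8 := Real.exp_pos (1 / 10 ^ 9 : ℝ)
    have h9 : Real.exp (1 / 10 ^ 9) * (-(1 / 10 ^ 9) + 1) ≤ 1 := by
      calc Real.exp (1 / 10 ^ 9 : ℝ) * (-(1 / 10 ^ 9) + 1) ≤
            Real.exp (1 / 10 ^ 9) * (Real.exp (1 / 10 ^ 9))⁻¹ := by gcongr
        _ = 1 := mul_inv_cancel₀ h8.ne'
    linarith
  constructor
  · linarith
  · calc Y n c ≤ Real.exp (1 / 10 ^ 9) * Y n x := y2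
      _ ≤ _ := by gcongr

theorem sharp (hAVG : P_AVG) (hLIN : P_LIN) (hW : P_WAVG) (hROT : P_ROT) {n : ℕ}
    (hn : 10 ^ 6 ≤ n) {σ : ℝ} {T : ℝ → ℝ} {F : ℕ → Set ℂ} (hσ : σ = 1 ∨ σ = -1)
    (hF : ∀ η : ℝ, 0 < η → η ≤ 1 / 100 → Last n η (T η) σ F) (i : ℕ) {C : ℝ}
    {a b : ℝ} (ha : 10 ^ 60 ≤ a)
    (hrad : ∫⁻ c in Zn n a b, ENNReal.ofReal ((Y n c) ^ (-(1 / 4) : ℝ) + Y n c / b + a / Y n c) ≤
      ENNReal.ofReal (C / n))
    (hTw : ∀ y, a ≤ y → y ≤ b → T (hh a b y) ≤ (G (hh a b y))^[i] y)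
    (hEw : ∀ y, a ≤ y → y ≤ b → E2^[i] y ≤ hh a b y / 100 * n) :
    ENNReal.ofReal ((1 / 2) ^ (i + 1)) * volume (Zn n a b) ≤
      volume (F (1 + i) ∩ Zn n (a / 2) (2 * b)) +
        ENNReal.ofReal (8 * (i + 1) * (1 / 2) ^ (i + 1) * 10 ^ 10 * C / n) := by
  have hn2 : 2 ≤ n := le_trans (by norm_num) hn
  have hn' : (10:ℝ) ^ 6 ≤ n := by exact_mod_cast hn
  have hn0 : (0:ℝ) < n := by linarith
  have ha0 : 0 < a := lt_of_lt_of_le (by norm_num) ha
  have hτ : dirσ σ i = 1 ∨ dirσ σ i = -1 := by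
    cases i with
    | zero => exact hσ
    | succ i => exact Or.inl rfl
  set h : ℝ → ℝ := hh a b with hh'
  have hhm : Measurable h := meas_hh a b
  have hYm : Measurable fun c : ℂ => Y n c := (cont_Y n).measurable
  set aw : ℝ → ℝ := fun y => max 0 ((1 / 2) ^ i * (1 - 8 * i * h y)) with haw
  have hawm : Measurable aw := measurable_const.max
    ((measurable_const.sub (hhm.const_mul _)).const_mul _)
  set Kw : ℝ → ℝ := fun y => 1 + 2 * h y with hKw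
  have hKwm : Measurable Kw := measurable_const.add (hhm.const_mul _)
  set φ : ℝ → ℝ := fun y => aw y / Kw y ^ 2 with hφ
  have hφm : Measurable φ := hawm.div (hKwm.pow_const 2)
  set S : Set ℂ := {c : ℂ | c ∈ Zn n a b ∧ h (Y n c) * Y n c ≤
    dirσ σ i * ((n:ℂ) * c ^ (n - 1)).re} with hS
  have hZm : MeasurableSet (Zn n a b) :=
    (measurableSet_le measurable_const hYm).inter (measurableSet_le hYm measurable_const)
  have hSm : MeasurableSet S := by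
    refine hZm.inter (measurableSet_le ((hhm.comp hYm).mul hYm) ?_)
    exact (Complex.continuous_re.comp (by fun_prop : Continuous fun c : ℂ =>
      (n:ℂ) * c ^ (n - 1))).measurable.const_mul _
  have hfacts : ∀ y, a ≤ y → y ≤ b → _ := fun y h1 h2 => hh_facts ha h1 h2
  -- the weighted averaging
  have hstep1 : ∫⁻ x in S, ENNReal.ofReal (φ (Y n x)) ≤
      volume (F (1 + i) ∩ Zn n (a / 2) (2 * b)) := by
    have hx1 : ∀ x ∈ S, a ≤ Y n x ∧ Y n x ≤ b := fun x hx => hx.1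
    have hdisc : ∀ x ∈ S, 0 < rad n x 1 ∧ ∀ c ∈ closedBall x (rad n x 1),
        99 / 100 * Y n x ≤ Y n c ∧ Y n c ≤ 101 / 100 * Y n x := by
      intro x hx
      obtain ⟨x1, x2⟩ := hx1 x hx
      obtain ⟨f0, f1, f2, f3, f4, f5, f6⟩ := hfacts (Y n x) x1 x2
      exact disc1 hn (le_trans (le_trans (by norm_num) ha) x1) f0 (by linarith) f2
    refine hW S _ (fun x => rad n x 1) (fun x => aw (Y n x)) (fun x => Kw (Y n x)) hSm
      (meas_rad n 1) (hawm.comp hYm) (hKwm.comp hYm) ?_ ?_ ?_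
    · intro x hx
      obtain ⟨x1, x2⟩ := hx1 x hx
      obtain ⟨f0, f1, f2, f3, f4, f5, f6⟩ := hfacts (Y n x) x1 x2
      refine ⟨(hdisc x hx).1, le_max_left _ _, ?_⟩
      show 1 ≤ 1 + 2 * h (Y n x)
      linarith
    · intro x hx
      obtain ⟨x1, x2⟩ := hx1 x hx
      obtain ⟨f0, f1, f2, f3, f4, f5, f6⟩ := hfacts (Y n x) x1 x2
      have hYx : 10 ^ 20 ≤ Y n x := le_trans (le_trans (by norm_num) ha) x1
      obtain ⟨cf, hL, hXn⟩ := cf1 hn2 hYx
      have hSB := SB hAVG hLIN hn f0 f1 hσ (hF _ f0 f1) i x 1 (2 * Y n x) (Y n x) cf hXn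
        f2 (hTw _ x1 x2) (hEw _ x1 x2) (log_two_four hYx) (by linarith)
        (by
          rw [Pool.Agent.W216.MB.BAS.X1]
          exact hx.2)
      show ENNReal.ofReal (max 0 ((1 / 2) ^ i * (1 - 8 * i * h (Y n x)))) * _ ≤ _
      rw [ofReal_max0]
      refine hSB.trans (measure_mono ?_)
      intro y hy
      obtain ⟨y1, y2⟩ := (hdisc x hx).2 y hy.2
      refine ⟨⟨hy.1, ?_, ?_⟩, hy.2⟩ <;> linarith
    · intro x hx x' hx' y hy hy'
      obtain ⟨x1, x2⟩ := hx1 x hx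
      obtain ⟨x1', x2'⟩ := hx1 x' hx'
      obtain ⟨f0, f1, f2, f3, f4, f5, f6⟩ := hfacts (Y n x) x1 x2
      have hYx : 10 ^ 20 ≤ Y n x' := le_trans (le_trans (by norm_num) ha) x1'
      obtain ⟨cf, hL, hXn⟩ := cf1 hn2 hYx
      obtain ⟨y1, y2⟩ := (hdisc x hx).2 y hy
      obtain ⟨y1', y2'⟩ := (hdisc x' hx').2 y hy'
      refine comp hn cf (η := 2 * h (Y n x)) (by linarith) (by linarith) ?_ (hdisc x hx).1 hy' hy
      rw [hXn]
      have h1 : Y n x / 2 ≤ Y n x' := by linarith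
      calc (10:ℝ) ^ 40 ≤ h (Y n x) ^ 4 * Y n x := f2
        _ ≤ (2 * h (Y n x)) ^ 4 * (Y n x / 2) := by
            have : (2 * h (Y n x)) ^ 4 * (Y n x / 2) = 8 * (h (Y n x) ^ 4 * Y n x) := by ring
            rw [this]
            have : 0 ≤ h (Y n x) ^ 4 * Y n x := by
              have : 0 < Y n x := by linarith
              positivity
            linarith
        _ ≤ _ := by gcongr
  -- the rotations
  have hstep2 := hROT n (dirσ σ i) a b h φ hn2 hτ hhm hφm ha0 (by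
    intro y h1 h2
    obtain ⟨f0, f1, f2, f3, f4, f5, f6⟩ := hfacts y h1 h2
    refine ⟨f0.le, by linarith, ?_⟩
    exact div_nonneg (le_max_left _ _) (sq_nonneg _))
  -- pointwise
  have hpt : ∀ c ∈ Zn n a b, ENNReal.ofReal ((1 / 2) ^ (i + 1)) ≤
      ENNReal.ofReal ((1 - h (Y n c)) / 2 * φ (Y n c)) +
        ENNReal.ofReal (8 * (i + 1) * (1 / 2) ^ (i + 1) * 10 ^ 10) *
          ENNReal.ofReal ((Y n c) ^ (-(1 / 4) : ℝ) + Y n c / b + a / Y n c) := by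
    rintro c ⟨h1, h2⟩
    obtain ⟨f0, f1, f2, f3, f4, f5, f6⟩ := hfacts (Y n c) h1 h2
    rw [← ENNReal.ofReal_mul (by positivity)]
    have hY0 : 0 < Y n c := by linarith
    have hb0 : 0 < b := by linarith
    have hr0 : 0 < (Y n c) ^ (-(1 / 4) : ℝ) := Real.rpow_pos_of_pos hY0 _
    have hφ0 : 0 ≤ φ (Y n c) := div_nonneg (le_max_left _ _) (sq_nonneg _)
    rw [← ENNReal.ofReal_add (mul_nonneg (by linarith) hφ0) (by positivity)]
    apply ENNReal.ofReal_le_ofReal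
    set y := h (Y n c) with hy
    have hp1 : (1 / 2 : ℝ) ^ (i + 1) ≤ 1 := pow_le_one₀ (by norm_num) (by norm_num)
    have hp0 : (0:ℝ) < (1 / 2) ^ (i + 1) := by positivity
    have e1 : (1 / 2 : ℝ) ^ (i + 1) * (8 * ((i:ℝ) + 1) * y) ≤
        8 * (i + 1) * (1 / 2) ^ (i + 1) * 10 ^ 10 *
        ((Y n c) ^ (-(1 / 4) : ℝ) + Y n c / b + a / Y n c) := by
      have : (1 / 2 : ℝ) ^ (i + 1) * (8 * ((i:ℝ) + 1) * y) ≤
        (1 / 2 : ℝ) ^ (i + 1) * (8 * (i + 1) * (10 ^ 10 *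
        ((Y n c) ^ (-(1 / 4) : ℝ) + Y n c / b + a / Y n c))) := by gcongr
      refine this.trans (le_of_eq ?_)
      ring
    have e3 : (1 / 2 : ℝ) ^ (i + 1) * (1 - 8 * ((i:ℝ) + 1) * y) ≤
        (1 - y) / 2 * φ (Y n c) := by
      rcases le_or_gt (1 - 8 * ((i:ℝ) + 1) * y) 0 with hneg | hpos
      · exact (mul_nonpos_of_nonneg_of_nonpos hp0.le hneg).trans
          (mul_nonneg (by linarith) hφ0)
      · have hi0 : 0 ≤ 1 - 8 * (i : ℝ) * y := by nlinarith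
        have e4 : φ (Y n c) = (1 / 2) ^ i * (1 - 8 * i * y) / (1 + 2 * y) ^ 2 := by
          show max 0 ((1 / 2) ^ i * (1 - 8 * i * h (Y n c))) / (1 + 2 * h (Y n c)) ^ 2 = _
          rw [max_eq_right (by positivity)]
        have hK0 : 0 < (1 + 2 * y) ^ 2 := by positivity
        rw [e4, mul_div_assoc', le_div_iff₀ hK0, pow_succ]
        have e5 : (1 + 2 * y) ^ 2 ≤ 1 + 5 * y := by nlinarith
        have e6 : (1 - 8 * ((i:ℝ) + 1) * y) * (1 + 2 * y) ^ 2 ≤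
            (1 - y) * (1 - 8 * i * y) := by
          have : (1 - 8 * ((i:ℝ) + 1) * y) * (1 + 2 * y) ^ 2 ≤
              (1 - 8 * ((i:ℝ) + 1) * y) * (1 + 5 * y) := by gcongr
          have h3 : 0 ≤ (i:ℝ) * y := by positivity
          nlinarith
        calc (1 / 2 : ℝ) ^ i * (1 / 2) * (1 - 8 * ((i:ℝ) + 1) * y) * (1 + 2 * y) ^ 2
            = (1 / 2 : ℝ) ^ i * (1 / 2) * ((1 - 8 * ((i:ℝ) + 1) * y) * (1 + 2 * y) ^ 2) := by ring
          _ ≤ (1 / 2 : ℝ) ^ i * (1 / 2) * ((1 - y) * (1 - 8 * i * y)) := by gcongr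
          _ = _ := by ring
    linarith
  have hgm : Measurable fun c : ℂ => ENNReal.ofReal ((Y n c) ^ (-(1 / 4) : ℝ) + Y n c / b +
      a / Y n c) :=
    ENNReal.measurable_ofReal.comp (((hYm.pow_const _).add (hYm.div_const b)).add
      (measurable_const.div hYm))
  calc ENNReal.ofReal ((1 / 2) ^ (i + 1)) * volume (Zn n a b)
      = ∫⁻ _ in Zn n a b, ENNReal.ofReal ((1 / 2) ^ (i + 1)) := by
        rw [lintegral_const, Measure.restrict_apply_univ]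
    _ ≤ ∫⁻ c in Zn n a b, (ENNReal.ofReal ((1 - h (Y n c)) / 2 * φ (Y n c)) +
        ENNReal.ofReal (8 * (i + 1) * (1 / 2) ^ (i + 1) * 10 ^ 10) *
          ENNReal.ofReal ((Y n c) ^ (-(1 / 4) : ℝ) + Y n c / b + a / Y n c)) :=
        setLIntegral_mono' hZm hpt
    _ = (∫⁻ c in Zn n a b, ENNReal.ofReal ((1 - h (Y n c)) / 2 * φ (Y n c))) +
        ∫⁻ c in Zn n a b, ENNReal.ofReal (8 * (i + 1) * (1 / 2) ^ (i + 1) * 10 ^ 10) *
          ENNReal.ofReal ((Y n c) ^ (-(1 / 4) : ℝ) + Y n c / b + a / Y n c) :=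
        lintegral_add_right _ (hgm.const_mul _)
    _ = (∫⁻ c in Zn n a b, ENNReal.ofReal ((1 - h (Y n c)) / 2 * φ (Y n c))) +
        ENNReal.ofReal (8 * (i + 1) * (1 / 2) ^ (i + 1) * 10 ^ 10) * ∫⁻ c in Zn n a b,
          ENNReal.ofReal ((Y n c) ^ (-(1 / 4) : ℝ) + Y n c / b + a / Y n c) := by
        rw [lintegral_const_mul _ hgm]
    _ ≤ volume (F (1 + i) ∩ Zn n (a / 2) (2 * b)) +
        ENNReal.ofReal (8 * (i + 1) * (1 / 2) ^ (i + 1) * 10 ^ 10) * ENNReal.ofReal (C / n) := by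
        gcongr
        exact hstep2.trans hstep1
    _ = _ := by
        rw [← ENNReal.ofReal_mul (by positivity)]
        congr 2
        ring

end Pool.Agent.N228.AZ
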