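import Mathlib
import Pool.Agent.N228.AZ.Stm3

/-! # Project AZ: statements, part 4 (error `O(1 / n)`, uniformly in the period) -/

set_option autoImplicit false
open Metric MeasureTheory Set Filter Topology

namespace Pool.Agent.N228.AZ

open Pool.Agent.W747.MB
open Pool.Agent.TH363.CD

/-- the logarithm, cut off at `1` -/
noncomputable def plog (x : ℝ) : ℝ := Real.log (max x 1)

/-- L: lower bounds for the areas of exact period `j + 1`, uniformly in `j`. -/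
def P_L : Prop := ∃ C : ℝ, 0 < C ∧ ∀ᶠ n : ℕ in atTop, ∀ j : ℕ, 1 ≤ j →
  2 * Real.pi * (1 / 2) ^ j * plog^[j] (n:ℝ) - C * (j * (1 / 2) ^ j) ≤
    n * (volume (Ex n (j + 1))).toReal

/-- S: lower bounds for the areas of the escaping parameters in the zones, uniformly in `m`. -/
def P_S : Prop := ∃ C : ℝ, 0 < C ∧ ∀ᶠ n : ℕ in atTop, ∀ m : ℕ, 1 ≤ m →
  2 * Real.pi * (1 / 2) ^ m * (plog^[m] (n:ℝ) - plog^[m + 1] (n:ℝ)) - C * (m * (1 / 2) ^ m) ≤
    n * (volume ({c : ℂ | plog^[m] (n:ℝ) < Y n c ∧ Y n c ≤ plog^[m - 1] (n:ℝ)} \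
      N62a1eb23.multibrotSet n)).toReal

/-- U1: the areas of exact period `k + 1` with a uniform error `O(1 / n)`. -/
def P_U1 : Prop := ∃ C : ℝ, 0 < C ∧ ∀ᶠ n : ℕ in atTop, ∀ k : ℕ, 1 ≤ k →
  |n * (volume (Ex n (k + 1))).toReal - 2 * Real.pi * (1 / 2) ^ k * plog^[k] (n:ℝ)| ≤ C

/-- U2: the areas of the Multibrot set and of its hyperbolic part with error `O(1 / n)`. -/
def P_U2 : Prop := ∃ C : ℝ, 0 < C ∧ ∀ᶠ n : ℕ in atTop,
  |n * (Real.pi - (volume (N62a1eb23.multibrotSet n)).toReal) -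
    (2 * Real.pi * Real.log n -
      ∑ j ∈ Finset.range n, 2 * Real.pi * (1 / 2) ^ (j + 1) * plog^[j + 1] (n:ℝ))| ≤ C ∧
  |n * (Real.pi - (volume (hyp n)).toReal) -
    (2 * Real.pi * Real.log n -
      ∑ j ∈ Finset.range n, 2 * Real.pi * (1 / 2) ^ (j + 1) * plog^[j + 1] (n:ℝ))| ≤ C

/-! The parts handed out. -/

def P_TOU1 : Prop := P_MEAS → P_ANU2 → P_L → P_S → P_U1

def P_TOU2 : Prop := P_MEAS → P_ANU2 → P_MAIN2 → P_L → P_S → P_U2

end Pool.Agent.N228.AZ
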