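import Mathlib
import Pool.Agent.N228.AZ.Stm4

/-! # Project AZ: statements, part 5 (the local law with error `O(1 / n)`) -/

set_option autoImplicit false
open Metric MeasureTheory Set Filter Topology

namespace Pool.Agent.N228.AZ

open Pool.Agent.W747.MB
open Pool.Agent.TH363.CD

/-- LL: local lower bounds, exact period `j + 1`. -/
def P_LL : Prop := ∃ C : ℝ, 0 < C ∧ ∀ᶠ n : ℕ in atTop, ∀ j : ℕ, 1 ≤ j → ∀ a b : ℝ, 1 / 3 ≤ a →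
  a ≤ b → b ≤ plog^[j - 1] (n:ℝ) →
  2 * Real.pi * (1 / 2) ^ j * Real.log (b / a) - C * (j * (1 / 2) ^ j) ≤
    n * (volume (Ex n (j + 1) ∩ Zn n a b)).toReal

/-- SS: local lower bounds, escaping parameters. -/
def P_SS : Prop := ∃ C : ℝ, 0 < C ∧ ∀ᶠ n : ℕ in atTop, ∀ m : ℕ, 1 ≤ m → ∀ a b : ℝ, 1 / 3 ≤ a →
  plog^[m] (n:ℝ) ≤ a → a ≤ b → b ≤ plog^[m - 1] (n:ℝ) →
  2 * Real.pi * (1 / 2) ^ m * Real.log (b / a) - C * (m * (1 / 2) ^ m) ≤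
    n * (volume (Zn n a b \ N62a1eb23.multibrotSet n)).toReal

/-- LOC: the local law in the `k`-th zone. -/
def P_LOC : Prop := ∃ C : ℝ, 0 < C ∧ ∀ᶠ n : ℕ in atTop, ∀ k : ℕ, 1 ≤ k → ∀ a b : ℝ, 1 / 3 ≤ a →
  plog^[k] (n:ℝ) ≤ a → a ≤ b → b ≤ plog^[k - 1] (n:ℝ) →
  (∀ j, 1 ≤ j → j ≤ k →
    |n * (volume (Ex n (j + 1) ∩ Zn n a b)).toReal - 2 * Real.pi * (1 / 2) ^ j * Real.log (b / a)|
      ≤ C) ∧
  |n * (volume (Zn n a b \ N62a1eb23.multibrotSet n)).toReal -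
    2 * Real.pi * (1 / 2) ^ k * Real.log (b / a)| ≤ C ∧
  n * (volume (NN n (k + 1) ∩ Zn n a b)).toReal ≤ C

/-! The part handed out. -/

def P_TOLOC : Prop := P_MEAS → P_ANU2 → P_LL → P_SS → P_LOC

end Pool.Agent.N228.AZ
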