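import Mathlib
import Pool.Agent.N228.AZ.Sharp
import Pool.Agent.N228.AZ.Stm5

/-! # Windows, uniformly in the number of stages -/

set_option autoImplicit false
open Metric MeasureTheory Set Filter Topology

namespace Pool.Agent.N228.AZ

open Pool.Agent.W747.MB
open Pool.Agent.TH363.CD

theorem plog_nonneg (x : ℝ) : 0 ≤ plog x := Real.log_nonneg (le_max_right _ _)

theorem plog_eq {x : ℝ} (hx : 1 ≤ x) : plog x = Real.log x := by
  unfold plog
  rw [max_eq_left hx]

theorem plog_le {x : ℝ} (hx : 0 ≤ x) : plog x ≤ x := by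
  unfold plog
  rcases le_total x 1 with h | h
  · rw [max_eq_right h, Real.log_one]
    exact hx
  · rw [max_eq_left h]
    exact Real.log_le_self hx

theorem plog_pos_exp {x : ℝ} (h : 0 < plog x) : 1 ≤ x ∧ Real.exp (plog x) = x := by
  have hx : 1 ≤ x := by
    by_contra hcon
    push Not at hcon
    unfold plog at h
    rw [max_eq_right hcon.le, Real.log_one] at h
    exact lt_irrefl _ h
  refine ⟨hx, ?_⟩
  rw [plog_eq hx, Real.exp_log (by linarith)]

theorem plog_it_nonneg {x : ℝ} (hx : 0 ≤ x) (k : ℕ) : 0 ≤ plog^[k] x := by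
  cases k with
  | zero => exact hx
  | succ k =>
    rw [Function.iterate_succ_apply']
    exact plog_nonneg _

theorem plog_it_succ_le {x : ℝ} (hx : 0 ≤ x) (k : ℕ) : plog^[k + 1] x ≤ plog^[k] x := by
  rw [Function.iterate_succ_apply']
  exact plog_le (plog_it_nonneg hx k)

theorem plog_it_le {x : ℝ} (hx : 0 ≤ x) {k l : ℕ} (hkl : k ≤ l) : plog^[l] x ≤ plog^[k] x := by
  induction l, hkl using Nat.le_induction with
  | base => exact le_refl _
  | succ l _ ih => exact (plog_it_succ_le hx l).trans ih

/-- the upper window -/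
theorem win_up' {x : ℝ} (k : ℕ) (hk : 1 ≤ k) (h : 100 ≤ plog^[k] x) :
    E2^[k] (plog^[k] x / 10) ≤ Real.exp (plog x / 5) := by
  induction k, hk using Nat.le_induction with
  | base =>
    rw [Function.iterate_one, Function.iterate_one]
    unfold E2
    apply Real.exp_le_exp.2
    linarith
  | succ m hm ih =>
    rw [Function.iterate_succ_apply'] at h
    obtain ⟨h1, h2⟩ := plog_pos_exp (x := plog^[m] x) (by linarith)
    have h3 : 100 ≤ plog^[m] x := by
      have := Real.add_one_le_exp (plog (plog^[m] x))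
      rw [h2] at this
      linarith
    rw [Function.iterate_succ_apply, Function.iterate_succ_apply' plog, plog_eq h1]
    exact (E2_mono.iterate m (E2_log h3)).trans (ih h3)

/-- the growth -/
theorem grow' (m : ℕ) : ∀ x η : ℝ, 0 ≤ x → 0 < η → ∀ R : ℝ,
    256 ≤ η * R → 1 ≤ η * Real.exp (η * R / 8) → 16 * plog^[m + 1] x ≤ η * R →
    16 * plog x ≤ η * (G η)^[m] R := by
  induction m with
  | zero =>
    intro x η _ hη R h1 h2 h3
    exact h3
  | succ m ih =>
    intro x η hx hη R h1 h2 h3
    rw [Function.iterate_succ_apply]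
    rw [Function.iterate_succ_apply' plog] at h3
    set s := plog^[m + 1] x with hs'
    have hs0 : 0 ≤ s := plog_it_nonneg hx _
    have e1 : G η R = Real.exp (η * R / 8) * Real.exp (η * R / 8) := by
      unfold G
      rw [← Real.exp_add]
      congr 1
      ring
    have h4 : Real.exp (η * R / 8) ≤ η * G η R := by
      rw [e1]
      have := Real.exp_pos (η * R / 8)
      nlinarith
    have h6 : η * R ≤ η * G η R := by
      refine le_trans ?_ h4
      have := Real.quadratic_le_exp_of_nonneg (x := η * R / 8) (by linarith)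
      nlinarith
    have h5 : 16 * s ≤ η * G η R := by
      rcases le_or_gt s 16 with h7 | h7
      · linarith
      · refine le_trans ?_ h4
        have hs1 : 0 < s := by linarith
        calc 16 * s ≤ s * s := by nlinarith
          _ = Real.exp (2 * Real.log s) := by
              rw [two_mul, Real.exp_add, Real.exp_log hs1]
          _ ≤ Real.exp (η * R / 8) := by
              apply Real.exp_le_exp.2
              rw [plog_eq (by linarith)] at h3
              linarith
    refine ih x η hx hη (G η R) (h1.trans h6) (h2.trans ?_) h5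
    gcongr

/-- the upper window with a margin depending on the modulus -/
theorem up_window {n : ℕ} (hn : 10 ^ 6 ≤ n) {k : ℕ} {a b y : ℝ} (ha : 10 ^ 60 ≤ a)
    (hay : a ≤ y) (hyb : y ≤ b) {i : ℕ} (hi : i ≤ k)
    (h0 : k = 0 → b ≤ n / 10 ^ 5)
    (h1 : 1 ≤ k → b ≤ Real.log n ∧ E2^[k] b ≤ Real.exp (Real.log n / 5)) :
    E2^[i] y ≤ hh a b y / 100 * n := by
  have hn' : (10:ℝ) ^ 6 ≤ n := by exact_mod_cast hn
  have hn0 : (0:ℝ) < n := by linarith
  obtain ⟨f0, f1, f2, f3, f4, f5, f6⟩ := hh_facts ha hay hyb
  have ha0 : 0 < a := lt_of_lt_of_le (by norm_num) ha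
  have hy0 : 0 < y := by linarith
  have hb0 : 0 < b := by linarith
  rcases Nat.eq_zero_or_pos k with hk | hk
  · obtain rfl : i = 0 := by omega
    have h2 := h0 hk
    rw [Function.iterate_zero, id]
    calc y = (1 / 1000 * (y / b)) / 100 * (10 ^ 5 * b) := by field_simp; norm_num
      _ ≤ hh a b y / 100 * n := by
          gcongr
          linarith
  · obtain ⟨h2, h3⟩ := h1 hk
    have h4 : E2^[i] y ≤ E2^[k] b := by
      refine ((E2_mono.iterate i) hyb).trans ?_
      obtain ⟨m, hm⟩ := Nat.exists_eq_add_of_le' hi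
      rw [hm, Function.iterate_add_apply]
      exact le_iter m _
    refine h4.trans (h3.trans ?_)
    -- `exp (log n / 5) ≤ hh / 100 * n`
    have hlogn : 0 < Real.log n := by linarith
    have h5 : 1 / Real.log n ≤ hh a b y := by
      have h6 : (1:ℝ) / y ≤ y ^ (-(1 / 4) : ℝ) := by
        rw [one_div, ← Real.rpow_neg_one]
        exact Real.rpow_le_rpow_of_exponent_le (by linarith [show (1:ℝ) ≤ 10 ^ 60 by norm_num])
          (by norm_num)
      have h7 : 1 / Real.log n ≤ 1 / y := by
        apply one_div_le_one_div_of_le hy0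
        linarith
      have h8 : 0 < y ^ (-(1 / 4) : ℝ) := Real.rpow_pos_of_pos hy0 _
      nlinarith
    have hx := Real.exp_log hn0
    set t := Real.log n with ht
    have h9 : t ≤ 5 * Real.exp (t / 5) := by
      have := Real.add_one_le_exp (t / 5)
      linarith
    have h10 : 500 * (Real.exp (t / 5) * Real.exp (t / 5)) ≤ Real.exp t := by
      have e1 : Real.exp t = Real.exp (t / 5) ^ 5 := by
        rw [← Real.exp_nat_mul]
        congr 1
        push_cast
        ring
      have h11 : (10:ℝ) ^ 60 / 5 ≤ Real.exp (t / 5) := by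
        have : 10 ^ 60 ≤ t := by linarith
        linarith
      rw [e1]
      have h12 : (500:ℝ) ≤ Real.exp (t / 5) ^ 3 := by
        have h13 : (500:ℝ) ≤ Real.exp (t / 5) := le_trans (by norm_num) h11
        have h14 : Real.exp (t / 5) ≤ Real.exp (t / 5) ^ 3 := le_self_pow₀ (by linarith)
          (by norm_num)
        linarith
      calc 500 * (Real.exp (t / 5) * Real.exp (t / 5))
          ≤ Real.exp (t / 5) ^ 3 * (Real.exp (t / 5) * Real.exp (t / 5)) := by gcongr
        _ = _ := by ring
    calc Real.exp (t / 5) = (1 / t) / 100 * (100 * (t * Real.exp (t / 5))) := by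
          field_simp
      _ ≤ (1 / t) / 100 * (100 * ((5 * Real.exp (t / 5)) * Real.exp (t / 5))) := by gcongr
      _ = (1 / t) / 100 * (500 * (Real.exp (t / 5) * Real.exp (t / 5))) := by ring
      _ ≤ (1 / t) / 100 * Real.exp t := by gcongr
      _ = (1 / t) / 100 * n := by rw [hx]
      _ ≤ hh a b y / 100 * n := by gcongr

/-- the window needed for `sharp` below `plog^[k] n` -/
theorem up_window' {n : ℕ} (hn : 10 ^ 6 ≤ n) {k : ℕ} {a b : ℝ} (ha : 10 ^ 60 ≤ a)
    (hab : a ≤ b) (hb : b ≤ plog^[k] (n:ℝ) / 10 ^ 5) {i : ℕ} (hi : i ≤ k) :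
    ∀ y, a ≤ y → y ≤ b → E2^[i] y ≤ hh a b y / 100 * n := by
  intro y h1 h2
  have hn' : (10:ℝ) ^ 6 ≤ n := by exact_mod_cast hn
  have hn0 : (0:ℝ) < n := by linarith
  have hk100 : 100 ≤ plog^[k] (n:ℝ) := by
    have : (10:ℝ) ^ 60 ≤ b := ha.trans hab
    rw [le_div_iff₀ (by norm_num)] at hb
    refine le_trans ?_ hb
    refine le_trans ?_ (mul_le_mul_of_nonneg_right this (by norm_num))
    norm_num
  refine up_window hn ha h1 h2 hi ?_ ?_
  · intro h3
    rw [h3] at hb
    exact hb
  · intro h3
    have hlog : plog (n:ℝ) = Real.log n := plog_eq (by linarith)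
    have h4 : plog^[k] (n:ℝ) ≤ plog n := plog_it_le hn0.le h3
    rw [hlog] at h4
    refine ⟨by
      refine hb.trans (le_trans ?_ h4)
      exact div_le_self (by linarith) (by norm_num), ?_⟩
    have h5 := win_up' k h3 hk100
    rw [hlog] at h5
    refine ((E2_mono.iterate k) ?_).trans h5
    refine hb.trans ?_
    gcongr
    norm_num

end Pool.Agent.N228.AZ
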