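import Mathlib
import Pool.Agent.N228.AZ.UniWin
import Pool.Agent.W216.MB.ANN

/-! # The local lower bounds with error `O(1 / n)`, uniformly in the number of stages -/

set_option autoImplicit false
open Metric MeasureTheory Set Filter Topology

namespace Pool.Agent.N228.AZ

open Pool.Agent.W747.MB
open Pool.Agent.TH363.CD

theorem Zn_fin {n : ℕ} (hn : 2 ≤ n) {a b : ℝ} (ha : 0 < a) (hb : b ≤ 12 * n) :
    volume (Zn n a b) ≠ ⊤ := by
  rcases le_or_gt a b with hab | hab
  · have h1 := Pool.Agent.W216.MB.ANN.main n hn a b ha hab hb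
    exact ne_top_of_le_ne_top ENNReal.ofReal_ne_top h1
  · have : Zn n a b = ∅ := by
      ext c
      simp only [Zn, mem_ofPred_eq, mem_empty_iff_false, iff_false, not_and, not_le]
      intro h
      linarith
    rw [this, measure_empty]
    exact ENNReal.zero_ne_top

theorem core {n : ℕ} (hn : 10 ^ 6 ≤ n) {V Z : Set ℂ} {p q : ℝ} (hp : 0 ≤ p) (hq : 0 ≤ q)
    (hV : volume V ≠ ⊤)
    (h : ENNReal.ofReal p * volume Z ≤ volume V + ENNReal.ofReal (q / n)) :
    p * (n * (volume Z).toReal) - q ≤ n * (volume V).toReal := by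
  have hn' : (10:ℝ) ^ 6 ≤ n := by exact_mod_cast hn
  have hn0 : (0:ℝ) < n := by linarith
  have h1 := ENNReal.toReal_mono (ENNReal.add_ne_top.2 ⟨hV, ENNReal.ofReal_ne_top⟩) h
  rw [ENNReal.toReal_mul, ENNReal.toReal_add hV ENNReal.ofReal_ne_top,
    ENNReal.toReal_ofReal hp, ENNReal.toReal_ofReal (by positivity)] at h1
  have h2 : (n:ℝ) * (p * (volume Z).toReal) ≤ n * ((volume V).toReal + q / n) := by gcongr
  have h3 : (n:ℝ) * ((volume V).toReal + q / n) = n * (volume V).toReal + q := by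
    field_simp
  rw [h3] at h2
  linarith

/-- common part of the two lower bounds -/
theorem comb {n : ℕ} (hn : 10 ^ 6 ≤ n) {CA CR : ℝ} (hCA : 0 < CA) (hCR : 0 < CR)
    (hANU : ∀ a b : ℝ, 1 / 3 ≤ a → a ≤ b → b ≤ 2 * n →
      |n * (volume (Zn n a b)).toReal - 2 * Real.pi * Real.log (b / a)| ≤ CA)
    {j : ℕ} (hj : 1 ≤ j) {a b : ℝ} (ha : 1 / 3 ≤ a) (hab : a ≤ b) (hb : b ≤ n) {V : Set ℂ}
    (hVZ : V ⊆ Zn n a b)
    (h : max (10 ^ 5 * a) (10 ^ 61) ≤ b / 10 ^ 5 →
      ENNReal.ofReal ((1 / 2) ^ j) * volume (Zn n (max (10 ^ 5 * a) (10 ^ 61)) (b / 10 ^ 5)) ≤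
        volume V + ENNReal.ofReal (8 * j * (1 / 2) ^ j * 10 ^ 10 * CR / n)) :
    2 * Real.pi * (1 / 2) ^ j * Real.log (b / a) -
      (2 * Real.pi * Real.log (3 * 10 ^ 66) + CA + 8 * 10 ^ 10 * CR) * (j * (1 / 2) ^ j) ≤
    n * (volume V).toReal := by
  have hn2 : 2 ≤ n := le_trans (by norm_num) hn
  have hn' : (10:ℝ) ^ 6 ≤ n := by exact_mod_cast hn
  have hn0 : (0:ℝ) < n := by linarith
  have ha0 : 0 < a := by linarith
  have hb0 : 0 < b := by linarith
  have hj' : (1:ℝ) ≤ j := by exact_mod_cast hj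
  set K₀ := Real.log (3 * 10 ^ 66) with hK
  have hK0 : 0 < K₀ := Real.log_pos (by norm_num)
  have hp0 : (0:ℝ) < (1 / 2) ^ j := by positivity
  have hπ := Real.pi_pos
  set a' : ℝ := max (10 ^ 5 * a) (10 ^ 61) with ha'
  have ha'1 : a' ≤ 3 * 10 ^ 61 * a := by
    apply max_le
    · apply mul_le_mul_of_nonneg_right _ ha0.le
      norm_num
    · have h1 : (3 * 10 ^ 61) * (1 / 3) ≤ (3 * 10 ^ 61) * a :=
        mul_le_mul_of_nonneg_left ha (by norm_num)
      refine le_trans (by norm_num) h1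
  have hexp : (2 * Real.pi * K₀ + CA + 8 * 10 ^ 10 * CR) * (j * (1 / 2) ^ j) =
      (1 / 2) ^ j * (j * (2 * Real.pi * K₀) + j * CA + 8 * j * 10 ^ 10 * CR) := by ring
  rcases lt_or_ge (b / 10 ^ 5) a' with hlt | hge
  · have h1 : Real.log (b / a) ≤ K₀ := by
      apply Real.log_le_log (by positivity)
      rw [div_le_iff₀ ha0]
      rw [div_lt_iff₀ (by norm_num)] at hlt
      have : a' * 10 ^ 5 ≤ 3 * 10 ^ 61 * a * 10 ^ 5 := by gcongr
      have e1 : 3 * 10 ^ 61 * a * 10 ^ 5 = 3 * 10 ^ 66 * a := by ring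
      linarith
    have h2 : 0 ≤ (n:ℝ) * (volume V).toReal := by positivity
    refine le_trans ?_ h2
    rw [hexp]
    have e1 : 2 * Real.pi * (1 / 2) ^ j * Real.log (b / a) -
        (1 / 2) ^ j * (j * (2 * Real.pi * K₀) + j * CA + 8 * j * 10 ^ 10 * CR) =
        (1 / 2) ^ j * (2 * Real.pi * Real.log (b / a) -
          (j * (2 * Real.pi * K₀) + j * CA + 8 * j * 10 ^ 10 * CR)) := by ring
    rw [e1]
    apply mul_nonpos_of_nonneg_of_nonpos hp0.le
    have e2 : 2 * Real.pi * Real.log (b / a) ≤ 2 * Real.pi * K₀ := by gcongr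
    have e3 : 2 * Real.pi * K₀ ≤ j * (2 * Real.pi * K₀) := by
      have : 0 ≤ 2 * Real.pi * K₀ := by positivity
      nlinarith
    have e4 : 0 ≤ j * CA + 8 * j * 10 ^ 10 * CR := by positivity
    linarith
  · have hVfin : volume V ≠ ⊤ :=
      ne_top_of_le_ne_top (Zn_fin hn2 ha0 (by linarith)) (measure_mono hVZ)
    have ha'0 : 0 < a' := lt_of_lt_of_le (by norm_num) (le_max_right _ _)
    have h1 := core hn hp0.le (q := 8 * j * (1 / 2) ^ j * 10 ^ 10 * CR) (by positivity) hVfin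
      (h hge)
    have h2 := (abs_le.1 (hANU a' (b / 10 ^ 5)
      (le_trans (by norm_num) (le_max_right (10 ^ 5 * a) (10 ^ 61))) hge (by
        refine (div_le_self hb0.le (by norm_num)).trans ?_
        linarith))).1
    have h3 : Real.log (b / a) - K₀ ≤ Real.log (b / 10 ^ 5 / a') := by
      rw [hK, ← Real.log_div (by positivity) (by norm_num)]
      apply Real.log_le_log (by positivity)
      rw [div_div, div_div]
      apply div_le_div_of_nonneg_left hb0.le (by positivity)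
      calc 10 ^ 5 * a' ≤ 10 ^ 5 * (3 * 10 ^ 61 * a) := by gcongr
        _ = a * (3 * 10 ^ 66) := by ring
    have h4 : 2 * Real.pi * (Real.log (b / a) - K₀) - CA ≤
        n * (volume (Zn n a' (b / 10 ^ 5))).toReal := by
      have : 2 * Real.pi * (Real.log (b / a) - K₀) ≤
        2 * Real.pi * Real.log (b / 10 ^ 5 / a') := by gcongr
      linarith
    have h5 : (1 / 2) ^ j * (2 * Real.pi * (Real.log (b / a) - K₀) - CA) ≤
        (1 / 2) ^ j * (n * (volume (Zn n a' (b / 10 ^ 5))).toReal) := by gcongr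
    refine le_trans ?_ h1
    refine le_trans ?_ (sub_le_sub_right h5 _)
    rw [hexp]
    have e1 : (1 / 2 : ℝ) ^ j * (2 * Real.pi * (Real.log (b / a) - K₀) - CA) -
        8 * j * (1 / 2) ^ j * 10 ^ 10 * CR - (2 * Real.pi * (1 / 2) ^ j * Real.log (b / a) -
        (1 / 2) ^ j * (j * (2 * Real.pi * K₀) + j * CA + 8 * j * 10 ^ 10 * CR)) =
        (1 / 2) ^ j * ((j - 1) * (2 * Real.pi * K₀ + CA)) := by ring
    have e2 : 0 ≤ (1 / 2 : ℝ) ^ j * ((j - 1) * (2 * Real.pi * K₀ + CA)) := by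
      have : (0:ℝ) ≤ j - 1 := by linarith
      positivity
    linarith

theorem ll (hAVG : P_AVG) (hLIN : P_LIN) (hW : P_WAVG) (hROT : P_ROT) (hRAD : P_RAD)
    (hANU : P_ANU2) : P_LL := by
  obtain ⟨CR, hCR, hRAD⟩ := hRAD
  obtain ⟨CA, hCA, hANU⟩ := hANU
  refine ⟨2 * Real.pi * Real.log (3 * 10 ^ 66) + CA + 8 * 10 ^ 10 * CR, by
    have := Real.pi_pos
    have : 0 < Real.log (3 * 10 ^ 66) := Real.log_pos (by norm_num)
    positivity, ?_⟩
  filter_upwards [eventually_ge_atTop (10 ^ 6), hANU] with n hn hANU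
  intro j hj a b ha hab hb
  have hn2 : 2 ≤ n := le_trans (by norm_num) hn
  have hn' : (10:ℝ) ^ 6 ≤ n := by exact_mod_cast hn
  have hn0 : (0:ℝ) < n := by linarith
  have hbn : b ≤ n := by
    have := plog_it_le hn0.le (Nat.zero_le (j - 1))
    exact hb.trans this
  refine comb hn hCA hCR hANU hj ha hab hbn inter_subset_right ?_
  intro hge
  obtain ⟨i, rfl⟩ : ∃ i, j = i + 1 := ⟨j - 1, by omega⟩
  rw [show i + 1 - 1 = i by omega] at hb
  have h61 := le_max_right (10 ^ 5 * a) ((10:ℝ) ^ 61)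
  have h5a := le_max_left (10 ^ 5 * a) ((10:ℝ) ^ 61)
  set a' : ℝ := max (10 ^ 5 * a) (10 ^ 61) with ha'
  have h60 : (10:ℝ) ^ 60 ≤ a' := le_trans (by norm_num) h61
  have hrad := hRAD n a' (b / 10 ^ 5) hn2 (le_trans (by norm_num) h61) hge (by
    refine (div_le_self (by linarith) (by norm_num)).trans ?_
    linarith)
  have h1 := sharp hAVG hLIN hW hROT hn (T := fun _ => 0) (F := fun j => Ex n (j + 1))
    (Or.inr rfl) (fun η h1 h2 => lastAtt hn h1 h2) i h60 hrad
    (by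
      intro y h1 h2
      show (0:ℝ) ≤ _
      cases i with
      | zero =>
        show (0:ℝ) ≤ y
        linarith
      | succ i =>
        rw [Function.iterate_succ_apply']
        exact (Real.exp_pos _).le)
    (up_window' hn h60 hge (by gcongr) le_rfl)
  have e1 : 1 + i + 1 = i + 1 + 1 := by ring
  simp only [e1] at h1
  push_cast
  refine h1.trans ?_
  gcongr
  rintro c ⟨c1, c2⟩
  refine ⟨by linarith, ?_⟩
  have : 2 * (b / 10 ^ 5) ≤ b := by linarith
  exact c2.trans this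

theorem ss (hAVG : P_AVG) (hLIN : P_LIN) (hW : P_WAVG) (hROT : P_ROT) (hRAD : P_RAD)
    (hANU : P_ANU2) (hESC : P_ESC) : P_SS := by
  obtain ⟨CR, hCR, hRAD⟩ := hRAD
  obtain ⟨CA, hCA, hANU⟩ := hANU
  refine ⟨2 * Real.pi * Real.log (3 * 10 ^ 66) + CA + 8 * 10 ^ 10 * CR, by
    have := Real.pi_pos
    have : 0 < Real.log (3 * 10 ^ 66) := Real.log_pos (by norm_num)
    positivity, ?_⟩
  filter_upwards [eventually_ge_atTop (10 ^ 6), hANU] with n hn hANU
  intro j hj a b ha hla hab hb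
  have hn2 : 2 ≤ n := le_trans (by norm_num) hn
  have hn' : (10:ℝ) ^ 6 ≤ n := by exact_mod_cast hn
  have hn0 : (0:ℝ) < n := by linarith
  have hbn : b ≤ n := by
    have := plog_it_le hn0.le (Nat.zero_le (j - 1))
    exact hb.trans this
  refine comb hn hCA hCR hANU hj ha hab hbn sdiff_subset ?_
  intro hge
  obtain ⟨i, rfl⟩ : ∃ i, j = i + 1 := ⟨j - 1, by omega⟩
  rw [show i + 1 - 1 = i by omega] at hb
  have h61 := le_max_right (10 ^ 5 * a) ((10:ℝ) ^ 61)
  have h5a := le_max_left (10 ^ 5 * a) ((10:ℝ) ^ 61)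
  set a' : ℝ := max (10 ^ 5 * a) (10 ^ 61) with ha'
  have h60 : (10:ℝ) ^ 60 ≤ a' := le_trans (by norm_num) h61
  have hrad := hRAD n a' (b / 10 ^ 5) hn2 (le_trans (by norm_num) h61) hge (by
    refine (div_le_self (by linarith) (by norm_num)).trans ?_
    linarith)
  have h1 := sharp hAVG hLIN hW hROT hn (T := fun η => 8 / η * Real.log n)
    (F := fun _ => (N62a1eb23.multibrotSet n)ᶜ)
    (Or.inl rfl) (fun η h1 h2 => lastEsc hESC hn h1 h2) i h60 hrad
    (by
      intro y h1 h2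
      show 8 / hh a' (b / 10 ^ 5) y * Real.log n ≤ (G (hh a' (b / 10 ^ 5) y))^[i] y
      obtain ⟨f0, f1, f2, f3, f4, f5, f6⟩ := hh_facts h60 h1 h2
      obtain ⟨g1, g2, g3⟩ := win_esc h60 h1 h2
      have h3 := grow' i n (hh a' (b / 10 ^ 5) y) hn0.le f0 y (by
        refine le_trans ?_ g3
        rw [le_div_iff₀ (by norm_num)]
        refine le_trans ?_ h60
        norm_num) g2 (by
        refine le_trans ?_ g3
        have := plog_it_nonneg hn0.le (i + 1)
        linarith)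
      rw [plog_eq (by linarith)] at h3
      have hlogn : 0 ≤ Real.log n := Real.log_nonneg (by linarith)
      rw [div_mul_eq_mul_div, div_le_iff₀ f0]
      nlinarith)
    (up_window' hn h60 hge (by gcongr) le_rfl)
  push_cast
  refine h1.trans ?_
  gcongr
  rintro c ⟨c1, c2, c3⟩
  have : 2 * (b / 10 ^ 5) ≤ b := by linarith
  exact ⟨⟨by linarith, c3.trans this⟩, c1⟩

end Pool.Agent.N228.AZ
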