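import Mathlib
import Pool.Agent.N228.AZ.Uni

/-! # The global lower bounds -/

set_option autoImplicit false
open Metric MeasureTheory Set Filter Topology

namespace Pool.Agent.N228.AZ

open Pool.Agent.W747.MB
open Pool.Agent.TH363.CD

theorem Y_fin {n : ℕ} (hn : 2 ≤ n) : volume {c : ℂ | Y n c ≤ 2 * n} ≠ ⊤ := by
  have hsub : {c : ℂ | Y n c ≤ 2 * n} ⊆ closedBall 0 2 := by
    intro c hc
    have hc' : n * ‖c‖ ^ (n - 1) ≤ 2 * n := hc
    have hn0 : (0:ℝ) < n := by
      have : 0 < n := by omega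
      exact_mod_cast this
    rw [mem_closedBall, dist_zero_right]
    by_contra hcon
    push Not at hcon
    have h1 : ‖c‖ ≤ ‖c‖ ^ (n - 1) := le_self_pow₀ (by linarith) (by omega)
    have h2 : (n:ℝ) * 2 < n * ‖c‖ ^ (n - 1) := by
      apply mul_lt_mul_of_pos_left _ hn0
      linarith
    linarith
  exact ne_top_of_le_ne_top measure_closedBall_lt_top.ne (measure_mono hsub)

theorem Ex_fin {n : ℕ} (hn : 2 ≤ n) (j : ℕ) : volume (Ex n (j + 1)) ≠ ⊤ := by
  refine ne_top_of_le_ne_top (Y_fin hn) (measure_mono ?_)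
  intro c hc
  exact NN_two hn (Ex_sub_NN hn j hc)

theorem plog_zero {x : ℝ} (hx : x < 1) : plog x = 0 := by
  unfold plog
  rw [max_eq_right hx.le, Real.log_one]

theorem lower_L (h : P_LL) : P_L := by
  obtain ⟨C, hC, h⟩ := h
  refine ⟨C, hC, ?_⟩
  filter_upwards [h, eventually_ge_atTop 2] with n hn h2
  intro j hj
  have hn0 : (0:ℝ) ≤ n := Nat.cast_nonneg n
  have hj' : (1:ℝ) ≤ j := by exact_mod_cast hj
  obtain ⟨i, rfl⟩ : ∃ i, j = i + 1 := ⟨j - 1, by omega⟩
  have e1 : plog^[i + 1] (n:ℝ) = plog (plog^[i] (n:ℝ)) := Function.iterate_succ_apply' _ _ _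
  rcases le_or_gt 1 (plog^[i] (n:ℝ)) with h1 | h1
  · have h3 := hn (i + 1) hj 1 (plog^[i] (n:ℝ)) (by norm_num) h1 (le_refl _)
    rw [div_one, ← plog_eq h1, ← e1] at h3
    refine h3.trans ?_
    apply mul_le_mul_of_nonneg_left _ hn0
    exact ENNReal.toReal_mono (Ex_fin h2 (i + 1)) (measure_mono inter_subset_left)
  · have h3 : plog^[i + 1] (n:ℝ) = 0 := by
      rw [e1]
      exact plog_zero h1
    rw [h3, mul_zero]
    have h4 : 0 ≤ (n:ℝ) * (volume (Ex n (i + 1 + 1))).toReal := by positivity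
    have h5 : 0 ≤ C * ((i + 1 : ℕ) * (1 / 2 : ℝ) ^ (i + 1)) := by positivity
    linarith

theorem lower_S (h : P_SS) : P_S := by
  obtain ⟨C, hC, h⟩ := h
  have hπ := Real.pi_pos
  have hl2 : 0 < Real.log 2 := Real.log_pos (by norm_num)
  refine ⟨C + 2 * Real.pi * Real.log 2, by positivity, ?_⟩
  filter_upwards [h, eventually_ge_atTop 2] with n hn h2
  intro m hm
  have hn0 : (0:ℝ) ≤ n := Nat.cast_nonneg n
  obtain ⟨i, rfl⟩ : ∃ i, m = i + 1 := ⟨m - 1, by omega⟩
  rw [show i + 1 - 1 = i by omega]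
  have e1 : plog^[i + 1] (n:ℝ) = plog (plog^[i] (n:ℝ)) := Function.iterate_succ_apply' _ _ _
  have e2 : plog^[i + 1 + 1] (n:ℝ) = plog (plog^[i + 1] (n:ℝ)) :=
    Function.iterate_succ_apply' _ _ _
  have hp0 : (0:ℝ) < (1 / 2) ^ (i + 1) := by positivity
  have hi1 : (1:ℝ) ≤ ((i + 1 : ℕ) : ℝ) := by
    push_cast
    linarith [Nat.cast_nonneg (α := ℝ) i]
  rcases le_or_gt 1 (plog^[i] (n:ℝ)) with h1 | h1
  · set l' := plog^[i] (n:ℝ) with hl'
    set l := plog^[i + 1] (n:ℝ) with hl
    have hl0 : 0 ≤ l := plog_it_nonneg hn0 _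
    have hexp : Real.exp l = l' := by
      rw [e1, plog_eq h1, Real.exp_log (by linarith)]
    have h2l : 2 * l ≤ l' := by
      rw [← hexp]
      have h3 := Real.add_one_le_exp (l - 1)
      have h4 : Real.exp l = Real.exp (l - 1) * Real.exp 1 := by
        rw [← Real.exp_add]; congr 1; ring
      have h5 : (2:ℝ) ≤ Real.exp 1 := by
        have := Real.add_one_le_exp (1:ℝ); linarith
      rw [h4]
      nlinarith [Real.exp_pos (l - 1)]
    set a : ℝ := max (2 * l) 1 with ha
    have ha1 : 1 ≤ a := le_max_right _ _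
    have hal : l < a := by
      rcases hl0.lt_or_eq with h3 | h3
      · exact lt_of_lt_of_le (by linarith) (le_max_left (2 * l) 1)
      · rw [← h3]; linarith
    have hal' : a ≤ l' := max_le h2l h1
    have h3 := hn (i + 1) hm a l' (by linarith) (by rw [← hl]; exact hal.le) hal'
      (by rw [show i + 1 - 1 = i by omega])
    have hloga : Real.log a ≤ Real.log 2 + plog l := by
      have h4 : a ≤ 2 * max l 1 := by
        apply max_le
        · have := le_max_left l 1
          linarith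
        · have := le_max_right l 1
          linarith
      calc Real.log a ≤ Real.log (2 * max l 1) := Real.log_le_log (by linarith) h4
        _ = Real.log 2 + Real.log (max l 1) := Real.log_mul (by norm_num) (by
            have := le_max_right l 1
            linarith)
    have hlog : l - plog^[i + 1 + 1] (n:ℝ) - Real.log 2 ≤ Real.log (l' / a) := by
      rw [e2, Real.log_div (by linarith) (by linarith), ← hexp, Real.log_exp]
      linarith
    have h6 : (n:ℝ) * (volume (Zn n a l' \ N62a1eb23.multibrotSet n)).toReal ≤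
        n * (volume ({c : ℂ | l < Y n c ∧ Y n c ≤ l'} \ N62a1eb23.multibrotSet n)).toReal := by
      apply mul_le_mul_of_nonneg_left _ hn0
      apply ENNReal.toReal_mono
      · refine ne_top_of_le_ne_top (Y_fin h2) (measure_mono ?_)
        rintro c ⟨⟨c1, c2⟩, -⟩
        have h7 : l' ≤ n := plog_it_le hn0 (Nat.zero_le i)
        show Y n c ≤ 2 * n
        linarith
      · apply measure_mono
        rintro c ⟨⟨c1, c2⟩, c3⟩
        exact ⟨⟨lt_of_lt_of_le hal c1, c2⟩, c3⟩
    refine le_trans ?_ (h3.trans h6)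
    have h7 : 2 * Real.pi * (1 / 2) ^ (i + 1) * (l - plog^[i + 1 + 1] (n:ℝ) - Real.log 2) ≤
        2 * Real.pi * (1 / 2) ^ (i + 1) * Real.log (l' / a) := by gcongr
    have h8 : 2 * Real.pi * Real.log 2 * (1 * (1 / 2) ^ (i + 1)) ≤
        2 * Real.pi * Real.log 2 * (((i + 1 : ℕ) : ℝ) * (1 / 2) ^ (i + 1)) := by gcongr
    nlinarith
  · have h3 : plog^[i + 1] (n:ℝ) = 0 := by
      rw [e1]
      exact plog_zero h1
    have h4 : plog^[i + 1 + 1] (n:ℝ) = 0 := by
      rw [e2, h3]
      exact plog_zero (by norm_num)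
    rw [h4, h3, sub_zero, mul_zero]
    have h5 : 0 ≤ (n:ℝ) * (volume ({c : ℂ | 0 < Y n c ∧ Y n c ≤ plog^[i] (n:ℝ)} \
      N62a1eb23.multibrotSet n)).toReal := by positivity
    have h6 : 0 ≤ (C + 2 * Real.pi * Real.log 2) * ((i + 1 : ℕ) * (1 / 2 : ℝ) ^ (i + 1)) := by
      positivity
    linarith

end Pool.Agent.N228.AZ
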