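import Mathlib
import Pool.Agent.N228.AZ.Stm3
import Pool.Agent.N228.AZ.First
import Pool.Agent.W216.MB.ANN

/-! # An integral over an annulus -/

set_option autoImplicit false
open Metric MeasureTheory Set Filter Topology

namespace Pool.Agent.N228.AZ

open Pool.Agent.W747.MB
open Pool.Agent.TH363.CD

theorem two_rpow : (2:ℝ) ^ (-(1 / 4) : ℝ) ≤ 6 / 7 := by
  have h0 : (0:ℝ) ≤ (2:ℝ) ^ (-(1 / 4) : ℝ) := by positivity
  apply le_of_pow_le_pow_left₀ (n := 4) (by norm_num) (by norm_num)
  rw [← Real.rpow_natCast, ← Real.rpow_mul (by norm_num),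
    show (-(1 / 4) : ℝ) * ((4:ℕ):ℝ) = -1 by norm_num, Real.rpow_neg_one]
  norm_num

theorem rad_aux {n : ℕ} (hn : 2 ≤ n) {a b : ℝ} (ha : 1 ≤ a) (hb : b ≤ 2 * n) (M : ℕ) :
    ∀ α : ℝ, a ≤ α → b < 2 ^ M * α →
    ∫⁻ c in Zn n α b, ENNReal.ofReal ((Y n c) ^ (-(1 / 4) : ℝ) + Y n c / b + a / Y n c) ≤
      ENNReal.ofReal (2000 * Real.log 2 / n *
        (7 * α ^ (-(1 / 4) : ℝ) + (4 - 2 * (min α b) / b) + 2 * a / α)) := by
  have hn0 : (0:ℝ) < n := by
    have : 0 < n := by omega
    exact_mod_cast this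
  induction M with
  | zero =>
    intro α h1 h2
    rw [pow_zero, one_mul] at h2
    have : Zn n α b = ∅ := by
      ext c
      simp only [Zn, mem_ofPred_eq, mem_empty_iff_false, iff_false, not_and, not_le]
      intro h
      linarith
    rw [this, Measure.restrict_empty, lintegral_zero_measure]
    exact bot_le
  | succ M ih =>
    intro α h1 h2
    have hα0 : 0 < α := by linarith
    rcases lt_or_ge b α with hlt | hge
    · have : Zn n α b = ∅ := by
        ext c
        simp only [Zn, mem_ofPred_eq, mem_empty_iff_false, iff_false, not_and, not_le]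
        intro h
        linarith
      rw [this, Measure.restrict_empty, lintegral_zero_measure]
      exact bot_le
    have hb0 : 0 < b := by linarith
    have h3 := ih (2 * α) (by linarith) (by rw [pow_succ] at h2; linarith)
    have hsub : Zn n α b ⊆ {c : ℂ | α ≤ Y n c ∧ Y n c ≤ 2 * α} ∪ Zn n (2 * α) b := by
      rintro c ⟨c1, c2⟩
      rcases le_total (Y n c) (2 * α) with h | h
      · exact Or.inl ⟨c1, h⟩
      · exact Or.inr ⟨h, c2⟩
    have hmeas : MeasurableSet {c : ℂ | α ≤ Y n c ∧ Y n c ≤ 2 * α} :=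
      ((isClosed_le continuous_const (cont_Y n)).inter
        (isClosed_le (cont_Y n) continuous_const)).measurableSet
    have hshell : ∫⁻ c in {c : ℂ | α ≤ Y n c ∧ Y n c ≤ 2 * α},
        ENNReal.ofReal ((Y n c) ^ (-(1 / 4) : ℝ) + Y n c / b + a / Y n c) ≤
        ENNReal.ofReal (2000 * Real.log 2 / n *
          (α ^ (-(1 / 4) : ℝ) + 2 * α / b + a / α)) := by
      calc ∫⁻ c in {c : ℂ | α ≤ Y n c ∧ Y n c ≤ 2 * α},
            ENNReal.ofReal ((Y n c) ^ (-(1 / 4) : ℝ) + Y n c / b + a / Y n c)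
          ≤ ∫⁻ _ in {c : ℂ | α ≤ Y n c ∧ Y n c ≤ 2 * α},
            ENNReal.ofReal (α ^ (-(1 / 4) : ℝ) + 2 * α / b + a / α) := by
            apply setLIntegral_mono' hmeas
            rintro c ⟨c1, c2⟩
            apply ENNReal.ofReal_le_ofReal
            have h4 : (Y n c) ^ (-(1 / 4) : ℝ) ≤ α ^ (-(1 / 4) : ℝ) :=
              Real.rpow_le_rpow_of_nonpos hα0 c1 (by norm_num)
            have h5 : Y n c / b ≤ 2 * α / b := by gcongr
            have h6 : a / Y n c ≤ a / α := by gcongr
            linarith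
        _ = ENNReal.ofReal (α ^ (-(1 / 4) : ℝ) + 2 * α / b + a / α) *
            volume {c : ℂ | α ≤ Y n c ∧ Y n c ≤ 2 * α} := by
            rw [lintegral_const, Measure.restrict_apply_univ]
        _ ≤ ENNReal.ofReal (α ^ (-(1 / 4) : ℝ) + 2 * α / b + a / α) *
            ENNReal.ofReal (2000 * Real.log (2 * α / α) / n) := by
            gcongr
            exact Pool.Agent.W216.MB.ANN.main n hn α (2 * α) hα0 (by linarith) (by linarith)
        _ = _ := by
            rw [← ENNReal.ofReal_mul (by positivity)]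
            congr 1
            rw [mul_div_assoc 2 α α, div_self hα0.ne', mul_one]
            ring
    have hl2 : 0 < Real.log 2 := Real.log_pos (by norm_num)
    have hr0 : 0 < α ^ (-(1 / 4) : ℝ) := Real.rpow_pos_of_pos hα0 _
    rw [min_eq_left hge]
    rcases lt_or_ge b (2 * α) with hlt2 | hge2
    · have hsub2 : Zn n α b ⊆ {c : ℂ | α ≤ Y n c ∧ Y n c ≤ 2 * α} := by
        rintro c ⟨c1, c2⟩
        exact ⟨c1, c2.trans hlt2.le⟩
      refine (lintegral_mono_set hsub2).trans (hshell.trans ?_)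
      apply ENNReal.ofReal_le_ofReal
      apply mul_le_mul_of_nonneg_left _ (by positivity)
      have h12 : 2 * α / b ≤ 2 := by
        rw [div_le_iff₀ hb0]
        linarith
      have h13 : a / α ≤ 2 * a / α := by
        gcongr
        linarith
      linarith
    refine (lintegral_mono_set hsub).trans ((lintegral_union_le _ _ _).trans
      ((add_le_add hshell h3).trans ?_))
    have hr2 : (2 * α) ^ (-(1 / 4) : ℝ) = 2 ^ (-(1 / 4) : ℝ) * α ^ (-(1 / 4) : ℝ) :=
      Real.mul_rpow (by norm_num) hα0.le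
    have hr3 : 0 < (2:ℝ) ^ (-(1 / 4) : ℝ) := by positivity
    rw [min_eq_left hge2]
    have hmin : 0 ≤ 4 - 2 * (2 * α) / b := by
      have : 2 * (2 * α) / b ≤ 2 := by
        rw [div_le_iff₀ hb0]
        linarith
      linarith
    rw [← ENNReal.ofReal_add (by positivity) (by positivity), ← mul_add]
    apply ENNReal.ofReal_le_ofReal
    apply mul_le_mul_of_nonneg_left _ (by positivity)
    rw [hr2]
    have h7 : 7 * (2 ^ (-(1 / 4) : ℝ) * α ^ (-(1 / 4) : ℝ)) ≤ 6 * α ^ (-(1 / 4) : ℝ) := by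
      have := two_rpow
      nlinarith
    have h8 : 2 * α / b + (4 - 2 * (2 * α) / b) = 4 - 2 * α / b := by
      field_simp
      ring
    have h14 : a / α + 2 * a / (2 * α) = 2 * a / α := by
      field_simp
      ring
    linarith

theorem rad_main : P_RAD := by
  have hl2 : 0 < Real.log 2 := Real.log_pos (by norm_num)
  refine ⟨2000 * Real.log 2 * 13, by positivity, ?_⟩
  intro n a b hn ha hab hb
  have hn0 : (0:ℝ) < n := by
    have : 0 < n := by omega
    exact_mod_cast this
  have ha0 : 0 < a := by linarith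
  have hb0 : 0 < b := by linarith
  obtain ⟨M, hM⟩ : ∃ M : ℕ, b < 2 ^ M * a := by
    obtain ⟨M, hM⟩ := pow_unbounded_of_one_lt (b / a) (show (1 : ℝ) < 2 by norm_num)
    exact ⟨M, by rwa [div_lt_iff₀ ha0] at hM⟩
  refine (rad_aux hn ha hb M a le_rfl hM).trans ?_
  apply ENNReal.ofReal_le_ofReal
  rw [min_eq_left hab, mul_div_assoc 2 a a, div_self ha0.ne', mul_one]
  have h1 : a ^ (-(1 / 4) : ℝ) ≤ 1 := Real.rpow_le_one_of_one_le_of_nonpos ha (by norm_num)
  have h2 : 0 ≤ 2 * a / b := by positivity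
  calc 2000 * Real.log 2 / n * (7 * a ^ (-(1 / 4) : ℝ) + (4 - 2 * a / b) + 2)
      ≤ 2000 * Real.log 2 / n * 13 := by
        apply mul_le_mul_of_nonneg_left _ (by positivity)
        linarith
    _ = _ := by ring

end Pool.Agent.N228.AZ
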