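import Mathlib
import Pool.Agent.N228.AZ.Sharp
import Pool.Agent.W216.MB.ANN

/-! # The zones, with error `O(1 / n)` -/

set_option autoImplicit false
open Metric MeasureTheory Set Filter Topology

namespace Pool.Agent.N228.AZ

open Pool.Agent.W747.MB
open Pool.Agent.TH363.CD

/-- the upper window with a margin depending on the modulus -/
theorem up_window {n : ℕ} (hn : 10 ^ 6 ≤ n) {k : ℕ} {a b y : ℝ} (ha : 10 ^ 60 ≤ a)
    (hay : a ≤ y) (hyb : y ≤ b) {i : ℕ} (hi : i ≤ k)
    (h0 : k = 0 → b ≤ n / 10 ^ 5)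
    (h1 : 1 ≤ k → b ≤ Real.log n ∧ E2^[k] b ≤ Real.exp (Real.log n / 5)) :
    E2^[i] y ≤ hh a b y / 100 * n := by
  have hn' : (10:ℝ) ^ 6 ≤ n := by exact_mod_cast hn
  have hn0 : (0:ℝ) < n := by linarith
  obtain ⟨f0, f1, f2, f3, f4, f5, f6⟩ := hh_facts ha hay hyb
  have ha0 : 0 < a := lt_of_lt_of_le (by norm_num) ha
  have hy0 : 0 < y := by linarith
  have hb0 : 0 < b := by linarith
  rcases Nat.eq_zero_or_pos k with hk | hk
  · obtain rfl : i = 0 := by omega
    have h2 := h0 hk
    rw [Function.iterate_zero, id]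
    calc y = (1 / 1000 * (y / b)) / 100 * (10 ^ 5 * b) := by field_simp; norm_num
      _ ≤ hh a b y / 100 * n := by
          gcongr
          linarith
  · obtain ⟨h2, h3⟩ := h1 hk
    have h4 : E2^[i] y ≤ E2^[k] b := by
      refine ((E2_mono.iterate i) hyb).trans ?_
      obtain ⟨m, hm⟩ := Nat.exists_eq_add_of_le' hi
      rw [hm, Function.iterate_add_apply]
      exact le_iter m _
    refine h4.trans (h3.trans ?_)
    -- `exp (log n / 5) ≤ hh / 100 * n`
    have hlogn : 0 < Real.log n := by linarith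
    have h5 : 1 / Real.log n ≤ hh a b y := by
      have h6 : (1:ℝ) / y ≤ y ^ (-(1 / 4) : ℝ) := by
        rw [one_div, ← Real.rpow_neg_one]
        exact Real.rpow_le_rpow_of_exponent_le (by linarith [show (1:ℝ) ≤ 10 ^ 60 by norm_num])
          (by norm_num)
      have h7 : 1 / Real.log n ≤ 1 / y := by
        apply one_div_le_one_div_of_le hy0
        linarith
      have h8 : 0 < y ^ (-(1 / 4) : ℝ) := Real.rpow_pos_of_pos hy0 _
      nlinarith
    have hx := Real.exp_log hn0
    set t := Real.log n with ht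
    have h9 : t ≤ 5 * Real.exp (t / 5) := by
      have := Real.add_one_le_exp (t / 5)
      linarith
    have h10 : 500 * (Real.exp (t / 5) * Real.exp (t / 5)) ≤ Real.exp t := by
      have e1 : Real.exp t = Real.exp (t / 5) ^ 5 := by
        rw [← Real.exp_nat_mul]
        congr 1
        push_cast
        ring
      have h11 : (10:ℝ) ^ 60 / 5 ≤ Real.exp (t / 5) := by
        have : 10 ^ 60 ≤ t := by linarith
        linarith
      rw [e1]
      have h12 : (500:ℝ) ≤ Real.exp (t / 5) ^ 3 := by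
        have h13 : (500:ℝ) ≤ Real.exp (t / 5) := le_trans (by norm_num) h11
        have h14 : Real.exp (t / 5) ≤ Real.exp (t / 5) ^ 3 := le_self_pow₀ (by linarith)
          (by norm_num)
        linarith
      calc 500 * (Real.exp (t / 5) * Real.exp (t / 5))
          ≤ Real.exp (t / 5) ^ 3 * (Real.exp (t / 5) * Real.exp (t / 5)) := by gcongr
        _ = _ := by ring
    calc Real.exp (t / 5) = (1 / t) / 100 * (100 * (t * Real.exp (t / 5))) := by
          field_simp
      _ ≤ (1 / t) / 100 * (100 * ((5 * Real.exp (t / 5)) * Real.exp (t / 5))) := by gcongr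
      _ = (1 / t) / 100 * (500 * (Real.exp (t / 5) * Real.exp (t / 5))) := by ring
      _ ≤ (1 / t) / 100 * Real.exp t := by gcongr
      _ = (1 / t) / 100 * n := by rw [hx]
      _ ≤ hh a b y / 100 * n := by gcongr

theorem sz (hAVG : P_AVG) (hLIN : P_LIN) (hW : P_WAVG) (hROT : P_ROT) (hRAD : P_RAD)
    (hESC : P_ESC) : P_SZ := by
  intro k hk
  obtain ⟨C, hC, hRAD⟩ := hRAD
  obtain ⟨m, rfl⟩ : ∃ m, k = m + 1 := ⟨k - 1, by omega⟩
  rw [show m + 1 - 1 = m by omega]
  set A : ℝ := 10 ^ 5 with hA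
  refine ⟨8 * (m + 1) * 10 ^ 10 * C + 4000 * Real.log A, by
    have : 0 < Real.log A := Real.log_pos (by norm_num)
    positivity, ?_⟩
  have hup : ∀ᶠ n : ℕ in atTop, (1 ≤ m → Real.log^[m] (n:ℝ) ≤ Real.log n ∧
      E2^[m] (Real.log^[m] (n:ℝ) / 10) ≤ Real.exp (Real.log n / 5)) := by
    rcases Nat.eq_zero_or_pos m with h | h
    · exact Eventually.of_forall fun n h1 => by omega
    · filter_upwards [iterlog_le_log h, win_up h] with n h1 h2 _
      exact ⟨h1, h2⟩
  filter_upwards [eventually_ge_atTop (10 ^ 6), hup, iterlog_le m, grow m,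
    (tendsto_iterlog (m + 1)).eventually_ge_atTop (10 ^ 60),
    (tendsto_iterlog m).eventually_ge_atTop (10 ^ 60)] with n hn hup hsn hgrow hs60 hs60'
  have hn2 : 2 ≤ n := le_trans (by norm_num) hn
  have hn' : (10:ℝ) ^ 6 ≤ n := by exact_mod_cast hn
  have hn0 : (0:ℝ) < n := by linarith
  have hss : Real.log^[m + 1] (n:ℝ) = Real.log (Real.log^[m] (n:ℝ)) :=
    Function.iterate_succ_apply' _ _ _
  set s := Real.log^[m + 1] (n:ℝ) with hs
  set s' := Real.log^[m] (n:ℝ) with hs'
  have hs0 : 0 < s := lt_of_lt_of_le (by norm_num) hs60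
  have hs'0 : 0 < s' := lt_of_lt_of_le (by norm_num) hs60'
  set a : ℝ := A * s with ha
  set b : ℝ := s' / A with hb
  have hA0 : 0 < A := by norm_num
  have hlA : 0 ≤ Real.log A := Real.log_nonneg (by norm_num)
  have ha60 : 10 ^ 60 ≤ a := by
    rw [ha, hA]; linarith
  have ha1 : s ≤ a := by rw [ha, hA]; linarith
  have ha2 : s ≤ a / 2 := by rw [ha, hA]; linarith
  have hb1 : 2 * b ≤ s' := by
    rw [hb, hA]; linarith
  have hsb : a ≤ b := by
    -- `A² log s' ≤ s'`
    rw [ha, hb, le_div_iff₀ hA0]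
    have h1 : 10 ^ 30 * s ≤ s' := by
      have h2 : s' = Real.exp s := by rw [hss, Real.exp_log hs'0]
      rw [h2]
      have h3 := Real.quadratic_le_exp_of_nonneg (x := s) hs0.le
      nlinarith
    refine le_trans ?_ h1
    rw [hA]
    have : (10:ℝ) ^ 5 * s * 10 ^ 5 = 10 ^ 10 * s := by ring
    rw [this]
    exact mul_le_mul_of_nonneg_right (by norm_num) hs0.le
  -- the two thin annuli
  have hthin : volume (Zn n s s') ≤ volume (Zn n a b) + ENNReal.ofReal (4000 * Real.log A / n) := by
    have hANN := Pool.Agent.W216.MB.ANN.main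
    have h1 := hANN n hn2 s a hs0 ha1 (by linarith)
    have h2 := hANN n hn2 b s' (by linarith) (by linarith) (by linarith)
    have e1 : a / s = A := by rw [ha]; field_simp
    have e2 : s' / b = A := by rw [hb]; field_simp
    rw [e1] at h1
    rw [e2] at h2
    have hsub : Zn n s s' ⊆ Zn n a b ∪ ({c : ℂ | s ≤ Y n c ∧ Y n c ≤ a} ∪
        {c : ℂ | b ≤ Y n c ∧ Y n c ≤ s'}) := by
      rintro c ⟨c1, c2⟩
      rcases le_total a (Y n c) with h3 | h3
      · rcases le_total (Y n c) b with h4 | h4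
        · exact Or.inl ⟨h3, h4⟩
        · exact Or.inr (Or.inr ⟨h4, c2⟩)
      · exact Or.inr (Or.inl ⟨c1, h3⟩)
    refine (measure_mono hsub).trans ((measure_union_le _ _).trans ?_)
    gcongr
    refine (measure_union_le _ _).trans ((add_le_add h1 h2).trans ?_)
    rw [← ENNReal.ofReal_add (by positivity) (by positivity)]
    apply ENNReal.ofReal_le_ofReal
    apply le_of_eq
    ring
  have hZsub : Zn n (a / 2) (2 * b) ⊆ Zn n s s' := by
    rintro c ⟨c1, c2⟩
    exact ⟨ha2.trans c1, c2.trans hb1⟩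
  have hrad := hRAD n a b hn2 (le_trans (by norm_num) ha60) hsb (by linarith)
  have hEw : ∀ i, i ≤ m → ∀ y, a ≤ y → y ≤ b → E2^[i] y ≤ hh a b y / 100 * n := by
    intro i hi y h1 h2
    refine up_window hn ha60 h1 h2 hi ?_ ?_
    · intro h3
      rw [h3] at hs'
      rw [hb, hs', Function.iterate_zero, id, hA]
    · intro h3
      obtain ⟨h4, h5⟩ := hup h3
      refine ⟨by linarith, ((E2_mono.iterate m) ?_).trans h5⟩
      rw [hb]
      gcongr
      norm_num
  -- final combination
  have hfin : ∀ (j : ℕ) (V : ENNReal), j ≤ m + 1 → 1 ≤ j →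
      ENNReal.ofReal ((1 / 2) ^ j) * volume (Zn n a b) ≤ V +
        ENNReal.ofReal (8 * j * 10 ^ 10 * C / n) →
      ENNReal.ofReal ((1 / 2) ^ j) * volume (Zn n s s') ≤ V +
        ENNReal.ofReal ((8 * (m + 1) * 10 ^ 10 * C + 4000 * Real.log A) / n) := by
    intro j V hj hj1 hV
    have hp : (1 / 2 : ℝ) ^ j ≤ 1 := pow_le_one₀ (by norm_num) (by norm_num)
    calc ENNReal.ofReal ((1 / 2) ^ j) * volume (Zn n s s')
        ≤ ENNReal.ofReal ((1 / 2) ^ j) *
          (volume (Zn n a b) + ENNReal.ofReal (4000 * Real.log A / n)) := by gcongr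
      _ = ENNReal.ofReal ((1 / 2) ^ j) * volume (Zn n a b) +
          ENNReal.ofReal ((1 / 2) ^ j) * ENNReal.ofReal (4000 * Real.log A / n) := mul_add _ _ _
      _ ≤ (V + ENNReal.ofReal (8 * j * 10 ^ 10 * C / n)) +
          1 * ENNReal.ofReal (4000 * Real.log A / n) := by
          gcongr
          rw [ENNReal.ofReal_le_one]
          exact hp
      _ ≤ (V + ENNReal.ofReal (8 * (m + 1) * 10 ^ 10 * C / n)) +
          1 * ENNReal.ofReal (4000 * Real.log A / n) := by
          gcongr
          exact_mod_cast hj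
      _ = V + (ENNReal.ofReal (8 * (m + 1) * 10 ^ 10 * C / n) +
          ENNReal.ofReal (4000 * Real.log A / n)) := by
          rw [one_mul, add_assoc]
      _ = _ := by
          rw [← ENNReal.ofReal_add (by positivity) (by positivity)]
          congr 2
          ring
  constructor
  · intro j hj1 hjk
    obtain ⟨i, rfl⟩ : ∃ i, j = i + 1 := ⟨j - 1, by omega⟩
    refine hfin (i + 1) _ hjk hj1 ?_
    have h1 := sharp hAVG hLIN hW hROT hn (T := fun _ => 0) (F := fun j => Ex n (j + 1))
      (Or.inr rfl) (fun η h1 h2 => lastAtt hn h1 h2) i hC ha60 hrad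
      (by
        intro y h1 h2
        show (0:ℝ) ≤ _
        cases i with
        | zero =>
          show (0:ℝ) ≤ y
          linarith
        | succ i =>
          rw [Function.iterate_succ_apply']
          exact (Real.exp_pos _).le)
      (hEw i (by omega))
    have e1 : 1 + i + 1 = i + 1 + 1 := by ring
    simp only [e1] at h1
    push_cast
    refine h1.trans ?_
    gcongr
  · refine hfin (m + 1) _ le_rfl (by omega) ?_
    have h1 := sharp hAVG hLIN hW hROT hn (T := fun η => 8 / η * Real.log n)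
      (F := fun _ => (N62a1eb23.multibrotSet n)ᶜ)
      (Or.inl rfl) (fun η h1 h2 => lastEsc hESC hn h1 h2) m hC ha60 hrad
      (by
        intro y h1 h2
        show 8 / hh a b y * Real.log n ≤ (G (hh a b y))^[m] y
        obtain ⟨f0, f1, f2, f3, f4, f5, f6⟩ := hh_facts ha60 h1 h2
        obtain ⟨g1, g2, g3⟩ := win_esc ha60 h1 h2
        have h3 := hgrow (hh a b y) f0 y g1 g2 (by
          refine le_trans ?_ g3
          rw [ha, hA]
          linarith)
        have hlogn : 0 ≤ Real.log n := Real.log_nonneg (by linarith)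
        rw [div_mul_eq_mul_div, div_le_iff₀ f0]
        nlinarith)
      (hEw m le_rfl)
    push_cast
    refine h1.trans ?_
    gcongr
    intro c hc
    exact ⟨hZsub hc.2, hc.1⟩

end Pool.Agent.N228.AZ
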