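import Mathlib
import Pool.Agent.N228.AZ.First
import Pool.Agent.N228.AZ.Stm2

/-! # The densities in the zones: lower bounds -/

set_option autoImplicit false
open Metric MeasureTheory Set Filter Topology

namespace Pool.Agent.N228.AZ

open Pool.Agent.W747.MB
open Pool.Agent.TH363.CD

theorem zone (hAVG : P_AVG) (hLIN : P_LIN) (hANU : P_ANU) (hESC : P_ESC) (hWIN : P_WIN) :
    P_ZONE := by
  intro k δ hk hδ
  have hk0 : (0:ℝ) < k := by exact_mod_cast hk
  set η : ℝ := min (1 / 100) (δ / (16 * k)) with hη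
  have hη0 : 0 < η := lt_min (by norm_num) (by positivity)
  have hη1 : η ≤ 1 / 100 := min_le_left _ _
  have hη2 : η ≤ δ / (16 * k) := min_le_right _ _
  set ε : ℝ := min (1 / 6) (δ / 6) with hε
  have hε0 : 0 < ε := lt_min (by norm_num) (by positivity)
  have hε1 : ε ≤ 1 / 6 := min_le_left _ _
  have hε2 : ε ≤ δ / 6 := min_le_right _ _
  have h8k : 8 * (k:ℝ) * η ≤ δ / 2 := by
    rw [le_div_iff₀ (by positivity)] at hη2
    linarith
  set lA : ℝ := 402 / (ε * η) with hlA
  have hlA0 : 0 < lA := by positivity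
  have hlAη : 402 / η ≤ lA := by
    rw [hlA]
    apply div_le_div_of_nonneg_left (by norm_num) (by positivity)
    nlinarith
  set A : ℝ := Real.exp lA with hA
  have hAl : 402 / η ≤ A := by
    have := Real.add_one_le_exp lA
    linarith
  have hAη : 402 ≤ η * A := by
    rw [div_le_iff₀ hη0] at hAl
    linarith
  have hA1 : 1 ≤ A := by
    have : η * A ≤ A := by
      have : 0 < A := Real.exp_pos _
      nlinarith
    linarith
  have hA10 : 10 ≤ A := by
    have : η * A ≤ A := by
      have : 0 < A := Real.exp_pos _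
      nlinarith
    linarith
  have hA0 : 0 < A := by linarith
  refine ⟨A, hA1, ?_⟩
  have hnη : ∀ᶠ n : ℕ in atTop, 10 ^ 42 ≤ η ^ 5 * (n:ℝ) := by
    have := (tendsto_natCast_atTop_atTop (R := ℝ)).eventually_ge_atTop (10 ^ 42 / η ^ 5)
    filter_upwards [this] with n hn
    rw [div_le_iff₀ (by positivity)] at hn
    linarith
  filter_upwards [eventually_ge_atTop (10 ^ 6), hnη,
    (tendsto_iterlog k).eventually_ge_atTop (10 ^ 40 / η ^ 4),
    (tendsto_iterlog (k - 1)).eventually_ge_atTop 0, hANU ε hε0,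
    hWIN (k - 1) (η / 100) A (by positivity)] with n hn hnη hlk hlk1 hANU hWIN
  intro a b ha hab hb
  have hn' : (10:ℝ) ^ 6 ≤ n := by exact_mod_cast hn
  have hn0 : (0:ℝ) < n := by linarith
  set s := Real.log^[k] (n:ℝ) with hs
  set s' := Real.log^[k - 1] (n:ℝ) with hs'
  have hs40 : 10 ^ 40 ≤ η ^ 4 * s := by
    rw [div_le_iff₀ (by positivity)] at hlk
    linarith
  have hs0 : 0 < s := by
    by_contra h
    push Not at h
    have : 0 < η ^ 4 := by positivity
    nlinarith
  have hsa : s ≤ a := by nlinarith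
  have ha40 : 10 ^ 40 ≤ η ^ 4 * a := by
    refine hs40.trans ?_
    gcongr
  have ha1 : 1 ≤ a := by
    have h4 : η ^ 4 ≤ 1 := pow_le_one₀ hη0.le (by linarith)
    nlinarith
  have ha0 : 0 < a := by linarith
  have hb0 : 0 < b := by nlinarith
  -- the upper window
  have hbk : E2^[k - 1] b ≤ η / 100 * n := by
    rcases Nat.eq_zero_or_pos (k - 1) with h | h
    · rw [h] at hs' ⊢
      rw [Function.iterate_zero, id] at hs' ⊢
      rw [hs'] at hb
      refine hb.trans ?_
      rw [div_le_iff₀ hA0]
      nlinarith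
    · refine le_trans ((E2_mono.iterate (k - 1)) ?_) (hWIN.1 h)
      refine hb.trans ?_
      gcongr
  have hbi : ∀ i, i ≤ k - 1 → E2^[i] b ≤ η / 100 * n := by
    intro i hi
    refine le_trans ?_ hbk
    obtain ⟨m, hm⟩ := Nat.exists_eq_add_of_le' hi
    rw [hm, Function.iterate_add_apply]
    exact le_iter m _
  have hbn : b ≤ η / 100 * n := (le_iter (k - 1) b).trans hbk
  -- the ratio of the areas
  set W : ℝ := Real.exp (201 / η) with hW
  have hW0 : 0 < W := Real.exp_pos _
  have hW1 : 1 ≤ W := Real.one_le_exp (by positivity)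
  have hWA : W ^ 2 ≤ A := by
    rw [hW, ← Real.exp_nat_mul]
    apply Real.exp_le_exp.2
    push_cast
    refine le_trans (le_of_eq ?_) hlAη
    ring
  have hinner : {c : ℂ | W * a ≤ Y n c ∧ W * Y n c ≤ b} = {c : ℂ | W * a ≤ Y n c ∧ Y n c ≤ b / W} := by
    ext c
    simp only [mem_ofPred_eq]
    rw [le_div_iff₀ hW0, mul_comm (Y n c) W]
  have hbn2 : b ≤ 2 * n := by nlinarith
  obtain ⟨-, hU⟩ := hANU a b (by linarith) (by nlinarith) hbn2
  have hWab : W * a ≤ b / W := by
    rw [le_div_iff₀ hW0]
    calc W * a * W = W ^ 2 * a := by ring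
      _ ≤ A * a := by gcongr
      _ ≤ b := hab
  obtain ⟨hL, -⟩ := hANU (W * a) (b / W) (by nlinarith) hWab
    (by rw [div_le_iff₀ hW0]; nlinarith)
  have hlog : Real.log (b / W / (W * a)) = Real.log (b / a) - 2 * (201 / η) := by
    rw [show b / W / (W * a) = (b / a) / W ^ 2 by field_simp, Real.log_div (by positivity)
      (by positivity), Real.log_pow, hW, Real.log_exp]
    push_cast
    ring
  have hlogba : lA ≤ Real.log (b / a) := by
    rw [Real.le_log_iff_exp_le (by positivity), ← hA, le_div_iff₀ ha0]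
    exact hab
  have hlog2 : 2 * (201 / η) ≤ ε * Real.log (b / a) := by
    calc 2 * (201 / η) = ε * lA := by rw [hlA]; field_simp; norm_num
      _ ≤ _ := by gcongr
  have hlba0 : 0 < Real.log (b / a) := by linarith
  have hratio : ENNReal.ofReal (1 - 3 * ε) * volume (Zn n a b) ≤
      volume {c : ℂ | W * a ≤ Y n c ∧ W * Y n c ≤ b} := by
    rw [hinner]
    refine le_trans ?_ hL
    calc ENNReal.ofReal (1 - 3 * ε) * volume (Zn n a b)
        ≤ ENNReal.ofReal (1 - 3 * ε) *
          ENNReal.ofReal ((1 + ε) * (2 * Real.pi * Real.log (b / a) / n)) := by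
          gcongr
          exact hU
      _ = ENNReal.ofReal ((1 - 3 * ε) * ((1 + ε) * (2 * Real.pi * Real.log (b / a) / n))) := by
          exact (ENNReal.ofReal_mul (by linarith)).symm
      _ ≤ _ := by
          apply ENNReal.ofReal_le_ofReal
          rw [hlog]
          have h1 : (1 - 3 * ε) * ((1 + ε) * (2 * Real.pi * Real.log (b / a) / n)) =
              (2 * Real.pi / n) * ((1 - 3 * ε) * (1 + ε) * Real.log (b / a)) := by ring
          have h2 : (1 - ε) * (2 * Real.pi * (Real.log (b / a) - 2 * (201 / η)) / n) =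
              (2 * Real.pi / n) * ((1 - ε) * (Real.log (b / a) - 2 * (201 / η))) := by ring
          rw [h1, h2]
          apply mul_le_mul_of_nonneg_left _ (by positivity)
          calc (1 - 3 * ε) * (1 + ε) * Real.log (b / a)
              ≤ (1 - ε) * ((1 - ε) * Real.log (b / a)) := by
                have h3 : (1 - 3 * ε) * (1 + ε) ≤ (1 - ε) * (1 - ε) := by nlinarith
                calc _ ≤ ((1 - ε) * (1 - ε)) * Real.log (b / a) :=
                      mul_le_mul_of_nonneg_right h3 hlba0.le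
                  _ = _ := by ring
            _ ≤ _ := by
                apply mul_le_mul_of_nonneg_left _ (by linarith)
                linarith
  -- the conclusion from the annulus step
  have hconc : ∀ (j : ℕ) (V : ENNReal), j ≤ k →
      ENNReal.ofReal ((1 / 2) ^ j * (1 - 8 * j * η)) *
        volume {c : ℂ | W * a ≤ Y n c ∧ W * Y n c ≤ b} ≤ V →
      ENNReal.ofReal ((1 / 2) ^ j - δ) * volume (Zn n a b) ≤ V := by
    intro j V hj hV
    refine le_trans ?_ hV
    calc ENNReal.ofReal ((1 / 2) ^ j - δ) * volume (Zn n a b)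
        ≤ ENNReal.ofReal ((1 / 2) ^ j * (1 - 8 * j * η) * (1 - 3 * ε)) * volume (Zn n a b) := by
          gcongr ENNReal.ofReal ?_ * _
          have h1 : (1 / 2 : ℝ) ^ j ≤ 1 := pow_le_one₀ (by norm_num) (by norm_num)
          have h2 : (0:ℝ) ≤ (1 / 2) ^ j := by positivity
          have h3 : (j:ℝ) ≤ k := by exact_mod_cast hj
          have h4 : 8 * (j:ℝ) * η ≤ δ / 2 := by
            refine le_trans ?_ h8k
            gcongr
          have h5 : 0 ≤ 8 * (j:ℝ) * η := by positivity
          have h6 : 1 - (8 * (j:ℝ) * η + 3 * ε) ≤ (1 - 8 * j * η) * (1 - 3 * ε) := by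
            nlinarith
          calc (1 / 2 : ℝ) ^ j - δ ≤ (1 / 2 : ℝ) ^ j - (1 / 2) ^ j * (8 * (j:ℝ) * η + 3 * ε) := by
                have h7 : (1 / 2 : ℝ) ^ j * (8 * (j:ℝ) * η + 3 * ε) ≤
                    1 * (8 * (j:ℝ) * η + 3 * ε) := by gcongr
                linarith
            _ = (1 / 2 : ℝ) ^ j * (1 - (8 * (j:ℝ) * η + 3 * ε)) := by ring
            _ ≤ (1 / 2 : ℝ) ^ j * ((1 - 8 * j * η) * (1 - 3 * ε)) := by gcongr
            _ = _ := by ring
      _ = ENNReal.ofReal ((1 / 2) ^ j * (1 - 8 * j * η)) *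
          (ENNReal.ofReal (1 - 3 * ε) * volume (Zn n a b)) := by
          rw [ENNReal.ofReal_mul' (by linarith), mul_assoc]
      _ ≤ _ := by gcongr
  constructor
  · intro j hj1 hjk
    obtain ⟨i, rfl⟩ : ∃ i, j = i + 1 := ⟨j - 1, by omega⟩
    refine hconc (i + 1) _ hjk ?_
    have hG0 : 0 ≤ (G η)^[i] a := by
      cases i with
      | zero => exact ha0.le
      | succ i =>
        rw [Function.iterate_succ_apply']
        exact (Real.exp_pos _).le
    have h1 := first hAVG hLIN hn hη0 hη1 (Or.inr rfl) (lastAtt hn hη0 hη1) i hnη ha40 hG0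
      (hbi i (by omega))
    have e1 : 1 + i + 1 = i + 1 + 1 := by ring
    rw [e1] at h1
    push_cast
    exact h1
  · refine hconc k _ le_rfl ?_
    obtain ⟨i, rfl⟩ : ∃ i, k = i + 1 := ⟨k - 1, by omega⟩
    have hTG : 8 / η * Real.log n ≤ (G η)^[i] a := by
      have h2 := hWIN.2 η hη0 (by linarith) hA1
      rw [show i + 1 - 1 = i by omega] at h2
      have hlogn : 0 ≤ Real.log n := Real.log_nonneg (by linarith)
      calc 8 / η * Real.log n ≤ A * Real.log n := by
            gcongr
            refine le_trans ?_ hAl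
            gcongr
            norm_num
        _ ≤ (G η)^[i] (A * Real.log^[i + 1] (n:ℝ)) := h2
        _ ≤ (G η)^[i] a := ((G_mono hη0).iterate i) ha
    have h1 := first hAVG hLIN hn hη0 hη1 (Or.inl rfl) (lastEsc hESC hn hη0 hη1) i hnη ha40 hTG
      (hbi i (by omega))
    push_cast
    refine h1.trans (le_of_eq ?_)
    congr 1
    ext c
    simp only [mem_inter_iff, mem_compl_iff, Set.mem_sdiff, Zn]
    tauto

end Pool.Agent.N228.AZ
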